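import Pool.Agent.Helper84.OT.Compose
import Pool.Agent.Helper25.OT.Frame
import Pool.Agent.Helper69.OT.Spec

/-!
# Nodes of the certificate (project OT, MP_409f7f_co)

The meaning of the codes: frames of the sides, witnesses, exposed sides, weaker patterns.
-/

set_option autoImplicit false

namespace Pool.Agent.Helper69.OT

open Pool.Agent.Helper17.UF Pool.Agent.Helper26.OT Relation

variable {ι : Type} {nb : ι → Dir → Option ι}

theorem sideD_sideN : ∀ d : Dir, sideD (sideN d) = d := by decide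

theorem sideN_sideD : ∀ s < 6, sideN (sideD s) = s := by decide

theorem sideN_lt : ∀ d : Dir, sideN d < 6 := by decide

theorem sideN_lt5 : ∀ d : Dir, d ≠ Dir.nz → sideN d < 5 := by decide

theorem frS_neg : ∀ s < 5, ∀ d : Dir, frS s d.neg = (frS s d).neg := by decide

theorem frS_perp : ∀ s < 5, ∀ d t : Dir, Dir.perp (frS s d) (frS s t) = Dir.perp d t := by decide

theorem frS_isFrame {s : ℕ} (hs : s < 5) : IsFrame (frS s) := ⟨frS_neg s hs, frS_perp s hs⟩

theorem frS_pzN (s : ℕ) : frS s Dir.pz = sideD s := rfl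

theorem posJ_frS : ∀ s < 5, ∀ t l : Dir, Perp3 Dir.pz t l →
    posJ s (cor (frS s Dir.pz) (frS s t) (frS s l)) =
      posJ 5 ![cor Dir.pz t l 0, cor Dir.pz t l 1, false] := by decide

theorem jOf_frS : ∀ s < 5, ∀ t : Dir, jOf s (sideN (frS s t)) = jOf 5 (sideN t) := by decide

/-- Patterns at the side `pz` in the frame of the side `s` are patterns at the side `s`. -/
theorem holds_side {y : ι} {s : ℕ} (hs : s < 5) {p : ℕ}
    (h : SideReal (fun i d => nb i (frS s d)) y Dir.pz (chC p) (stC p)) :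
    SideReal nb y (sideD s) (chP s p) (stP s p) := by
  refine SideReal.push (frS_isFrame hs) h ?_ ?_
  · intro t l hl
    unfold chP chC
    rw [posJ_frS s hs t l hl]
  · intro t
    unfold stP stC
    rw [jOf_frS s hs t]

theorem bits4 : ∀ b0 b1 b2 b3 : Bool, ∀ j < 4,
    (b0.toNat + 2 * b1.toNat + 4 * b2.toNat + 8 * b3.toNat).testBit j =
      [b0, b1, b2, b3].getD j false := by decide

/-- Bits of a ring word. -/
theorem ring_bit (σ s : ℕ) {j : ℕ} (hj : j < 4) :
    (ringOf σ s).testBit j = σ.testBit (cyc s j) := by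
  unfold ringOf
  rw [bits4 _ _ _ _ j hj]
  interval_cases j <;> rfl

theorem vch_vtx (σ : ℕ) (κ : Fin 3 → Bool) : vch σ κ = !σ.testBit (vtx κ) := rfl

theorem posJ_cyc : ∀ s < 6, ∀ t l : Dir, Perp3 (sideD s) t l →
    posJ s (cor (sideD s) t l) < 4 ∧
      cyc s (posJ s (cor (sideD s) t l)) = vtx (cor (sideD s) t l) := by decide

theorem code_div (r : ℕ) {c : ℕ} (hc : c < 81) : (81 * r + c) / 81 = r := by omega

theorem code_mod (r : ℕ) {c : ℕ} (hc : c < 81) : (81 * r + c) % 81 = c := by omega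

theorem chP_eq (σ : ℕ) {s c : ℕ} (hs : s < 6) (hc : c < 81) {t l : Dir}
    (h : Perp3 (sideD s) t l) :
    chP s (81 * ringOf σ s + c) (cor (sideD s) t l) = vch σ (cor (sideD s) t l) := by
  obtain ⟨h1, h2⟩ := posJ_cyc s hs t l h
  unfold chP
  rw [code_div _ hc, ring_bit σ s h1, h2, vch_vtx]

theorem cor_pz : ∀ t l : Dir, Perp3 Dir.pz t l →
    (![cor Dir.pz t l 0, cor Dir.pz t l 1, false] : Fin 3 → Bool) = cor Dir.nz t l := by decide

theorem chC_eq (σ : ℕ) {c : ℕ} (hc : c < 81) {t l : Dir} (h : Perp3 Dir.pz t l) :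
    chC (81 * ringOf σ 5 + c) (cor Dir.pz t l) = vch σ (cor Dir.nz t l) := by
  have key : ∀ t l : Dir, Perp3 Dir.pz t l → Perp3 Dir.nz t l := by decide
  obtain ⟨h1, h2⟩ := posJ_cyc 5 (by norm_num) t l (key _ _ h)
  unfold chC
  rw [code_div _ hc, cor_pz t l h]
  have e : sideD 5 = Dir.nz := rfl
  rw [e] at h1 h2
  rw [ring_bit σ 5 h1, h2, vch_vtx]

theorem ends_cyc : ∀ s < 6, ∀ j < 4,
    ends (sideD s) (sideD (adjE s j)) = (cyc s j, cyc s (j + 1)) ∨
      ends (sideD s) (sideD (adjE s j)) = (cyc s (j + 1), cyc s j) := by decide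

theorem perp_adjE6 : ∀ s < 6, ∀ j < 4, Dir.perp (sideD s) (sideD (adjE s j)) = true := by decide

theorem col_eq (σ : ℕ) {s j : ℕ} (hs : s < 6) (hj : j < 4) :
    col σ s j = ecol (vch σ) (sideD s) (sideD (adjE s j)) := by
  have hp := perp_adjE6 s hs j hj
  have he := ends_eq _ _ hp
  have hv : ∀ κ : Fin 3 → Bool, vch σ κ = !σ.testBit (ci κ) := fun _ => rfl
  unfold ecol col
  rw [hv, hv]
  rcases ends_cyc s hs j hj with h | h
  · rw [h, Prod.mk.injEq] at he
    rw [← he.1, ← he.2]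
    cases σ.testBit (cyc s j) <;> cases σ.testBit (cyc s (j + 1)) <;> rfl
  · rw [h, Prod.mk.injEq] at he
    rw [← he.1, ← he.2]
    cases σ.testBit (cyc s j) <;> cases σ.testBit (cyc s (j + 1)) <;> rfl

theorem jOf_perp : ∀ d t : Dir, Dir.perp d t = true →
    jOf (sideN d) (sideN t) < 4 ∧ adjE (sideN d) (jOf (sideN d) (sideN t)) = sideN t := by decide

theorem col_dir (σ : ℕ) {d t : Dir} (h : Dir.perp d t = true) :
    col σ (sideN d) (jOf (sideN d) (sideN t)) = ecol (vch σ) d t := by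
  obtain ⟨h1, h2⟩ := jOf_perp d t h
  rw [col_eq σ (sideN_lt d) h1, h2, sideD_sideN, sideD_sideN]

/-- Only the colours on the side matter. -/
theorem SideReal.congrN {y : ι} {d : Dir} {χ0 χ1 : (Fin 3 → Bool) → Bool} {st : Dir → St}
    (h : SideReal nb y d χ0 st) (hχ : ∀ t l, Perp3 d t l → χ0 (cor d t l) = χ1 (cor d t l)) :
    SideReal nb y d χ1 st := by
  obtain ⟨N, χ, ρ, h1, h2⟩ := h
  exact ⟨N, χ, ρ, fun t l hl => (h1 t l hl).trans (hχ t l hl), h2⟩

/-- A witness composes the patterns at the sides of a brick to the pattern of the result. -/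
theorem node_w (H : NbOK nb) (hA : (bgraph nb).IsAcyclic) [Finite ι] {b y : ι}
    (hu : nb b Dir.pz = some y) {σ : ℕ} {c : ℕ → ℕ} {ord : ℕ → ℕ} (hW : WOK σ c ord)
    (hs : ∀ s < 5, SideReal nb y (sideD s) (chP s (81 * ringOf σ s + c s))
      (stP s (81 * ringOf σ s + c s))) :
    SideReal nb b Dir.pz (chC (81 * ringOf σ 5 + c 5)) (stC (81 * ringOf σ 5 + c 5)) := by
  have hcode : ∀ d : Dir, c (sideN d) < 81 := fun d => hW.code _ (sideN_lt d)
  have hst : ∀ d t : Dir, stP (sideN d) (81 * ringOf σ (sideN d) + c (sideN d)) t =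
      toSt (dg (c (sideN d)) (jOf (sideN d) (sideN t))) := by
    intro d t
    unfold stP
    rw [code_mod _ (hcode d)]
  have hneck : ∀ t l, Perp3 Dir.pz t l →
      chC (81 * ringOf σ 5 + c 5) (cor Dir.pz t l) = vch σ (cor Dir.pz.neg t l) :=
    fun t l hl => chC_eq σ (hW.code 5 (by norm_num)) hl
  have hne : ∀ d : Dir, d ≠ Dir.pz.neg → sideN d < 5 := fun d hd => sideN_lt5 d hd
  refine compose H hA hu (χy := vch σ)
    (st := fun d => stP (sideN d) (81 * ringOf σ (sideN d) + c (sideN d)))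
    (fun d => ord (sideN d)) hneck ?_ ?_ ?_ ?_ ?_ ?_
  · intro d hd
    have h1 := hs (sideN d) (hne d hd)
    rw [sideD_sideN] at h1
    refine h1.congrN ?_
    intro t l hl
    have h2 := chP_eq σ (s := sideN d) (sideN_lt d) (hcode d) (t := t) (l := l)
      (by rw [sideD_sideN]; exact hl)
    rw [sideD_sideN] at h2
    exact h2
  · intro d s hd hs' hp
    have hp' := perp_symm' _ _ hp
    obtain ⟨h1, h2⟩ := jOf_perp d s hp
    have h3 := hW.int (sideN d) (hne d hd) _ h1 (by rw [h2]; exact hne s hs')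
    rw [h2, col_dir σ hp] at h3
    simp only [hst]
    exact h3
  · intro d s hd hs' hp hfl
    obtain ⟨h1, h2⟩ := jOf_perp d s hp
    have h3 := hW.flow (sideN d) (hne d hd) _ h1 (by rw [h2]; exact hne s hs')
    rw [h2, col_dir σ hp] at h3
    simp only [hst] at hfl
    exact h3 hfl
  · intro t ht
    have ht' := perp_neg_left _ _ ht
    have h0 := jOf_perp Dir.nz t ht'
    obtain ⟨h1, h2⟩ := h0
    have h3 := hW.ring _ h1
    have e : sideN Dir.nz = 5 := rfl
    have hc := col_dir σ ht'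
    have hc' : col σ 5 (jOf 5 (sideN t)) = ecol (vch σ) Dir.nz t := hc
    rw [e] at h2 h3
    rw [h2, hc', ecol_comm (vch σ) (d := Dir.nz) (t := t) ht'] at h3
    have h4 : stC (81 * ringOf σ 5 + c 5) t = toSt (dg (c 5) (jOf 5 (sideN t))) := by
      unfold stC
      rw [code_mod _ (hW.code 5 (by norm_num))]
    rw [h4]
    simp only [hst]
    exact h3
  · intro d s hd hs' hde hse
    exact bond_conn hW.lt hW.bond (fun x => x ≠ Dir.pz.neg) (Or.inr ⟨_, fun x => Iff.rfl⟩)
      d s hd hs' hde hse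
  · obtain ⟨j, hj, hjn⟩ := hW.bi
    have hadj : ∀ j < 4, Dir.perp Dir.pz (sideD (adjE 5 j)) = true ∧
        Dir.perp (sideD (adjE 5 j)) Dir.nz = true := by decide
    obtain ⟨a1, a2⟩ := hadj j hj
    refine ⟨sideD (adjE 5 j), a1, ?_⟩
    rw [ecol_neck hneck a1]
    rw [col_eq σ (by norm_num) hj] at hjn
    have e : sideD 5 = Dir.nz := rfl
    rw [e] at hjn
    have e2 : (Dir.pz).neg = Dir.nz := rfl
    rw [e2, ecol_comm _ a2]
    exact hjn

/-- The pattern is that of an exposed side with some direction of the column. -/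
def ExpOK (p : ℕ) : Prop := ∃ n : Dir, Dir.perp Dir.pz n = true ∧
  (∀ l : Dir, Perp3 Dir.pz n l → chC p (cor Dir.pz n.neg l) = true →
    chC p (cor Dir.pz n l) = true) ∧
  ∀ t : Dir, Dir.perp Dir.pz t = true → stC p t = stOf n t

instance (p : ℕ) : Decidable (ExpOK p) := by unfold ExpOK; infer_instance

set_option maxRecDepth 100000 in
theorem exp_all : ((List.range 1296).all fun p =>
    !(rowC p).testBit nIM || decide (ExpOK p)) = true := by decide +kernel

theorem tCOL_lt : tCOL < 2 ^ (256 * 1296) := by decide +kernel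

theorem rowC_zero {p : ℕ} (hp : 1296 ≤ p) : rowC p = 0 := by
  unfold rowC row
  have h1 : Nat.shiftRight tCOL (Nat.mul 256 p) = 0 := by
    show tCOL >>> (256 * p) = 0
    rw [Nat.shiftRight_eq_div_pow]
    refine Nat.div_eq_of_lt (lt_of_lt_of_le tCOL_lt ?_)
    exact Nat.pow_le_pow_right (by norm_num) (Nat.mul_le_mul_left _ hp)
  rw [h1]
  exact Nat.zero_and _

theorem expOK_of {p : ℕ} (h : (rowC p).testBit nIM = true) : ExpOK p := by
  have hp : p < 1296 := by
    by_contra hp
    rw [rowC_zero (not_lt.1 hp), Nat.zero_testBit] at h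
    exact Bool.noConfusion h
  have h0 := exp_all
  rw [List.all_eq_true] at h0
  have h1 := h0 p (List.mem_range.2 hp)
  rw [h, Bool.not_true, Bool.false_or, decide_eq_true_eq] at h1
  exact h1

theorem cle_refl : ∀ (c : Option Bool) (s : St), cle c s s = true := by decide

/-- An exposed side `pz` has the patterns of the exposed image. -/
theorem exposed_pz (H : NbOK nb) {y : ι} (hy : nb y Dir.pz = none) {p : ℕ}
    (h : (rowC p).testBit nIM = true) : SideReal nb y Dir.pz (chC p) (stC p) := by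
  obtain ⟨n, h1, h2, h3⟩ := expOK_of h
  refine (SideReal.exposed H hy h1 h2).weaken ?_
  intro t ht
  rw [h3 t ht]
  exact cle_refl _ _

/-- An exposed side has the patterns of the exposed image. -/
theorem exposed_side (H : NbOK nb) {y : ι} {s : ℕ} (hs : s < 5) (hy : nb y (sideD s) = none)
    {p : ℕ} (h : (rowC p).testBit nIM = true) :
    SideReal nb y (sideD s) (chP s p) (stP s p) := by
  refine holds_side hs ?_
  exact exposed_pz (H.comp (frS_isFrame hs)) hy h

/-- Colour of the edge `j` of a ring word. -/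
def colr (r j : ℕ) : Option Bool :=
  if r.testBit j = r.testBit ((j + 1) % 4) then some (!r.testBit j) else none

/-- The state word `q` is weaker than `c`. -/
def leW (r c q : ℕ) : Bool :=
  cle (colr r 0) (toSt (dg q 0)) (toSt (dg c 0)) && cle (colr r 1) (toSt (dg q 1)) (toSt (dg c 1)) &&
  cle (colr r 2) (toSt (dg q 2)) (toSt (dg c 2)) && cle (colr r 3) (toSt (dg q 3)) (toSt (dg c 3))

theorem leW_get {r c q : ℕ} (h : leW r c q = true) {j : ℕ} (hj : j < 4) :
    cle (colr r j) (toSt (dg q j)) (toSt (dg c j)) = true := by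
  unfold leW at h
  rw [Bool.and_eq_true, Bool.and_eq_true, Bool.and_eq_true] at h
  obtain ⟨⟨⟨h0, h1⟩, h2⟩, h3⟩ := h
  interval_cases j
  · exact h0
  · exact h1
  · exact h2
  · exact h3

set_option maxRecDepth 100000 in
theorem dn_all : ((List.range 16).all fun r => (List.range 81).all fun c =>
    (List.range 81).all fun q =>
      !(row tDN 81 (2 ^ 81 - 1) (81 * r + c)).testBit q || leW r c q) = true := by
  decide +kernel

theorem row_lt (tab w i : ℕ) : row tab w (2 ^ w - 1) i < 2 ^ w := by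
  unfold row
  show (Nat.shiftRight tab (Nat.mul w i)) &&& (2 ^ w - 1) < 2 ^ w
  rw [Nat.and_two_pow_sub_one_eq_mod]
  exact Nat.mod_lt _ (by positivity)

theorem dn_lt {i q : ℕ} (h : (row tDN 81 (2 ^ 81 - 1) i).testBit q = true) : q < 81 := by
  by_contra hq
  have h1 : row tDN 81 (2 ^ 81 - 1) i < 2 ^ q :=
    lt_of_lt_of_le (row_lt tDN 81 i) (Nat.pow_le_pow_right (by norm_num) (not_lt.1 hq))
  rw [Nat.testBit_lt_two_pow h1] at h
  exact Bool.noConfusion h

theorem leW_of {r c q : ℕ} (hr : r < 16) (hc : c < 81)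
    (h : (row tDN 81 (2 ^ 81 - 1) (81 * r + c)).testBit q = true) : leW r c q = true := by
  have h0 := dn_all
  simp only [List.all_eq_true, List.mem_range] at h0
  have h1 := h0 r hr c hc q (dn_lt h)
  rw [h, Bool.not_true, Bool.false_or] at h1
  exact h1

theorem edge_pz : ∀ t : Dir, Dir.perp Dir.pz t = true →
    jOf 5 (sideN t) < 4 ∧
    ((posJ 5 ![cor Dir.pz t (Dir.cross Dir.pz t) 0, cor Dir.pz t (Dir.cross Dir.pz t) 1, false] =
        jOf 5 (sideN t) ∧
      posJ 5 ![cor Dir.pz t (Dir.cross Dir.pz t).neg 0, cor Dir.pz t (Dir.cross Dir.pz t).neg 1,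
        false] = (jOf 5 (sideN t) + 1) % 4) ∨
     (posJ 5 ![cor Dir.pz t (Dir.cross Dir.pz t) 0, cor Dir.pz t (Dir.cross Dir.pz t) 1, false] =
        (jOf 5 (sideN t) + 1) % 4 ∧
      posJ 5 ![cor Dir.pz t (Dir.cross Dir.pz t).neg 0, cor Dir.pz t (Dir.cross Dir.pz t).neg 1,
        false] = jOf 5 (sideN t))) := by decide

theorem ecol_chC (p : ℕ) {t : Dir} (ht : Dir.perp Dir.pz t = true) :
    ecol (chC p) Dir.pz t = colr (p / 81) (jOf 5 (sideN t)) := by
  obtain ⟨-, ⟨h1, h2⟩ | ⟨h1, h2⟩⟩ := edge_pz t ht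
  · unfold ecol chC colr
    rw [h1, h2]
    cases (p / 81).testBit (jOf 5 (sideN t)) <;>
      cases (p / 81).testBit ((jOf 5 (sideN t) + 1) % 4) <;> rfl
  · unfold ecol chC colr
    rw [h1, h2]
    cases (p / 81).testBit (jOf 5 (sideN t)) <;>
      cases (p / 81).testBit ((jOf 5 (sideN t) + 1) % 4) <;> rfl

/-- Weaker patterns. -/
theorem down_pz {b : ι} {r c q : ℕ} (hr : r < 16) (hc : c < 81)
    (hq : (row tDN 81 (2 ^ 81 - 1) (81 * r + c)).testBit q = true)
    (h : SideReal nb b Dir.pz (chC (81 * r + c)) (stC (81 * r + c))) :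
    SideReal nb b Dir.pz (chC (81 * r + q)) (stC (81 * r + q)) := by
  have hq81 := dn_lt hq
  have e : chC (81 * r + q) = chC (81 * r + c) := by
    funext κ
    unfold chC
    rw [code_div _ hc, code_div _ hq81]
  rw [e]
  refine h.weaken ?_
  intro t ht
  have h1 := leW_get (leW_of hr hc hq) (edge_pz t ht).1
  rw [ecol_chC _ ht, code_div _ hc]
  unfold stC
  rw [code_mod _ hc, code_mod _ hq81]
  exact h1

end Pool.Agent.Helper69.OT
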