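import Pool.Agent.Helper84.OT.El

/-!
# Composition of realizations at a brick (project OT, MP_409f7f_co)
-/

set_option autoImplicit false

namespace Pool.Agent.Helper69.OT

open Pool.Agent.Helper17.UF Relation

variable {ι : Type} {nb : ι → Dir → Option ι}

theorem cor_comm23 : ∀ d t l : Dir, Perp3 d t l → cor d t l = cor d l t := by decide

theorem cor_comm12 : ∀ d t l : Dir, Perp3 d t l → cor d t l = cor t d l := by decide

theorem perp3_cross : ∀ d t : Dir, Dir.perp d t = true → Perp3 d t (Dir.cross d t) ∧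
    Perp3 d t (Dir.cross d t).neg := by decide

theorem perp3_cases : ∀ d t l : Dir, Perp3 d t l → l = Dir.cross d t ∨ l = (Dir.cross d t).neg := by
  decide

theorem cross_swap : ∀ d t : Dir, Dir.perp d t = true → Dir.cross t d = (Dir.cross d t).neg := by
  decide

/-- The colour of an edge does not depend on the order of the directions. -/
theorem ecol_comm (χ : (Fin 3 → Bool) → Bool) {d t : Dir} (h : Dir.perp d t = true) :
    ecol χ d t = ecol χ t d := by
  obtain ⟨p1, p2⟩ := perp3_cross _ _ h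
  unfold ecol
  rw [cross_swap _ _ h, Dir.neg_neg, ← cor_comm12 _ _ _ p1, ← cor_comm12 _ _ _ p2]
  by_cases hc : χ (cor d t (Dir.cross d t)) = χ (cor d t (Dir.cross d t).neg)
  · rw [if_pos hc, if_pos hc.symm, hc]
  · rw [if_neg hc, if_neg (fun h => hc h.symm)]

theorem ecol_congr {χ χ' : (Fin 3 → Bool) → Bool} {d t : Dir} (h : Dir.perp d t = true)
    (hc : ∀ l, Perp3 d t l → χ (cor d t l) = χ' (cor d t l)) : ecol χ d t = ecol χ' d t := by
  obtain ⟨p1, p2⟩ := perp3_cross _ _ h
  unfold ecol
  rw [hc _ p1, hc _ p2]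

theorem ecol_some {χ : (Fin 3 → Bool) → Bool} {d t : Dir} {c : Bool} (h : ecol χ d t = some c)
    {l : Dir} (hl : Perp3 d t l) : χ (cor d t l) = c := by
  unfold ecol at h
  split_ifs at h with h1
  have h2 := Option.some.inj h
  rcases perp3_cases _ _ _ hl with rfl | rfl
  · exact h2
  · rw [← h1]; exact h2

theorem ecol_none {χ : (Fin 3 → Bool) → Bool} {d t : Dir} (h : Dir.perp d t = true) :
    ecol χ d t = none ↔ ∃ l, Perp3 d t l ∧ χ (cor d t l) ≠ χ (cor d t l.neg) := by
  obtain ⟨p1, p2⟩ := perp3_cross _ _ h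
  unfold ecol
  constructor
  · intro hh
    split_ifs at hh with h1
    exact ⟨_, p1, h1⟩
  · rintro ⟨l, hl, hne⟩
    rw [if_neg]
    rcases perp3_cases _ _ _ hl with rfl | rfl
    · exact hne
    · rw [Dir.neg_neg] at hne
      exact fun h => hne h.symm

theorem cle_trans : ∀ (c : Option Bool) (a b d : St), cle c a b = true → cle c b d = true →
    cle c a d = true := by decide

/-- Compatible claims are satisfied by compatible states. -/
theorem edgeC_mono : ∀ (c : Option Bool) (a b a' b' : St), edgeC c a b = true →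
    cle c a a' = true → cle c b b' = true → edgeC c a' b' = true := by decide

theorem edgeC_top : ∀ (c : Option Bool) (b : St), edgeC c St.T b = true → b ≠ St.A →
    c = some true := by decide

theorem edgeC_bot : ∀ (c : Option Bool) (b : St), edgeC c St.A b = true → b ≠ St.T →
    c = some false := by decide

theorem stOf_self (n : Dir) : stOf n n = St.T := by
  unfold stOf; rw [if_pos rfl]

theorem stOf_neg : ∀ n : Dir, stOf n n.neg = St.A := by decide

theorem stOf_ne_A : ∀ n t : Dir, n ≠ t.neg → stOf n t ≠ St.A := by decide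

theorem stOf_ne_T : ∀ n t : Dir, n ≠ t → stOf n t ≠ St.T := by decide

theorem stOf_A : ∀ n t : Dir, n = t.neg → stOf n t = St.A := by decide

/-- The corners of an edge have the same colours in `y` and in the face at the edge. -/
theorem chi_el {χ : ι → (Fin 3 → Bool) → Bool} {y : ι} {d t l : Dir}
    (hn : ∀ c, nb y d = some c → χ c (cor d.neg t l) = χ y (cor d t l))
    (hn2 : ∀ c g, nb y d = some c → nb c t = some g → ∀ a b, Perp3 t a b →
      χ c (cor t a b) = χ g (cor t.neg a b)) (h : Perp3 d t l) :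
    χ (el nb y d t).1.1 (cor (el nb y d t).1.2 (el nb y d t).2 l) = χ y (cor d t l) := by
  have key : ∀ d t l : Dir, Perp3 d t l → Perp3 t d.neg l ∧ Perp3 d.neg t.neg l ∧
      Perp3 d.neg t l ∧ Perp3 t.neg d.neg l := by decide
  obtain ⟨k1, k2, k3, k4⟩ := key _ _ _ h
  cases h1 : nb y d with
  | none =>
    have e1 : el nb y d t = ((y, d), t) := by unfold el; rw [h1]
    rw [e1]
  | some c =>
    cases h2 : nb c t with
    | none =>
      have e1 : el nb y d t = ((c, t), d.neg) := by
        unfold el; rw [h1]; simp only; rw [h2]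
      rw [e1]
      simp only
      rw [cor_comm12 _ _ _ k1]
      exact hn c h1
    | some g =>
      have e1 : el nb y d t = ((g, d.neg), t.neg) := by
        unfold el; rw [h1]; simp only; rw [h2]
      rw [e1]
      simp only
      rw [cor_comm12 _ _ _ k2, ← hn2 c g h1 h2 d.neg l k1, cor_comm12 _ _ _ k1]
      exact hn c h1

/-- In a realization the colours at the edges of the side are those of the brick. -/
theorem Realz.chi_el {y : ι} {d : Dir} {st : Dir → St} {N : BF ι → Dir}
    {χ : ι → (Fin 3 → Bool) → Bool} {ρ : BF ι → ℕ} (H : NbOK nb)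
    (R : Realz nb y d st N χ ρ) {t l : Dir} (h : Perp3 d t l) :
    χ (el nb y d t).1.1 (cor (el nb y d t).1.2 (el nb y d t).2 l) = χ y (cor d t l) := by
  have key : ∀ d t l : Dir, Perp3 d t l → Perp3 d.neg t l := by decide
  refine Pool.Agent.Helper69.OT.chi_el ?_ ?_ h
  · intro c hc
    have hyc : y ≠ c := (bgraph_adj_of H hc).ne
    have := R.neck c hc c (self_mem_Br hyc) d.neg y (H.symm _ _ _ hc) t l (key _ _ _ h)
    rwa [Dir.neg_neg] at this
  · intro c g hc hg a b hab
    have hyc : y ≠ c := (bgraph_adj_of H hc).ne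
    exact R.neck c hc c (self_mem_Br hyc) t g hg a b hab

/-- An edge whose ends have different colours is a bichromatic side of the face at the edge. -/
theorem Realz.biSide_el {y : ι} {d : Dir} {st : Dir → St} {N : BF ι → Dir}
    {χ : ι → (Fin 3 → Bool) → Bool} {ρ : BF ι → ℕ} (H : NbOK nb)
    (R : Realz nb y d st N χ ρ) {t : Dir} (h : Dir.perp d t = true)
    (hc : ecol (χ y) d t = none) : BiSide χ (el nb y d t).1 (el nb y d t).2 := by
  obtain ⟨l, hl, hne⟩ := (ecol_none h).1 hc
  have hl' : Perp3 d t l.neg := by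
    have : ∀ d t l : Dir, Perp3 d t l → Perp3 d t l.neg := by decide
    exact this _ _ _ hl
  refine ⟨l, ?_, ?_⟩
  · have key : ∀ d t l : Dir, Perp3 d t l → Perp3 t d.neg l ∧ Perp3 d.neg t.neg l := by decide
    obtain ⟨k1, k2⟩ := key _ _ _ hl
    cases h1 : nb y d with
    | none =>
      have e1 : el nb y d t = ((y, d), t) := by unfold el; rw [h1]
      rw [e1]; exact hl
    | some c =>
      cases h2 : nb c t with
      | none =>
        have e1 : el nb y d t = ((c, t), d.neg) := by
          unfold el; rw [h1]; simp only; rw [h2]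
        rw [e1]; exact k1
      | some g =>
        have e1 : el nb y d t = ((g, d.neg), t.neg) := by
          unfold el; rw [h1]; simp only; rw [h2]
        rw [e1]; exact k2
  · rw [R.chi_el H hl, R.chi_el H hl']
    exact hne

/-- An exposed side. -/
theorem SideReal.exposed (H : NbOK nb) {y : ι} {d n : Dir} {χ0 : (Fin 3 → Bool) → Bool}
    (hd : nb y d = none) (hp : Dir.perp d n = true)
    (hm : ∀ l, Perp3 d n l → χ0 (cor d n.neg l) = true → χ0 (cor d n l) = true) :
    SideReal nb y d χ0 (stOf n) := by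
  have hSF : ∀ A, A ∈ SF nb y d ↔ A = (y, d) := by
    intro A
    constructor
    · rintro (⟨-, h⟩ | ⟨c, h, -⟩)
      · exact h
      · rw [hd] at h; exact absurd h (by simp)
    · intro h; exact Or.inl ⟨hd, h⟩
  have hnot : ∀ t, Dir.perp d t = true → (bnbr nb (y, d) t).1 ∉ SF nb y d := by
    intro t ht hh
    rw [hSF] at hh
    unfold bnbr at hh
    simp only at hh
    cases h1 : nb y t with
    | none =>
      rw [h1] at hh
      have := congrArg Prod.snd hh
      exact (perp_ne _ _ ht).1 this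
    | some j =>
      rw [h1] at hh
      simp only at hh
      cases h2 : nb j d with
      | none =>
        rw [h2] at hh
        have h3 : j = y := congrArg Prod.fst hh
        rw [h3] at h1
        exact H.irrefl _ _ h1
      | some k =>
        rw [h2] at hh
        have h3 : t.neg = d := congrArg Prod.snd hh
        have : ∀ d t : Dir, Dir.perp d t = true → t.neg ≠ d := by decide
        exact this _ _ ht h3
  refine ⟨fun _ => n, fun _ => χ0, fun _ => 0, fun _ _ _ => rfl, ?_, ?_, ?_, ?_, ?_⟩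
  · intro A hA
    rw [hSF] at hA
    subst hA
    exact ⟨hp, hm, fun h => absurd h (hnot _ hp), fun h => absurd h (hnot _
      (perp_neg_right _ _ hp)), fun h => absurd h (hnot _ hp)⟩
  · intro c hc
    rw [hd] at hc; exact absurd hc (by simp)
  · intro t ht
    have e1 : el nb y d t = ((y, d), t) := by unfold el; rw [hd]
    rw [e1]
    have : ∀ (c : Option Bool) (s : St), cle c s s = true := by decide
    exact this _ _
  · intro A hA _ t _ _
    rw [hSF] at hA
    subst hA
    have e1 : el nb y d t = ((y, d), t) := by unfold el; rw [hd]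
    rw [e1]
    exact EqvGen.refl _
  · intro h
    exact absurd hd h

/-- Weaker claims. -/
theorem SideReal.weaken {y : ι} {d : Dir} {χ0 : (Fin 3 → Bool) → Bool} {st st' : Dir → St}
    (h : SideReal nb y d χ0 st)
    (hw : ∀ t, Dir.perp d t = true → cle (ecol χ0 d t) (st' t) (st t) = true) :
    SideReal nb y d χ0 st' := by
  obtain ⟨N, χ, ρ, h1, R⟩ := h
  refine ⟨N, χ, ρ, h1, R.face, R.neck, ?_, R.conn, R.cross⟩
  intro t ht
  have : ecol (χ y) d t = ecol χ0 d t := ecol_congr ht (fun l _ => h1 t l ‹_›)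
  have h2 := hw t ht
  rw [← this] at h2
  exact cle_trans _ _ _ _ h2 (R.clm t ht)

/-- The edge of the face at an edge. -/
theorem el_perp3 (y : ι) {d t l : Dir} :
    Perp3 (el nb y d t).1.2 (el nb y d t).2 l ↔ Perp3 d t l := by
  have key : ∀ d t l : Dir, (Perp3 t d.neg l ↔ Perp3 d t l) ∧
      (Perp3 d.neg t.neg l ↔ Perp3 d t l) := by decide
  obtain ⟨k1, k2⟩ := key d t l
  cases h1 : nb y d with
  | none =>
    have e1 : el nb y d t = ((y, d), t) := by unfold el; rw [h1]
    rw [e1]
  | some c =>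
    cases h2 : nb c t with
    | none =>
      have e1 : el nb y d t = ((c, t), d.neg) := by
        unfold el; rw [h1]; simp only; rw [h2]
      rw [e1]
      exact k1
    | some g =>
      have e1 : el nb y d t = ((g, d.neg), t.neg) := by
        unfold el; rw [h1]; simp only; rw [h2]
      rw [e1]
      exact k2

/-- The faces behind the sides in `q`. -/
def SS (nb : ι → Dir → Option ι) (y : ι) (q : Dir → Prop) : Set (BF ι) :=
  {A | ∃ d, q d ∧ A ∈ SF nb y d}

/-- Adjacency of the sides in `q` across an edge whose ends have different colours. -/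
def SAdj (χ : (Fin 3 → Bool) → Bool) (q : Dir → Prop) (d s : Dir) : Prop :=
  q d ∧ q s ∧ Dir.perp d s = true ∧ ecol χ d s = none

/-- Realizations of the sides in `q` put together. -/
structure Glue (nb : ι → Dir → Option ι) (y : ι) (q : Dir → Prop) (χy : (Fin 3 → Bool) → Bool)
    (χ0 : ι → (Fin 3 → Bool) → Bool) (st : Dir → Dir → St) (N : BF ι → Dir)
    (χ : ι → (Fin 3 → Bool) → Bool) (ρ : BF ι → ℕ) : Prop where
  face : ∀ A ∈ SS nb y q, FaceOK nb N χ ρ (SS nb y q) A
  neck : ∀ d c, q d → nb y d = some c → ∀ i ∈ Br (bgraph nb) y c, ∀ e j, nb i e = some j →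
    ∀ t l, Perp3 e t l → χ i (cor e t l) = χ j (cor e.neg t l)
  root : χ y = χy
  out : ∀ i, i ≠ y → (∀ d c, q d → nb y d = some c → i ∉ Br (bgraph nb) y c) → χ i = χ0 i
  clm : ∀ d t, q d → Dir.perp d t = true →
    cle (ecol χy d t) (st d t) (stOf (N (el nb y d t).1) (el nb y d t).2) = true
  edge : ∀ d A, q d → A ∈ SF nb y d → NonMono χ A →
    ∃ t, Dir.perp d t = true ∧ ecol χy d t = none
  conn : ∀ A ∈ SS nb y q, NonMono χ A → ∀ s t, q s → Dir.perp s t = true → ecol χy s t = none →
    EqvGen (BBiS nb χ (SS nb y q)) A (el nb y s t).1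

theorem FaceOK.perp3 {N : BF ι → Dir} {χ : ι → (Fin 3 → Bool) → Bool} {ρ : BF ι → ℕ}
    {S : Set (BF ι)} {A : BF ι} {l : Dir} (h : Perp3 A.2 (N A) l) : Perp3 A.2 (N A).neg l := by
  have : ∀ d t l : Dir, Perp3 d t l → Perp3 d t.neg l := by decide
  exact this _ _ _ h

theorem perp3_neg2 : ∀ d t l : Dir, Perp3 d t l → Perp3 d t.neg l := by decide

theorem perp3_neg3 : ∀ d t l : Dir, Perp3 d t l → Perp3 d t l.neg := by decide

/-- The sides of a brick put together. -/
theorem exists_glue (H : NbOK nb) (hA : (bgraph nb).IsAcyclic) [Finite ι] {y : ι}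
    {q : Dir → Prop} {χy : (Fin 3 → Bool) → Bool} (χ0 : ι → (Fin 3 → Bool) → Bool)
    {st : Dir → Dir → St} (ord : Dir → ℕ)
    (hs : ∀ d, q d → SideReal nb y d χy (st d))
    (hc : ∀ d s, q d → q s → Dir.perp d s = true →
      edgeC (ecol χy d s) (st d s) (st s d) = true)
    (hf : ∀ d s, q d → q s → Dir.perp d s = true →
      flowC (ecol χy d s) (st d s) (st s d) = true → ord s < ord d)
    (hq : ∀ d s, q d → q s → (∃ t, Dir.perp d t = true ∧ ecol χy d t = none) →
      (∃ t, Dir.perp s t = true ∧ ecol χy s t = none) → EqvGen (SAdj χy q) d s) :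
    ∃ N χ ρ, Glue nb y q χy χ0 st N χ ρ := by
  classical
  have hs' : ∀ d, ∃ N χ ρ, q d → (∀ t l, Perp3 d t l → χ y (cor d t l) = χy (cor d t l)) ∧
      Realz nb y d (st d) N χ ρ := by
    intro d
    by_cases hd : q d
    · obtain ⟨N, χ, ρ, h⟩ := hs d hd
      exact ⟨N, χ, ρ, fun _ => h⟩
    · exact ⟨fun _ => d, fun _ _ => false, fun _ => 0, fun h => absurd h hd⟩
  choose Nd χd ρd hR using hs'
  have hcol : ∀ d, q d → ∀ t l, Perp3 d t l → χd d y (cor d t l) = χy (cor d t l) :=
    fun d hd => (hR d hd).1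
  have R : ∀ d, q d → Realz nb y d (st d) (Nd d) (χd d) (ρd d) := fun d hd => (hR d hd).2
  have hec : ∀ d, q d → ∀ t, Dir.perp d t = true → ecol (χd d y) d t = ecol χy d t :=
    fun d hd t ht => ecol_congr ht (fun l hl => hcol d hd t l hl)
  -- a bound for the ranks
  obtain ⟨M, hM⟩ : ∃ M : ℕ, ∀ d A, ρd d A < M := by
    haveI : Fintype ι := Fintype.ofFinite ι
    refine ⟨(Finset.univ : Finset (Dir × BF ι)).sup (fun x => ρd x.1 x.2) + 1, ?_⟩
    intro d A
    have := Finset.le_sup (f := fun x : Dir × BF ι => ρd x.1 x.2) (Finset.mem_univ (d, A))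
    simp only at this
    omega
  -- the pieces
  let N : BF ι → Dir := fun A =>
    if h : ∃ d, q d ∧ A ∈ SF nb y d then Nd h.choose A else A.2
  let ρ : BF ι → ℕ := fun A =>
    if h : ∃ d, q d ∧ A ∈ SF nb y d then M * ord h.choose + ρd h.choose A else 0
  let χ : ι → (Fin 3 → Bool) → Bool := fun i =>
    if i = y then χy else
      if h : ∃ d, q d ∧ ∃ c, nb y d = some c ∧ i ∈ Br (bgraph nb) y c then χd h.choose i
      else χ0 i
  have hN : ∀ d A, q d → A ∈ SF nb y d → N A = Nd d A := by
    intro d A hd hA'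
    have h : ∃ d, q d ∧ A ∈ SF nb y d := ⟨d, hd, hA'⟩
    have e : h.choose = d := SF_disjoint H hA h.choose_spec.2 hA'
    show (if h : ∃ d, q d ∧ A ∈ SF nb y d then Nd h.choose A else A.2) = _
    rw [dif_pos h, e]
  have hρ : ∀ d A, q d → A ∈ SF nb y d → ρ A = M * ord d + ρd d A := by
    intro d A hd hA'
    have h : ∃ d, q d ∧ A ∈ SF nb y d := ⟨d, hd, hA'⟩
    have e : h.choose = d := SF_disjoint H hA h.choose_spec.2 hA'
    show (if h : ∃ d, q d ∧ A ∈ SF nb y d then M * ord h.choose + ρd h.choose A else 0) = _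
    rw [dif_pos h, e]
  have hχy : χ y = χy := if_pos rfl
  have hχB : ∀ d c i, q d → nb y d = some c → i ∈ Br (bgraph nb) y c → χ i = χd d i := by
    intro d c i hd hc' hi
    have hne : i ≠ y := by
      rintro rfl
      exact not_mem_Br_root hi
    have h : ∃ d, q d ∧ ∃ c, nb y d = some c ∧ i ∈ Br (bgraph nb) y c := ⟨d, hd, c, hc', hi⟩
    have e : h.choose = d := by
      obtain ⟨-, c', h1, h2⟩ := h.choose_spec
      exact Br_disjoint H hA h1 hc' h2 hi
    show (if i = y then χy else
      if h : ∃ d, q d ∧ ∃ c, nb y d = some c ∧ i ∈ Br (bgraph nb) y c then χd h.choose i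
      else χ0 i) = _
    rw [if_neg hne, dif_pos h, e]
  have hχ0 : ∀ i, i ≠ y → (∀ d c, q d → nb y d = some c → i ∉ Br (bgraph nb) y c) →
      χ i = χ0 i := by
    intro i hi h
    show (if i = y then χy else
      if h : ∃ d, q d ∧ ∃ c, nb y d = some c ∧ i ∈ Br (bgraph nb) y c then χd h.choose i
      else χ0 i) = _
    rw [if_neg hi, dif_neg]
    rintro ⟨d, hd, c, hc', hi'⟩
    exact h d c hd hc' hi'
  have hχA : ∀ d A, q d → A ∈ SF nb y d → ∀ t l, Perp3 A.2 t l →
      χ A.1 (cor A.2 t l) = χd d A.1 (cor A.2 t l) := by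
    intro d A hd hA' t l hl
    rcases hA' with ⟨h1, rfl⟩ | ⟨c, h1, h2, h3⟩
    · show χ y (cor d t l) = χd d y (cor d t l)
      rw [hχy]
      exact (hcol d hd t l hl).symm
    · rw [hχB d c A.1 hd h1 h3]
  clear_value N ρ χ
  have hBi : ∀ d A, q d → A ∈ SF nb y d → ∀ t, BiSide χ A t ↔ BiSide (χd d) A t := by
    intro d A hd hA' t
    unfold BiSide
    constructor
    · rintro ⟨l, hl, hne⟩
      refine ⟨l, hl, ?_⟩
      rw [← hχA d A hd hA' t l hl, ← hχA d A hd hA' t _ (perp3_neg3 _ _ _ hl)]
      exact hne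
    · rintro ⟨l, hl, hne⟩
      refine ⟨l, hl, ?_⟩
      rw [hχA d A hd hA' t l hl, hχA d A hd hA' t _ (perp3_neg3 _ _ _ hl)]
      exact hne
  have hNM : ∀ d A, q d → A ∈ SF nb y d → (NonMono χ A ↔ NonMono (χd d) A) := by
    intro d A hd hA'
    unfold NonMono
    simp only [hBi d A hd hA']
  have hSS : ∀ d A, q d → A ∈ SF nb y d → A ∈ SS nb y q := fun d A hd h => ⟨d, hd, h⟩
  -- crossing between two sides
  have hout : ∀ d A t, q d → A ∈ SF nb y d → Dir.perp A.2 t = true →
      (bnbr nb A t).1 ∈ SS nb y q → (bnbr nb A t).1 ∉ SF nb y d →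
      ∃ s, q s ∧ Dir.perp d s = true ∧ el nb y d s = (A, t) ∧ bnbr nb A t = el nb y s d := by
    intro d A t hd hA' ht hin hnot
    obtain ⟨s, hds, hel⟩ := leaving H hA hA' ht hnot
    have hinv := el_inv H y hds
    rw [hel] at hinv
    simp only at hinv
    obtain ⟨d', hd', h'⟩ := hin
    have hm := el_mem_SF H y (perp_symm' _ _ hds)
    rw [hinv] at h'
    have e : d' = s := SF_disjoint H hA h' hm
    subst e
    exact ⟨d', hd', hds, hel, hinv⟩
  have hclm : ∀ d t, q d → Dir.perp d t = true →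
      cle (ecol χy d t) (st d t) (stOf (N (el nb y d t).1) (el nb y d t).2) = true := by
    intro d t hd ht
    have := (R d hd).clm t ht
    rw [hec d hd t ht, ← hN d _ hd (el_mem_SF H y ht)] at this
    exact this
  have hedge : ∀ d s, q d → q s → Dir.perp d s = true →
      edgeC (ecol χy d s) (stOf (N (el nb y d s).1) (el nb y d s).2)
        (stOf (N (el nb y s d).1) (el nb y s d).2) = true := by
    intro d s hd hs1 hds
    have h1 := hclm d s hd hds
    have h2 := hclm s d hs1 (perp_symm' _ _ hds)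
    rw [← ecol_comm _ hds] at h2
    exact edgeC_mono _ _ _ _ _ (hc d s hd hs1 hds) h1 h2
  -- colours at an edge
  have hcorner : ∀ d s A t, q d → Dir.perp d s = true → el nb y d s = (A, t) →
      ∀ l, Perp3 A.2 t l → ∀ c, ecol χy d s = some c → χ A.1 (cor A.2 t l) = c := by
    intro d s A t hd hds hel l hl c hcc
    have hm := el_mem_SF H y hds
    have hl' : Perp3 d s l := by
      rw [← el_perp3 (nb := nb) y, hel]
      exact hl
    have h1 := (R d hd).chi_el H hl'
    rw [hel] at h1 hm
    simp only at h1 hm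
    rw [hχA d A hd hm t l hl, h1, hcol d hd s l hl']
    exact ecol_some hcc hl'
  have hface : ∀ A ∈ SS nb y q, FaceOK nb N χ ρ (SS nb y q) A := by
    rintro A ⟨d, hd, hAd⟩
    have F := (R d hd).face A hAd
    have eN := hN d A hd hAd
    have hperp : Dir.perp A.2 (N A) = true := by rw [eN]; exact F.perp
    refine ⟨hperp, ?_, ?_, ?_, ?_⟩
    · intro l hl h
      rw [hχA d A hd hAd _ l (perp3_neg2 _ _ _ hl), eN] at h
      rw [hχA d A hd hAd _ l hl, eN]
      rw [eN] at hl
      exact F.mono l hl h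
    · intro hin hne l hl
      by_cases hB : (bnbr nb A (N A)).1 ∈ SF nb y d
      · rw [hN d _ hd hB] at hne
        rw [hχA d A hd hAd _ l hl]
        rw [eN] at hB hne hl ⊢
        exact F.top hB hne l hl
      · obtain ⟨s, hqs, hds, hel, hbn⟩ := hout d A (N A) hd hAd hperp hin hB
        have he := hedge d s hd hqs hds
        rw [hel] at he
        simp only at he
        rw [stOf_self, ← hbn] at he
        refine hcorner d s A (N A) hd hds hel l hl true ?_
        exact edgeC_top _ _ he (stOf_ne_A _ _ hne)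
    · intro hin hne l hl
      have hl2 := perp3_neg2 _ _ _ hl
      by_cases hB : (bnbr nb A (N A).neg).1 ∈ SF nb y d
      · rw [hN d _ hd hB] at hne
        rw [hχA d A hd hAd _ l hl2]
        rw [eN] at hB hne hl ⊢
        exact F.bot hB hne l hl
      · obtain ⟨s, hqs, hds, hel, hbn⟩ := hout d A (N A).neg hd hAd
          (perp_neg_right _ _ hperp) hin hB
        have he := hedge d s hd hqs hds
        rw [hel] at he
        simp only at he
        rw [stOf_neg, ← hbn] at he
        refine hcorner d s A (N A).neg hd hds hel l hl2 false ?_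
        exact edgeC_bot _ _ he (stOf_ne_T _ _ hne)
    · intro hin heq
      by_cases hB : (bnbr nb A (N A)).1 ∈ SF nb y d
      · rw [hN d _ hd hB] at heq
        rw [hρ d _ hd hB, hρ d A hd hAd]
        rw [eN] at hB heq ⊢
        have := F.rank hB heq
        omega
      · obtain ⟨s, hqs, hds, hel, hbn⟩ := hout d A (N A) hd hAd hperp hin hB
        have h1 := hclm d s hd hds
        have h2 := hclm s d hqs (perp_symm' _ _ hds)
        rw [← ecol_comm _ hds] at h2
        rw [hel] at h1
        simp only at h1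
        rw [stOf_self] at h1
        rw [← hbn, stOf_A _ _ heq] at h2
        have hfl : flowC (ecol χy d s) (st d s) (st s d) = true := by
          unfold flowC
          rw [h1, h2]
          rfl
        have hlt := hf d s hd hqs hds hfl
        have hBs : (bnbr nb A (N A)).1 ∈ SF nb y s := by
          rw [hbn]
          exact el_mem_SF H y (perp_symm' _ _ hds)
        rw [hρ s _ hqs hBs, hρ d A hd hAd]
        have h3 := hM s (bnbr nb A (N A)).1
        have h4 : M * (ord s + 1) ≤ M * ord d := Nat.mul_le_mul_left _ hlt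
        have h5 : M * (ord s + 1) = M * ord s + M := by ring
        omega
  have hneck : ∀ d c, q d → nb y d = some c → ∀ i ∈ Br (bgraph nb) y c, ∀ e j,
      nb i e = some j → ∀ t l, Perp3 e t l → χ i (cor e t l) = χ j (cor e.neg t l) := by
    intro d c hd hc' i hi e j he t l hl
    rw [hχB d c i hd hc' hi, (R d hd).neck c hc' i hi e j he t l hl]
    by_cases hj : j = y
    · subst hj
      obtain ⟨-, e2⟩ := mem_Br_neighbour H hA hc' hi he
      rw [hχy, e2, Dir.neg_neg]
      refine hcol d hd t l ?_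
      rw [e2] at hl
      have : ∀ d t l : Dir, Perp3 d.neg t l → Perp3 d t l := by decide
      exact this _ _ _ hl
    · rw [hχB d c j hd hc' (mem_Br_step H hi he hj)]
  -- connectivity inside one side
  have hBB : ∀ d, q d → ∀ A B, BBiS nb (χd d) (SF nb y d) A B → BBiS nb χ (SS nb y q) A B := by
    rintro d hd A B ⟨⟨h1, t, h2, h3⟩, h4, h5⟩
    exact ⟨⟨h1, t, (hBi d A hd h4 t).2 h2, h3⟩, hSS d A hd h4, hSS d B hd h5⟩
  have hin1 : ∀ d A, q d → A ∈ SF nb y d → NonMono χ A → ∀ t, Dir.perp d t = true →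
      ecol χy d t = none → EqvGen (BBiS nb χ (SS nb y q)) A (el nb y d t).1 := by
    intro d A hd hAd hm t ht htn
    have h1 := (R d hd).conn A hAd ((hNM d A hd hAd).1 hm) t ht (by rw [hec d hd t ht]; exact htn)
    exact EqvGen.mono (hBB d hd) _ _ h1
  have hbi : ∀ d t, q d → Dir.perp d t = true → ecol χy d t = none →
      BiSide χ (el nb y d t).1 (el nb y d t).2 := by
    intro d t hd ht htn
    rw [hBi d _ hd (el_mem_SF H y ht)]
    exact (R d hd).biSide_el H ht (by rw [hec d hd t ht]; exact htn)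
  have hin2 : ∀ d, q d → ∀ t t', Dir.perp d t = true → ecol χy d t = none →
      Dir.perp d t' = true → ecol χy d t' = none →
      EqvGen (BBiS nb χ (SS nb y q)) (el nb y d t).1 (el nb y d t').1 := by
    intro d hd t t' ht htn ht' htn'
    exact hin1 d _ hd (el_mem_SF H y ht) ⟨_, hbi d t hd ht htn⟩ t' ht' htn'
  have hcross : ∀ d s, q d → q s → Dir.perp d s = true → ecol χy d s = none →
      BBiS nb χ (SS nb y q) (el nb y d s).1 (el nb y s d).1 := by
    intro d s hd hs1 hds hn
    refine ⟨⟨el_isBF H y hds, _, hbi d s hd hds hn, ?_⟩, hSS d _ hd (el_mem_SF H y hds),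
      hSS s _ hs1 (el_mem_SF H y (perp_symm' _ _ hds))⟩
    rw [el_inv H y hds]
  have hE : ∀ d s, EqvGen (SAdj χy q) d s →
      ((q d ∧ ∃ t, Dir.perp d t = true ∧ ecol χy d t = none) ↔
        (q s ∧ ∃ t, Dir.perp s t = true ∧ ecol χy s t = none)) ∧
      (q d → q s → ∀ t t', Dir.perp d t = true → ecol χy d t = none →
        Dir.perp s t' = true → ecol χy s t' = none →
        EqvGen (BBiS nb χ (SS nb y q)) (el nb y d t).1 (el nb y s t').1) := by
    intro d s h
    induction h with
    | rel d s h =>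
      obtain ⟨h1, h2, h3, h4⟩ := h
      have h5 := perp_symm' _ _ h3
      have h6 : ecol χy s d = none := by rw [← ecol_comm _ h3]; exact h4
      refine ⟨⟨fun _ => ⟨h2, d, h5, h6⟩, fun _ => ⟨h1, s, h3, h4⟩⟩, ?_⟩
      intro _ _ t t' ht htn ht' htn'
      exact EqvGen.trans _ _ _ (hin2 d h1 t s ht htn h3 h4)
        (EqvGen.trans _ _ _ (EqvGen.rel _ _ (hcross d s h1 h2 h3 h4))
          (hin2 s h2 d t' h5 h6 ht' htn'))
    | refl d =>
      refine ⟨Iff.rfl, ?_⟩
      intro h1 _ t t' ht htn ht' htn'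
      exact hin2 d h1 t t' ht htn ht' htn'
    | symm d s _ ih =>
      refine ⟨ih.1.symm, ?_⟩
      intro h1 h2 t t' ht htn ht' htn'
      exact EqvGen.symm _ _ (ih.2 h2 h1 t' t ht' htn' ht htn)
    | trans d m s _ _ ih1 ih2 =>
      refine ⟨ih1.1.trans ih2.1, ?_⟩
      intro h1 h2 t t' ht htn ht' htn'
      obtain ⟨h3, r, hr, hrn⟩ := ih1.1.1 ⟨h1, t, ht, htn⟩
      exact EqvGen.trans _ _ _ (ih1.2 h1 h3 t r ht htn hr hrn) (ih2.2 h3 h2 r t' hr hrn ht' htn')
  have hedge' : ∀ d A, q d → A ∈ SF nb y d → NonMono χ A →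
      ∃ t, Dir.perp d t = true ∧ ecol χy d t = none := by
    intro d A hd hAd hm
    by_cases hn : nb y d = none
    · obtain ⟨t, l, hl, hne⟩ := hm
      rcases hAd with ⟨h1, rfl⟩ | ⟨c, h1, h2, h3⟩
      · simp only at hl hne
        rw [hχy] at hne
        exact ⟨t, hl.1, (ecol_none hl.1).2 ⟨l, hl, hne⟩⟩
      · rw [hn] at h1
        exact absurd h1 (by simp)
    · obtain ⟨t, ht, htn⟩ := (R d hd).cross hn
      exact ⟨t, ht, by rw [← hec d hd t ht]; exact htn⟩
  refine ⟨N, χ, ρ, hface, hneck, hχy, hχ0, hclm, hedge', ?_⟩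
  rintro A ⟨d, hd, hAd⟩ hm s t hs1 hst hn
  obtain ⟨t0, ht0, htn0⟩ := hedge' d A hd hAd hm
  exact EqvGen.trans _ _ _ (hin1 d A hd hAd hm t0 ht0 htn0)
    ((hE d s (hq d s hd hs1 ⟨t0, ht0, htn0⟩ ⟨t, hst, hn⟩)).2 hd hs1 t0 t ht0 htn0 hst hn)

/-- Colours of the edges of a neck. -/
theorem ecol_neck {χb χy : (Fin 3 → Bool) → Bool} {u : Dir}
    (hneck : ∀ t l, Perp3 u t l → χb (cor u t l) = χy (cor u.neg t l)) {t : Dir}
    (ht : Dir.perp u t = true) : ecol χb u t = ecol χy t u.neg := by
  have h1 : ecol χy t u.neg = ecol χy u.neg t := ecol_comm _ (perp_neg_right _ _ (perp_symm' _ _ ht))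
  rw [h1]
  obtain ⟨p1, p2⟩ := perp3_cross _ _ ht
  have hcr : ∀ u t : Dir, Dir.perp u t = true → Dir.cross u.neg t = (Dir.cross u t).neg := by decide
  unfold ecol
  rw [hneck _ _ p1, hneck _ _ p2, hcr _ _ ht, Dir.neg_neg]
  by_cases hc : χy (cor u.neg t (Dir.cross u t)) = χy (cor u.neg t (Dir.cross u t).neg)
  · rw [if_pos hc, if_pos hc.symm, hc]
  · rw [if_neg hc, if_neg (fun h => hc h.symm)]

/-- Composition: the side `u` of `b` is realized from the other sides of the brick glued
there. -/
theorem compose (H : NbOK nb) (hA : (bgraph nb).IsAcyclic) [Finite ι] {b y : ι} {u : Dir}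
    (hu : nb b u = some y) {χb χy : (Fin 3 → Bool) → Bool} {st : Dir → Dir → St}
    {out : Dir → St} (ord : Dir → ℕ)
    (hneck : ∀ t l, Perp3 u t l → χb (cor u t l) = χy (cor u.neg t l))
    (hs : ∀ d, d ≠ u.neg → SideReal nb y d χy (st d))
    (hc : ∀ d s, d ≠ u.neg → s ≠ u.neg → Dir.perp d s = true →
      edgeC (ecol χy d s) (st d s) (st s d) = true)
    (hf : ∀ d s, d ≠ u.neg → s ≠ u.neg → Dir.perp d s = true →
      flowC (ecol χy d s) (st d s) (st s d) = true → ord s < ord d)
    (ho : ∀ t, Dir.perp u t = true → cle (ecol χy t u.neg) (out t) (st t u.neg) = true)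
    (hq : ∀ d s, d ≠ u.neg → s ≠ u.neg → (∃ t, Dir.perp d t = true ∧ ecol χy d t = none) →
      (∃ t, Dir.perp s t = true ∧ ecol χy s t = none) →
      EqvGen (SAdj χy (fun x => x ≠ u.neg)) d s)
    (hbi : ∃ t, Dir.perp u t = true ∧ ecol χb u t = none) : SideReal nb b u χb out := by
  have hyb : nb y u.neg = some b := H.symm _ _ _ hu
  have hby : b ≠ y := (bgraph_adj_of H hu).ne
  obtain ⟨N, χ, ρ, G⟩ := exists_glue H hA (q := fun x => x ≠ u.neg) (fun _ => χb) ord hs hc hf hq
  have hSS : SF nb b u = SS nb y (fun x => x ≠ u.neg) := by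
    ext A
    exact SF_child H hA hu
  have hχb : χ b = χb := by
    refine G.out b hby ?_
    intro d c hd hc' hi
    exact hd (Br_disjoint H hA hc' hyb hi (self_mem_Br hby.symm))
  have htu : ∀ t, Dir.perp u t = true → t ≠ u.neg ∧ Dir.perp t u.neg = true := by
    have : ∀ u t : Dir, Dir.perp u t = true → t ≠ u.neg ∧ Dir.perp t u.neg = true := by decide
    exact this u
  refine ⟨N, χ, ρ, ?_, ?_, ?_, ?_, ?_, ?_⟩
  · intro t l _
    rw [hχb]
  · rw [hSS]
    exact G.face
  · intro c hc' i hi e j he t l hl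
    rw [hu] at hc'
    have hcy := Option.some.inj hc'
    subst hcy
    by_cases hiy : i = y
    · subst hiy
      by_cases heu : e = u.neg
      · subst heu
        rw [hyb] at he
        have := Option.some.inj he
        subst this
        rw [G.root, hχb, Dir.neg_neg, hneck t l]
        have : ∀ d t l : Dir, Perp3 d.neg t l → Perp3 d t l := by decide
        exact this _ _ _ hl
      · have hj : i ≠ j := (bgraph_adj_of H he).ne
        have := G.neck e j heu he j (self_mem_Br hj) e.neg i (H.symm _ _ _ he) t l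
          (by
            have : ∀ d t l : Dir, Perp3 d t l → Perp3 d.neg t l := by decide
            exact this _ _ _ hl)
        rw [Dir.neg_neg] at this
        exact this.symm
    · obtain ⟨⟨p, hpath⟩, hp⟩ := exists_path_avoid hi
      obtain ⟨d, c, hd, hc2, hcp⟩ := exists_branch H p hiy hpath
      refine G.neck d c ?_ hd i hc2 e j he t l hl
      rintro rfl
      rw [hyb] at hd
      have := Option.some.inj hd
      subst this
      exact hp hcp
  · intro t ht
    obtain ⟨h1, h2⟩ := htu t ht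
    rw [hχb, ecol_neck hneck ht, el_child H hu ht]
    exact cle_trans _ _ _ _ (ho t ht) (G.clm t u.neg h1 h2)
  · intro A hAu hm t ht htn
    obtain ⟨h1, h2⟩ := htu t ht
    rw [hSS] at hAu ⊢
    rw [hχb, ecol_neck hneck ht] at htn
    rw [el_child H hu ht]
    exact G.conn A hAu hm t u.neg h1 h2 htn
  · intro _
    rw [hχb]
    exact hbi

/-- Closing up: a field on all brick faces from the sides of one brick. -/
theorem close (H : NbOK nb) (hA : (bgraph nb).IsAcyclic) [Finite ι]
    (hcon : (bgraph nb).Preconnected) (y : ι) {χy : (Fin 3 → Bool) → Bool}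
    {st : Dir → Dir → St} (ord : Dir → ℕ)
    (hs : ∀ d, SideReal nb y d χy (st d))
    (hc : ∀ d s, Dir.perp d s = true → edgeC (ecol χy d s) (st d s) (st s d) = true)
    (hf : ∀ d s, Dir.perp d s = true →
      flowC (ecol χy d s) (st d s) (st s d) = true → ord s < ord d)
    (hq : ∀ d s, (∃ t, Dir.perp d t = true ∧ ecol χy d t = none) →
      (∃ t, Dir.perp s t = true ∧ ecol χy s t = none) →
      EqvGen (SAdj χy (fun _ => True)) d s) :
    ∃ N χ ρ, BField nb N χ ρ := by
  obtain ⟨N, χ, ρ, G⟩ := exists_glue H hA (y := y) (q := fun _ => True) (χy := χy) (st := st)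
    (fun _ _ => false) ord (fun d _ => hs d) (fun d s _ _ => hc d s) (fun d s _ _ => hf d s)
    (fun d s _ _ => hq d s)
  have hbr : ∀ i, i ≠ y → ∃ d c, nb y d = some c ∧ i ∈ Br (bgraph nb) y c := by
    intro i hi
    classical
    obtain ⟨w⟩ := hcon y i
    obtain ⟨d, c, h1, h2, -⟩ := exists_branch H w.toPath.1 hi w.toPath.2
    exact ⟨d, c, h1, h2⟩
  have hSS : ∀ A, IsBF nb A → ∃ d, A ∈ SF nb y d := by
    intro A hAb
    by_cases hy : A.1 = y
    · refine ⟨A.2, Or.inl ⟨?_, Prod.ext hy rfl⟩⟩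
      rw [← hy]
      exact hAb
    · obtain ⟨d, c, h1, h2⟩ := hbr A.1 hy
      exact ⟨d, Or.inr ⟨c, h1, hAb, h2⟩⟩
  have hmem : ∀ A, IsBF nb A → A ∈ SS nb y (fun _ => True) := by
    intro A hAb
    obtain ⟨d, hd⟩ := hSS A hAb
    exact ⟨d, trivial, hd⟩
  have F : ∀ A, IsBF nb A → FaceOK nb N χ ρ (SS nb y (fun _ => True)) A :=
    fun A hAb => G.face A (hmem A hAb)
  refine ⟨N, χ, ρ, fun A h => (F A h).perp, ?_, fun A h => (F A h).mono, ?_, ?_, ?_, ?_⟩
  · intro i d j hj t l hl
    by_cases hi : i = y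
    · subst hi
      have hne : i ≠ j := (bgraph_adj_of H hj).ne
      have := G.neck d j trivial hj j (self_mem_Br hne) d.neg i (H.symm _ _ _ hj) t l
        (by
          have : ∀ d t l : Dir, Perp3 d t l → Perp3 d.neg t l := by decide
          exact this _ _ _ hl)
      rw [Dir.neg_neg] at this
      exact this.symm
    · obtain ⟨e, c, h1, h2⟩ := hbr i hi
      exact G.neck e c trivial h1 i h2 d j hj t l hl
  · intro A hAb
    exact (F A hAb).top (hmem _ (H.isBF_bnbr hAb (F A hAb).perp))
  · intro A hAb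
    exact (F A hAb).bot (hmem _ (H.isBF_bnbr hAb (perp_neg_right _ _ (F A hAb).perp)))
  · intro A hAb
    exact (F A hAb).rank (hmem _ (H.isBF_bnbr hAb (F A hAb).perp))
  · intro A B hAb hBb hmA hmB
    obtain ⟨s, hBs⟩ := hSS B hBb
    obtain ⟨t, ht, htn⟩ := G.edge s B trivial hBs hmB
    have h1 := G.conn A (hmem A hAb) hmA s t trivial ht htn
    have h2 := G.conn B (hmem B hBb) hmB s t trivial ht htn
    have h3 := EqvGen.trans _ _ _ h1 (EqvGen.symm _ _ h2)
    exact EqvGen.mono (fun _ _ h => h.1) _ _ h3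

end Pool.Agent.Helper69.OT
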