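import Pool.Agent.Helper84.OT.Rules

/-!
# The curve of unit squares is connected (project OT, MP_409f7f_co)
-/

namespace Pool.Agent.Helper84.OT

open Pool.Agent.Helper17.UF Pool.Agent.Helper84.LD Pool.Agent.Helper69.OT Relation

variable {ι : Type} {lo hi : ι → Cube} {i0 : ι} {N : BF ι → Dir}
  {χ : ι → (Fin 3 → Bool) → Bool} {ρ : BF ι → ℕ}

/-- The east direction of a brick face. -/
def EE (N : BF ι → Dir) (F : BF ι) : Dir := Dir.cross (N F) F.2

/-- The unit square in the south-west corner of a brick face. -/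
noncomputable def A0 (lo hi : ι → Cube) (N : BF ι → Dir) (F : BF ι) : Face := by
  classical
  exact if h : ∃ v, v ∈ brick lo hi F.1 ∧ v + F.2.vec ∉ brick lo hi F.1 ∧
    v + (N F).neg.vec ∉ brick lo hi F.1 ∧ v + (EE N F).neg.vec ∉ brick lo hi F.1
    then (h.choose, F.2) else (0, F.2)

theorem A0_spec (S : BrickSys lo hi) {F : BF ι} (hp : Dir.perp F.2 (N F) = true) :
    InF lo hi (A0 lo hi N F) F ∧ (A0 lo hi N F).1 + (N F).neg.vec ∉ brick lo hi F.1 ∧
    (A0 lo hi N F).1 + (EE N F).neg.vec ∉ brick lo hi F.1 := by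
  have key : ∀ d n : Dir, Dir.perp d n = true → Dir.perp d n.neg = true ∧
      Dir.perp d (Dir.cross n d).neg = true ∧ Dir.perp n.neg (Dir.cross n d).neg = true := by
    decide
  obtain ⟨k1, k2, k3⟩ := key _ _ hp
  have h : ∃ v, v ∈ brick lo hi F.1 ∧ v + F.2.vec ∉ brick lo hi F.1 ∧
      v + (N F).neg.vec ∉ brick lo hi F.1 ∧ v + (EE N F).neg.vec ∉ brick lo hi F.1 := by
    obtain ⟨v, h1, h2, h3, h4⟩ := extremal_exists (S.le F.1) k1 k2 k3
    exact ⟨v, h1, h2, h3, h4⟩
  have e : A0 lo hi N F = (h.choose, F.2) := by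
    unfold A0
    rw [dif_pos h]
  obtain ⟨h1, h2, h3, h4⟩ := h.choose_spec
  rw [e]
  exact ⟨⟨h1, h2, rfl⟩, h3, h4⟩

theorem A0_unique (S : BrickSys lo hi) {A : Face} {F : BF ι} (hp : Dir.perp F.2 (N F) = true)
    (hA : InF lo hi A F) (h1 : A.1 + (N F).neg.vec ∉ brick lo hi F.1)
    (h2 : A.1 + (EE N F).neg.vec ∉ brick lo hi F.1) : A = A0 lo hi N F := by
  have key : ∀ d n : Dir, Dir.perp d n = true → Dir.perp d n.neg = true ∧
      Dir.perp d (Dir.cross n d).neg = true ∧ Dir.perp n.neg (Dir.cross n d).neg = true := by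
    decide
  obtain ⟨k1, k2, k3⟩ := key _ _ hp
  obtain ⟨⟨b1, b2, b3⟩, b4, b5⟩ := A0_spec S hp
  obtain ⟨a1, a2, a3⟩ := hA
  refine Prod.ext ?_ (a3.trans b3.symm)
  rw [a3] at a2
  rw [b3] at b2
  exact extremal_unique a1 b1 k1 k2 k3 a2 h1 h2 b2 b4 b5

variable [Fintype ι]

/-- The four directions of a unit square. -/
theorem dirs (S : BrickSys lo hi) (H : BField (bnb lo hi) N χ ρ) {A : Face} {F : BF ι}
    (hAF : InF lo hi A F) (hF : IsBF (bnb lo hi) F) :
    Perp3 F.2 (N F) (EE N F) ∧ Perp3 F.2 (N F) (EE N F).neg ∧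
      dA true (eu lo hi i0 N) A Hd.N = N F ∧ dA true (eu lo hi i0 N) A Hd.S = (N F).neg ∧
      dA true (eu lo hi i0 N) A Hd.E = EE N F ∧
      dA true (eu lo hi i0 N) A Hd.W = (EE N F).neg := by
  have h5 := H.perp F hF
  have h6 : eu lo hi i0 N A = Dir.cross (N F) F.2 := by
    unfold eu
    rw [FF_eq S hAF, hAF.2.2]
  have h4 := hAF.2.2
  obtain ⟨k1, k2, k3, k4, k5, k6⟩ := frame_dirs _ _ h5
  refine ⟨⟨h5, k5, k6⟩, ?_, ?_, ?_, ?_, ?_⟩
  · exact perp3_flip _ _ _ _ _ ⟨h5, k5, k6⟩ (Or.inl rfl) (Or.inr rfl)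
  · unfold dA; rw [h6, h4]; exact k1
  · unfold dA; rw [h6, h4]; exact k2
  · unfold dA; rw [h6, h4]; exact k3
  · unfold dA; rw [h6, h4]; exact k4

/-- The four corners of a unit square. -/
theorem corners (S : BrickSys lo hi) (H : BField (bnb lo hi) N χ ρ) {A : Face} {F : BF ι}
    (hAF : InF lo hi A F) (hF : IsBF (bnb lo hi) F) :
    kap lo hi i0 N χ A (N F) (EE N F) = χ F.1 (cor F.2 (N F) (EE N F)) ∧
    kap lo hi i0 N χ A (N F) (EE N F).neg =
      χ F.1 (cor F.2 (N F) (ad lo hi N F A.1 (EE N F).neg)) ∧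
    kap lo hi i0 N χ A (N F).neg (EE N F) =
      χ F.1 (cor F.2 (ad lo hi N F A.1 (N F).neg) (EE N F)) ∧
    kap lo hi i0 N χ A (N F).neg (EE N F).neg =
      χ F.1 (cor F.2 (ad lo hi N F A.1 (N F).neg) (ad lo hi N F A.1 (EE N F).neg)) := by
  obtain ⟨p1, p2, -⟩ := dirs (i0 := i0) S H hAF hF
  have hFF : FF lo hi i0 A = F := FF_eq S hAF
  have hd := hAF.2.2
  have hE : ad lo hi N F A.1 (EE N F) = EE N F := by
    refine ad_notSW ?_
    unfold SW EE
    have : ∀ d n : Dir, Dir.perp d n = true →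
        ¬ (Dir.cross n d = n.neg ∨ Dir.cross n d = (Dir.cross n d).neg) := by decide
    exact this _ _ p1.1
  refine ⟨?_, ?_, ?_, ?_⟩
  · rw [kap_N H hFF hF hd p1, hE]
  · rw [kap_N H hFF hF hd p2]
  · rw [kap_S hFF hd p1, hE]
  · rw [kap_S hFF hd p2]

theorem nonMono_iff (S : BrickSys lo hi) (H : BField (bnb lo hi) N χ ρ) {A : Face} {F : BF ι}
    (hAF : InF lo hi A F) (hF : IsBF (bnb lo hi) F) :
    NonMonoC true (eu lo hi i0 N) (kap lo hi i0 N χ) A ↔
      (kap lo hi i0 N χ A (N F) (EE N F) ≠ kap lo hi i0 N χ A (N F) (EE N F).neg ∨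
      kap lo hi i0 N χ A (N F) (EE N F).neg ≠ kap lo hi i0 N χ A (N F).neg (EE N F).neg ∨
      kap lo hi i0 N χ A (N F).neg (EE N F).neg ≠ kap lo hi i0 N χ A (N F).neg (EE N F) ∨
      kap lo hi i0 N χ A (N F).neg (EE N F) ≠ kap lo hi i0 N χ A (N F) (EE N F)) := by
  obtain ⟨-, -, d1, d2, d3, d4⟩ := dirs (i0 := i0) S H hAF hF
  unfold NonMonoC
  constructor
  · rintro ⟨h, hh⟩
    unfold crC at hh
    cases h with
    | N =>
      simp only [Hd.left, Hd.opp] at hh
      rw [d1, d3, d4] at hh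
      exact Or.inl hh.symm
    | W =>
      simp only [Hd.left, Hd.opp] at hh
      rw [d1, d2, d4] at hh
      refine Or.inr (Or.inl ?_)
      rw [kap_comm A (N F), kap_comm A (N F).neg]
      exact hh.symm
    | S =>
      simp only [Hd.left, Hd.opp] at hh
      rw [d2, d3, d4] at hh
      exact Or.inr (Or.inr (Or.inl hh.symm))
    | E =>
      simp only [Hd.left, Hd.opp] at hh
      rw [d1, d2, d3] at hh
      refine Or.inr (Or.inr (Or.inr ?_))
      rw [kap_comm A (N F).neg, kap_comm A (N F)]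
      exact hh.symm
  · rintro (h | h | h | h)
    · refine ⟨Hd.N, ?_⟩
      unfold crC
      simp only [Hd.left, Hd.opp]
      rw [d1, d3, d4]
      exact h.symm
    · refine ⟨Hd.W, ?_⟩
      unfold crC
      simp only [Hd.left, Hd.opp]
      rw [d1, d2, d4, kap_comm A _ (N F), kap_comm A _ (N F).neg]
      exact h.symm
    · refine ⟨Hd.S, ?_⟩
      unfold crC
      simp only [Hd.left, Hd.opp]
      rw [d2, d3, d4]
      exact h.symm
    · refine ⟨Hd.E, ?_⟩
      unfold crC
      simp only [Hd.left, Hd.opp]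
      rw [d1, d2, d3, kap_comm A _ (N F), kap_comm A _ (N F).neg]
      exact h.symm

/-- One step west. -/
theorem step_W (S : BrickSys lo hi) (H : BField (bnb lo hi) N χ ρ) {A : Face} {F : BF ι}
    (hAF : InF lo hi A F) (hF : IsBF (bnb lo hi) F)
    (hm : NonMonoC true (eu lo hi i0 N) (kap lo hi i0 N χ) A)
    (hin : A.1 + (EE N F).neg.vec ∈ brick lo hi F.1) :
    BiC (cubes lo hi) true (eu lo hi i0 N) (kap lo hi i0 N χ) A (A.1 + (EE N F).neg.vec, A.2) ∧
    InF lo hi (A.1 + (EE N F).neg.vec, A.2) F ∧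
    NonMonoC true (eu lo hi i0 N) (kap lo hi i0 N χ) (A.1 + (EE N F).neg.vec, A.2) := by
  obtain ⟨p1, p2, d1, d2, d3, d4⟩ := dirs (i0 := i0) S H hAF hF
  obtain ⟨c1, c2, c3, c4⟩ := corners (i0 := i0) S H hAF hF
  obtain ⟨e1, e2⟩ := nbr_in S hAF hF p2.2.1 hin
  have hSW : SW N F (EE N F).neg := Or.inr rfl
  have ha : ad lo hi N F A.1 (EE N F).neg = EE N F := by
    rw [ad_in hSW hin, Dir.neg_neg]
  rw [ha] at c2 c4
  have hne : kap lo hi i0 N χ A (N F).neg (EE N F) ≠ kap lo hi i0 N χ A (N F) (EE N F) := by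
    rcases (nonMono_iff (i0 := i0) S H hAF hF).1 hm with h | h | h | h
    · exact absurd (c1.trans c2.symm) h
    · rw [c2, c4] at h
      rw [c3, c1]
      exact h.symm
    · exact absurd (c4.trans c3.symm) h
    · exact h
  refine ⟨⟨(isFace_iff S).2 ⟨F, hAF, hF⟩, Hd.W, ?_, ?_⟩, e2, ?_⟩
  · unfold nb
    rw [d4, e1]
  · unfold crC
    simp only [Hd.left, Hd.opp]
    rw [d1, d2, d4, kap_comm A _ (N F), kap_comm A _ (N F).neg, c2, c4]
    rw [c3, c1] at hne
    exact hne
  · obtain ⟨c1', c2', c3', c4'⟩ := corners (i0 := i0) S H e2 hF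
    refine (nonMono_iff (i0 := i0) S H e2 hF).2 (Or.inr (Or.inr (Or.inr ?_)))
    rw [c3', c1']
    have : ad lo hi N F (A.1 + (EE N F).neg.vec) (N F).neg = ad lo hi N F A.1 (N F).neg := by
      refine ad_congr ?_
      have h1 := hAF.1
      have hpp : Dir.perp (EE N F).neg (N F).neg = true := by
        have : ∀ d n l : Dir, Perp3 d n l → Dir.perp l n.neg = true := by decide
        exact this _ _ _ p2
      have : (A.1 + (EE N F).neg.vec + (N F).neg.vec ∈ brick lo hi F.1) ↔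
          (A.1 + (N F).neg.vec ∈ brick lo hi F.1) := by
        unfold brick at *
        exact step_perp h1 hin hpp
      rw [this]
    simp only
    rw [this]
    rw [c3, c1] at hne
    exact hne

/-- One step south at the west boundary. -/
theorem step_S (S : BrickSys lo hi) (H : BField (bnb lo hi) N χ ρ) {A : Face} {F : BF ι}
    (hAF : InF lo hi A F) (hF : IsBF (bnb lo hi) F)
    (hm : NonMonoC true (eu lo hi i0 N) (kap lo hi i0 N χ) A)
    (hout : A.1 + (EE N F).neg.vec ∉ brick lo hi F.1)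
    (hin : A.1 + (N F).neg.vec ∈ brick lo hi F.1) :
    BiC (cubes lo hi) true (eu lo hi i0 N) (kap lo hi i0 N χ) A (A.1 + (N F).neg.vec, A.2) ∧
    InF lo hi (A.1 + (N F).neg.vec, A.2) F ∧
    A.1 + (N F).neg.vec + (EE N F).neg.vec ∉ brick lo hi F.1 ∧
    NonMonoC true (eu lo hi i0 N) (kap lo hi i0 N χ) (A.1 + (N F).neg.vec, A.2) := by
  obtain ⟨p1, p2, d1, d2, d3, d4⟩ := dirs (i0 := i0) S H hAF hF
  obtain ⟨c1, c2, c3, c4⟩ := corners (i0 := i0) S H hAF hF
  have hpn : Dir.perp F.2 (N F).neg = true := by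
    have : ∀ d n l : Dir, Perp3 d n l → Dir.perp d n.neg = true := by decide
    exact this _ _ _ p2
  obtain ⟨e1, e2⟩ := nbr_in S hAF hF hpn hin
  have hSW : SW N F (N F).neg := Or.inl rfl
  have ha : ad lo hi N F A.1 (N F).neg = N F := by
    rw [ad_in hSW hin, Dir.neg_neg]
  have hb : ad lo hi N F A.1 (EE N F).neg = (EE N F).neg := ad_out hout
  rw [ha] at c3 c4
  rw [hb] at c2 c4
  have hne : kap lo hi i0 N χ A (N F) (EE N F) ≠ kap lo hi i0 N χ A (N F) (EE N F).neg := by
    rcases (nonMono_iff (i0 := i0) S H hAF hF).1 hm with h | h | h | h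
    · exact h
    · exact absurd (c2.trans c4.symm) h
    · rw [c4, c3] at h
      rw [c1, c2]
      exact h.symm
    · exact absurd (c3.trans c1.symm) h
  have hpp : Dir.perp (N F).neg (EE N F).neg = true := by
    have : ∀ d n l : Dir, Perp3 d n l → Dir.perp n.neg l = true := by decide
    exact this _ _ _ p2
  have hout' : A.1 + (N F).neg.vec + (EE N F).neg.vec ∉ brick lo hi F.1 := by
    have h1 := hAF.1
    unfold brick at *
    rw [step_perp h1 hin hpp]
    exact hout
  refine ⟨⟨(isFace_iff S).2 ⟨F, hAF, hF⟩, Hd.S, ?_, ?_⟩, e2, hout', ?_⟩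
  · unfold nb
    rw [d2, e1]
  · unfold crC
    simp only [Hd.left, Hd.opp]
    rw [d2, d3, d4, c3, c4]
    rw [c1, c2] at hne
    exact hne
  · obtain ⟨c1', c2', c3', c4'⟩ := corners (i0 := i0) S H e2 hF
    refine (nonMono_iff (i0 := i0) S H e2 hF).2 (Or.inl ?_)
    rw [c1', c2', ad_out hout']
    rw [c1, c2] at hne
    exact hne

/-- Every square of the curve in a brick face is connected to the south-west corner. -/
theorem to_A0 (S : BrickSys lo hi) (H : BField (bnb lo hi) N χ ρ) {F : BF ι}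
    (hF : IsBF (bnb lo hi) F) : ∀ n m : ℕ, ∀ A : Face, InF lo hi A F →
      NonMonoC true (eu lo hi i0 N) (kap lo hi i0 N χ) A →
      (top (lo F.1) (hi F.1) (EE N F).neg - base (EE N F).neg A.1).toNat = n →
      (top (lo F.1) (hi F.1) (N F).neg - base (N F).neg A.1).toNat = m →
      EqvGen (BiC (cubes lo hi) true (eu lo hi i0 N) (kap lo hi i0 N χ)) A (A0 lo hi N F) := by
  intro n
  induction n with
  | zero =>
    intro m
    induction m with
    | zero =>
      intro A hAF hm hn hm'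
      have h1 : A.1 + (EE N F).neg.vec ∉ brick lo hi F.1 := by
        have := hAF.1
        unfold brick at *
        rw [step_mem this]
        omega
      have h2 : A.1 + (N F).neg.vec ∉ brick lo hi F.1 := by
        have := hAF.1
        unfold brick at *
        rw [step_mem this]
        omega
      rw [A0_unique S (H.perp F hF) hAF h2 h1]
      exact EqvGen.refl _
    | succ m ih =>
      intro A hAF hm hn hm'
      have h1 : A.1 + (EE N F).neg.vec ∉ brick lo hi F.1 := by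
        have := hAF.1
        unfold brick at *
        rw [step_mem this]
        omega
      have h2 : A.1 + (N F).neg.vec ∈ brick lo hi F.1 := by
        have := hAF.1
        unfold brick at *
        rw [step_mem this]
        omega
      obtain ⟨q1, q2, q3, q4⟩ := step_S (i0 := i0) S H hAF hF hm h1 h2
      refine EqvGen.trans _ _ _ (EqvGen.rel _ _ q1) (ih _ q2 q4 ?_ ?_)
      · have h3 := q2.1
        change A.1 + (N F).neg.vec ∈ brick lo hi F.1 at h3
        change (top (lo F.1) (hi F.1) (EE N F).neg -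
          base (EE N F).neg (A.1 + (N F).neg.vec)).toNat = 0
        unfold brick at *
        rw [step_mem h3] at q3
        omega
      · have hb : base (N F).neg (A.1 + (N F).neg.vec) = base (N F).neg A.1 + 1 :=
          base_self _ _
        simp only
        omega
  | succ n ih =>
    intro m A hAF hm hn hm'
    have h1 : A.1 + (EE N F).neg.vec ∈ brick lo hi F.1 := by
      have := hAF.1
      unfold brick at *
      rw [step_mem this]
      omega
    obtain ⟨q1, q2, q4⟩ := step_W (i0 := i0) S H hAF hF hm h1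
    refine EqvGen.trans _ _ _ (EqvGen.rel _ _ q1) (ih _ _ q2 q4 ?_ rfl)
    have hb : base (EE N F).neg (A.1 + (EE N F).neg.vec) = base (EE N F).neg A.1 + 1 :=
      base_self _ _
    simp only
    omega

/-- Crossing the east side of a brick face. -/
theorem cross_E (S : BrickSys lo hi) (hE : EdgeOK (cubes lo hi))
    (H : BField (bnb lo hi) N χ ρ) {F : BF ι} (hF : IsBF (bnb lo hi) F)
    (hne : χ F.1 (cor F.2 (EE N F) (N F)) ≠ χ F.1 (cor F.2 (EE N F) (N F).neg)) :
    IsBF (bnb lo hi) (bnbr (bnb lo hi) F (EE N F)).1 ∧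
    EqvGen (BiC (cubes lo hi) true (eu lo hi i0 N) (kap lo hi i0 N χ)) (A0 lo hi N F)
      (A0 lo hi N (bnbr (bnb lo hi) F (EE N F)).1) := by
  have hp := H.perp F hF
  have key : ∀ d n : Dir, Dir.perp d n = true → Dir.perp d (Dir.cross n d) = true ∧
      Dir.perp d n.neg = true ∧ Dir.perp (Dir.cross n d) n.neg = true ∧
      Perp3 d (Dir.cross n d) n ∧ Perp3 d (Dir.cross n d) n.neg := by decide
  obtain ⟨k1, k2, k3, k4, k5⟩ := key _ _ hp
  change Dir.perp F.2 (EE N F) = true at k1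
  change Dir.perp (EE N F) (N F).neg = true at k3
  change Perp3 F.2 (EE N F) (N F) at k4
  change Perp3 F.2 (EE N F) (N F).neg at k5
  obtain ⟨v, h1, h2, h3, h4⟩ := extremal_exists (S.le F.1) k1 k2 k3
  have hAF : InF lo hi (v, F.2) F := ⟨h1, h2, rfl⟩
  obtain ⟨p1, p2, d1, d2, d3, d4⟩ := dirs (i0 := i0) S H hAF hF
  obtain ⟨c1, c2, c3, c4⟩ := corners (i0 := i0) S H hAF hF
  have hS : ad lo hi N F v (N F).neg = (N F).neg := ad_out h4
  simp only at c3
  rw [hS] at c3
  have hne' : kap lo hi i0 N χ (v, F.2) (N F).neg (EE N F) ≠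
      kap lo hi i0 N χ (v, F.2) (N F) (EE N F) := by
    rw [c3, c1]
    rw [cor_swap _ _ _ k4, cor_swap _ _ _ k5] at hne
    exact hne.symm
  have hm : NonMonoC true (eu lo hi i0 N) (kap lo hi i0 N χ) (v, F.2) :=
    (nonMono_iff (i0 := i0) S H hAF hF).2 (Or.inr (Or.inr (Or.inr hne')))
  obtain ⟨e1, e2, e3, e4, e5⟩ := nbr_out S hE hAF hF k1 h3
  refine ⟨e2, ?_⟩
  have hN := bi_lateral (bnb_symm S) H hF e2 k4 hne
  have hfr := bi_frame (bnb_symm S) H hF e2 k4 hne
  set G := (bnbr (bnb lo hi) F (EE N F)).1 with hG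
  have hback := hfr.2.2.2.1 rfl
  have hB : (nbr (cubes lo hi) (v, F.2) (EE N F)).1 = A0 lo hi N G := by
    refine A0_unique S (H.perp G e2) e1 ?_ ?_
    · have := e5 (N F).neg k2 k3
      change N G = N F at hN
      rw [hN, this]
      exact h4
    · have hb : (bnbr (bnb lo hi) F (EE N F)).2 = (EE N G).neg := hback
      rw [← hb]
      exact e4
  have hBi : BiC (cubes lo hi) true (eu lo hi i0 N) (kap lo hi i0 N χ) (v, F.2)
      (A0 lo hi N G) := by
    refine ⟨(isFace_iff S).2 ⟨F, hAF, hF⟩, Hd.E, ?_, ?_⟩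
    · unfold nb
      rw [d3, hB]
    · unfold crC
      simp only [Hd.left, Hd.opp]
      rw [d1, d2, d3, kap_comm (v, F.2) _ (N F), kap_comm (v, F.2) _ (N F).neg]
      exact hne'.symm
  exact EqvGen.trans _ _ _ (EqvGen.symm _ _ (to_A0 S H hF _ _ _ hAF hm rfl rfl))
    (EqvGen.rel _ _ hBi)

/-- Crossing the north side of a brick face. -/
theorem cross_N (S : BrickSys lo hi) (hE : EdgeOK (cubes lo hi))
    (H : BField (bnb lo hi) N χ ρ) {F : BF ι} (hF : IsBF (bnb lo hi) F)
    (hne : χ F.1 (cor F.2 (N F) (EE N F)) ≠ χ F.1 (cor F.2 (N F) (EE N F).neg)) :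
    IsBF (bnb lo hi) (bnbr (bnb lo hi) F (N F)).1 ∧
    EqvGen (BiC (cubes lo hi) true (eu lo hi i0 N) (kap lo hi i0 N χ)) (A0 lo hi N F)
      (A0 lo hi N (bnbr (bnb lo hi) F (N F)).1) := by
  have hp := H.perp F hF
  have key : ∀ d n : Dir, Dir.perp d n = true → Dir.perp d (Dir.cross n d).neg = true ∧
      Dir.perp n (Dir.cross n d).neg = true ∧ Perp3 d n (Dir.cross n d) ∧
      Perp3 d n (Dir.cross n d).neg := by decide
  obtain ⟨k1, k3, k4, k5⟩ := key _ _ hp
  change Dir.perp F.2 (EE N F).neg = true at k1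
  change Dir.perp (N F) (EE N F).neg = true at k3
  change Perp3 F.2 (N F) (EE N F) at k4
  change Perp3 F.2 (N F) (EE N F).neg at k5
  obtain ⟨v, h1, h2, h3, h4⟩ := extremal_exists (S.le F.1) hp k1 k3
  have hAF : InF lo hi (v, F.2) F := ⟨h1, h2, rfl⟩
  obtain ⟨p1, p2, d1, d2, d3, d4⟩ := dirs (i0 := i0) S H hAF hF
  obtain ⟨c1, c2, c3, c4⟩ := corners (i0 := i0) S H hAF hF
  have hW : ad lo hi N F v (EE N F).neg = (EE N F).neg := ad_out h4
  simp only at c2
  rw [hW] at c2
  have hne' : kap lo hi i0 N χ (v, F.2) (N F) (EE N F) ≠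
      kap lo hi i0 N χ (v, F.2) (N F) (EE N F).neg := by
    rw [c2, c1]
    exact hne
  have hm : NonMonoC true (eu lo hi i0 N) (kap lo hi i0 N χ) (v, F.2) :=
    (nonMono_iff (i0 := i0) S H hAF hF).2 (Or.inl hne')
  obtain ⟨e1, e2, e3, e4, e5⟩ := nbr_out S hE hAF hF hp h3
  refine ⟨e2, ?_⟩
  have hfr := bi_frame (bnb_symm S) H hF e2 k4 hne
  have hcr := (cross_bnbr (nb := bnb lo hi) F hp).1
  set G := (bnbr (bnb lo hi) F (N F)).1 with hG
  have hNG := hfr.2.1 rfl
  have hEE : EE N G = EE N F := by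
    unfold EE
    rw [hNG]
    exact hcr
  have hB : (nbr (cubes lo hi) (v, F.2) (N F)).1 = A0 lo hi N G := by
    refine A0_unique S (H.perp G e2) e1 ?_ ?_
    · rw [hNG, Dir.neg_neg]
      exact e4
    · rw [hEE, e5 _ k1 k3]
      exact h4
  have hBi : BiC (cubes lo hi) true (eu lo hi i0 N) (kap lo hi i0 N χ) (v, F.2)
      (A0 lo hi N G) := by
    refine ⟨(isFace_iff S).2 ⟨F, hAF, hF⟩, Hd.N, ?_, ?_⟩
    · unfold nb
      rw [d1, hB]
    · unfold crC
      simp only [Hd.left, Hd.opp]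
      rw [d1, d3, d4]
      exact hne'.symm
  exact EqvGen.trans _ _ _ (EqvGen.symm _ _ (to_A0 S H hF _ _ _ hAF hm rfl rfl))
    (EqvGen.rel _ _ hBi)

/-- Crossing any bichromatic side. -/
theorem cross_any (S : BrickSys lo hi) (hE : EdgeOK (cubes lo hi))
    (H : BField (bnb lo hi) N χ ρ) {F G : BF ι} (h : BBi (bnb lo hi) χ F G) :
    EqvGen (BiC (cubes lo hi) true (eu lo hi i0 N) (kap lo hi i0 N χ)) (A0 lo hi N F)
      (A0 lo hi N G) := by
  obtain ⟨hF, t, ⟨l, hl, hne⟩, rfl⟩ := h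
  have hp := H.perp F hF
  -- the neighbour is a brick face
  obtain ⟨v, w1, w2, w3, -⟩ := extremal_exists (S.le F.1) hl.1 hl.2.1 hl.2.2
  have hAF : InF lo hi (v, F.2) F := ⟨w1, w2, rfl⟩
  obtain ⟨e1, e2, e3, e4, e5⟩ := nbr_out S hE hAF hF hl.1 w3
  have hinv := bnbr_bnbr (bnb_symm S) (t := t) hF
  -- the same side seen from the neighbour
  have hl' : Perp3 F.2 t l.neg := perp3_flip _ _ _ _ _ hl (Or.inl rfl) (Or.inr rfl)
  have x1 := chi_bnbr H.neck F hl
  have x2 := chi_bnbr H.neck F hl'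
  have q1 := perp_bnbr (nb := bnb lo hi) F hl
  have hfr := bi_frame (bnb_symm S) H hF e2 hl hne
  have hlat : ∀ d n t l : Dir, Dir.perp d n = true → Perp3 d t l →
      (t = n ∨ t = n.neg → l = Dir.cross n d ∨ l = (Dir.cross n d).neg) ∧
      (t = Dir.cross n d ∨ t = (Dir.cross n d).neg → l = n ∨ l = n.neg) := by decide
  rcases frame_cases F.2 (N F) t hp hl.1 with ht | ht | ht | ht
  · subst ht
    have hl2 := (hlat _ _ _ _ hp hl).1 (Or.inl rfl)
    refine (cross_N S hE H hF ?_).2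
    rcases hl2 with hl2 | hl2
    · rw [hl2] at hne
      exact hne
    · rw [hl2, Dir.neg_neg] at hne
      exact hne.symm
  · -- south: seen from the other side it is a north side
    have hb := hfr.2.2.1 ht
    rw [← hb] at x1 x2 q1 hinv
    have hl2 := (hlat _ _ _ _ (H.perp _ e2) q1).1 (Or.inl rfl)
    have := (cross_N (i0 := i0) S hE H e2 (by
      rw [← x1, ← x2] at hne
      rcases hl2 with hl2 | hl2
      · rw [hl2] at hne
        exact hne
      · rw [hl2, Dir.neg_neg] at hne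
        exact hne.symm)).2
    rw [hinv] at this
    exact EqvGen.symm _ _ this
  · have ht' : t = EE N F := ht
    subst ht'
    have hl2 := (hlat _ _ _ _ hp hl).2 (Or.inl rfl)
    refine (cross_E S hE H hF ?_).2
    rcases hl2 with hl2 | hl2
    · rw [hl2] at hne
      exact hne
    · rw [hl2, Dir.neg_neg] at hne
      exact hne.symm
  · -- west: seen from the other side it is an east side
    have hb := hfr.2.2.2.2 ht
    rw [hb] at x1 x2 q1 hinv
    have hl2 := (hlat _ _ _ _ (H.perp _ e2) q1).2 (Or.inl rfl)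
    have := (cross_E (i0 := i0) S hE H e2 (by
      rw [← x1, ← x2] at hne
      rcases hl2 with hl2 | hl2
      · rw [hl2] at hne
        exact hne
      · rw [hl2, Dir.neg_neg] at hne
        exact hne.symm)).2
    change EqvGen _ _ (A0 lo hi N (bnbr (bnb lo hi) (bnbr (bnb lo hi) F t).1
      (Dir.cross (N (bnbr (bnb lo hi) F t).1) (bnbr (bnb lo hi) F t).1.2)).1) at this
    rw [hinv] at this
    exact EqvGen.symm _ _ this

/-- A brick face that contains a square of the curve has a bichromatic side. -/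
theorem biSide_of_nonMono (S : BrickSys lo hi) (H : BField (bnb lo hi) N χ ρ) {A : Face}
    {F : BF ι} (hAF : InF lo hi A F) (hF : IsBF (bnb lo hi) F)
    (hm : NonMonoC true (eu lo hi i0 N) (kap lo hi i0 N χ) A) : ∃ t, BiSide χ F t := by
  by_contra hc
  push Not at hc
  have hc' : ∀ t l, Perp3 F.2 t l → χ F.1 (cor F.2 t l) = χ F.1 (cor F.2 t l.neg) := by
    intro t l hl
    by_contra hh
    exact hc t ⟨l, hl, hh⟩
  obtain ⟨p1, p2, -⟩ := dirs (i0 := i0) S H hAF hF
  obtain ⟨c1, c2, c3, c4⟩ := corners (i0 := i0) S H hAF hF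
  have key : ∀ d n l : Dir, Perp3 d n l → Perp3 d n.neg l ∧ Perp3 d l n ∧ Perp3 d n l.neg ∧
    Perp3 d n.neg l.neg := by decide
  obtain ⟨k1, k2, k3, k4⟩ := key _ _ _ p1
  have a1 := hc' _ _ p1
  have a2 := hc' _ _ k1
  have a3 := hc' _ _ k2
  rw [cor_swap _ _ _ k2, cor_swap _ _ _ (perp3_comm _ _ _ k1)] at a3
  have all : ∀ t l, (t = N F ∨ t = (N F).neg) → (l = EE N F ∨ l = (EE N F).neg) →
      χ F.1 (cor F.2 t l) = χ F.1 (cor F.2 (N F) (EE N F)) := by
    rintro t l (rfl | rfl) (rfl | rfl)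
    · rfl
    · exact a1.symm
    · exact a3.symm
    · exact a2.symm.trans a3.symm
  have hW := ad_cases lo hi N F A.1 (EE N F).neg
  rw [Dir.neg_neg] at hW
  have hS := ad_cases lo hi N F A.1 (N F).neg
  rw [Dir.neg_neg] at hS
  have b2 := c2.trans (all _ _ (Or.inl rfl) hW.symm)
  have b3 := c3.trans (all _ _ hS.symm (Or.inl rfl))
  have b4 := c4.trans (all _ _ hS.symm hW.symm)
  rcases (nonMono_iff (i0 := i0) S H hAF hF).1 hm with h | h | h | h
  · exact h (c1.trans b2.symm)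
  · exact h (b2.trans b4.symm)
  · exact h (b4.trans b3.symm)
  · exact h (b3.trans c1.symm)

/-- The squares of the curve are connected. -/
theorem unit_conn (S : BrickSys lo hi) (hE : EdgeOK (cubes lo hi))
    (H : BField (bnb lo hi) N χ ρ) : ∀ A B, IsFace (cubes lo hi) A → IsFace (cubes lo hi) B →
      NonMonoC true (eu lo hi i0 N) (kap lo hi i0 N χ) A →
      NonMonoC true (eu lo hi i0 N) (kap lo hi i0 N χ) B →
      EqvGen (BiC (cubes lo hi) true (eu lo hi i0 N) (kap lo hi i0 N χ)) A B := by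
  intro A B hA hB hmA hmB
  obtain ⟨F, hAF, hF⟩ := (isFace_iff S).1 hA
  obtain ⟨G, hBG, hG⟩ := (isFace_iff S).1 hB
  have h1 := to_A0 S H hF _ _ A hAF hmA rfl rfl
  have h2 := to_A0 S H hG _ _ B hBG hmB rfl rfl
  have h3 := H.conn F G hF hG (biSide_of_nonMono S H hAF hF hmA)
    (biSide_of_nonMono S H hBG hG hmB)
  have h4 : EqvGen (BiC (cubes lo hi) true (eu lo hi i0 N) (kap lo hi i0 N χ))
      (A0 lo hi N F) (A0 lo hi N G) := by
    clear h1 h2 hF hG hAF hBG
    induction h3 with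
    | rel _ _ h => exact cross_any S hE H h
    | refl => exact EqvGen.refl _
    | symm _ _ _ ih => exact EqvGen.symm _ _ ih
    | trans _ _ _ _ _ ih1 ih2 => exact EqvGen.trans _ _ _ ih1 ih2
  exact (h1.trans _ _ _ h4).trans _ _ _ (EqvGen.symm _ _ h2)

/-- A closed ladder on the faces of the bricks gives an edge unfolding of the polycube. -/
theorem _root_.Pool.Agent.Helper69.OT.BField.unfolding (S : BrickSys lo hi)
    (hE : EdgeOK (cubes lo hi)) (H : BField (bnb lo hi) N χ ρ) :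
    HasEdgeUnfolding (cubes lo hi) := by
  rcases isEmpty_or_nonempty ι with hι | hι
  · have hno : ∀ A, ¬ IsFace (cubes lo hi) A := by
      intro A hA
      obtain ⟨i, -⟩ := mem_cubes'.1 hA.1
      exact hι.elim i
    refine net_unfolding_E hE (σ := true) (L := ∅) ⟨?_, ?_, ?_, ?_, ?_⟩
    · intro A
      constructor
      · intro hA; exact absurd hA (hno A)
      · rintro ⟨p, hp, -⟩; exact absurd hp (Set.notMem_empty p)
    · intro p hp; exact absurd hp (Set.notMem_empty p)
    · intro p hp; exact absurd hp (Set.notMem_empty p)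
    · intro p hp; exact absurd hp (Set.notMem_empty p)
    · intro p hp; exact absurd hp (Set.notMem_empty p)
  · obtain ⟨i0⟩ := hι
    exact (isFieldC (i0 := i0) S hE H).unfolding hE (unit_conn S hE H)

end Pool.Agent.Helper84.OT
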