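import Pool.Agent.Helper69.OT.Side

/-!
# Edges of a brick and the faces behind its sides (project OT, MP_409f7f_co)
-/

set_option autoImplicit false

namespace Pool.Agent.Helper69.OT

open Pool.Agent.Helper17.UF Relation SimpleGraph

variable {ι : Type} {nb : ι → Dir → Option ι}

theorem perp_symm' : ∀ d t : Dir, Dir.perp d t = true → Dir.perp t d = true := by decide

theorem perp_neg_left : ∀ d t : Dir, Dir.perp d t = true → Dir.perp d.neg t = true := by decide

theorem perp_neg_right : ∀ d t : Dir, Dir.perp d t = true → Dir.perp d t.neg = true := by decide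

theorem perp_ne : ∀ d t : Dir, Dir.perp d t = true → t ≠ d ∧ t ≠ d.neg := by decide

theorem NbOK.symm' (H : NbOK nb) {i j : ι} {d : Dir} (h : nb i d.neg = some j) :
    nb j d = some i := by
  have := H.symm _ _ _ h
  rwa [Dir.neg_neg] at this

/-- Crossing the side of a brick face leads to a brick face. -/
theorem NbOK.isBF_bnbr (H : NbOK nb) {A : BF ι} {t : Dir} (hA : IsBF nb A)
    (ht : Dir.perp A.2 t = true) : IsBF nb (bnbr nb A t).1 := by
  obtain ⟨i, d⟩ := A
  unfold IsBF at hA
  simp only at hA ht
  unfold IsBF bnbr
  simp only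
  cases h1 : nb i t with
  | none => exact h1
  | some j =>
    simp only
    cases h2 : nb j d with
    | none => exact h2
    | some k =>
      simp only
      exact H.good j d t.neg k i (perp_neg_right _ _ ht) h2 (H.symm _ _ _ h1)

/-- The two faces at an edge of a brick. -/
theorem el_inv (H : NbOK nb) (y : ι) {d t : Dir} (h : Dir.perp d t = true) :
    bnbr nb (el nb y d t).1 (el nb y d t).2 = el nb y t d := by
  have ht := perp_symm' _ _ h
  cases h1 : nb y d with
  | none =>
    have e1 : el nb y d t = ((y, d), t) := by unfold el; rw [h1]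
    rw [e1]
    unfold bnbr el
    simp only
    cases h2 : nb y t with
    | none => rfl
    | some j =>
      simp only
      cases h3 : nb j d with
      | none => rfl
      | some k => rfl
  | some c =>
    have hc := H.symm _ _ _ h1
    cases h2 : nb c t with
    | none =>
      have e1 : el nb y d t = ((c, t), d.neg) := by
        unfold el; rw [h1]; simp only; rw [h2]
      rw [e1]
      unfold bnbr el
      simp only
      rw [hc]
      simp only
      cases h3 : nb y t with
      | none =>
        simp only [Dir.neg_neg]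
      | some k =>
        have h4 : nb k d = none := H.good _ _ _ _ _ ht h3 h1
        simp only [Dir.neg_neg, h4]
    | some g =>
      have e1 : el nb y d t = ((g, d.neg), t.neg) := by
        unfold el; rw [h1]; simp only; rw [h2]
      have h3 : nb y t = none :=
        H.good _ _ _ _ _ (perp_neg_left _ _ h) hc h2
      rw [e1]
      unfold bnbr el
      simp only
      rw [H.symm _ _ _ h2, h3]
      simp only
      rw [hc]
      simp only [Dir.neg_neg]

theorem el_isBF (H : NbOK nb) (y : ι) {d t : Dir} (h : Dir.perp d t = true) :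
    IsBF nb (el nb y d t).1 := by
  unfold IsBF
  cases h1 : nb y d with
  | none =>
    have e1 : el nb y d t = ((y, d), t) := by unfold el; rw [h1]
    rw [e1]
    exact h1
  | some c =>
    have hc := H.symm _ _ _ h1
    cases h2 : nb c t with
    | none =>
      have e1 : el nb y d t = ((c, t), d.neg) := by
        unfold el; rw [h1]; simp only; rw [h2]
      rw [e1]
      exact h2
    | some g =>
      have e1 : el nb y d t = ((g, d.neg), t.neg) := by
        unfold el; rw [h1]; simp only; rw [h2]
      rw [e1]
      exact H.good _ _ _ _ _ (perp_symm' _ _ (perp_neg_left _ _ h)) h2 hc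

/-- The edge lies on a side of the face. -/
theorem el_perp (y : ι) {d t : Dir} (h : Dir.perp d t = true) :
    Dir.perp (el nb y d t).1.2 (el nb y d t).2 = true := by
  have key : ∀ d t : Dir, Dir.perp d t = true → Dir.perp t d.neg = true ∧
      Dir.perp d.neg t.neg = true := by decide
  obtain ⟨k1, k2⟩ := key _ _ h
  cases h1 : nb y d with
  | none =>
    have e1 : el nb y d t = ((y, d), t) := by unfold el; rw [h1]
    rw [e1]
    exact h
  | some c =>
    cases h2 : nb c t with
    | none =>
      have e1 : el nb y d t = ((c, t), d.neg) := by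
        unfold el; rw [h1]; simp only; rw [h2]
      rw [e1]
      exact k1
    | some g =>
      have e1 : el nb y d t = ((g, d.neg), t.neg) := by
        unfold el; rw [h1]; simp only; rw [h2]
      rw [e1]
      exact k2

theorem bgraph_adj_of (H : NbOK nb) {i j : ι} {d : Dir} (h : nb i d = some j) :
    (bgraph nb).Adj i j := by
  refine ⟨?_, Or.inl ⟨d, h⟩⟩
  rintro rfl
  exact H.irrefl _ _ h

theorem exists_of_adj (H : NbOK nb) {i j : ι} (h : (bgraph nb).Adj i j) :
    ∃ d, nb i d = some j := by
  obtain ⟨-, ⟨d, hd⟩ | ⟨d, hd⟩⟩ := h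
  · exact ⟨d, hd⟩
  · exact ⟨d.neg, H.symm _ _ _ hd⟩

theorem mem_Br_neighbour (H : NbOK nb) (hA : (bgraph nb).IsAcyclic) {y c i : ι} {d e : Dir}
    (hd : nb y d = some c) (hi : i ∈ Br (bgraph nb) y c) (he : nb i e = some y) :
    i = c ∧ e = d.neg := by
  have h1 : i = c := by
    by_contra hne
    exact not_mem_Br_of_adj hA (bgraph_adj_of H hd)
      (bgraph_adj_of H he).symm (fun h => hne h.symm) hi
  subst h1
  exact ⟨rfl, H.uniq _ _ _ _ he (H.symm _ _ _ hd)⟩

theorem mem_Br_step (H : NbOK nb) {y c i j : ι} {e : Dir} (hi : i ∈ Br (bgraph nb) y c)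
    (he : nb i e = some j) (hj : j ≠ y) : j ∈ Br (bgraph nb) y c :=
  Br_step hi (bgraph_adj_of H he) hj

/-- Branches at different neighbours are disjoint. -/
theorem Br_disjoint (H : NbOK nb) (hA : (bgraph nb).IsAcyclic) {y c c' i : ι} {d d' : Dir}
    (hd : nb y d = some c) (hd' : nb y d' = some c') (hi : i ∈ Br (bgraph nb) y c)
    (hi' : i ∈ Br (bgraph nb) y c') : d = d' := by
  have hcc : c = c' := by
    by_contra hne
    refine not_mem_Br_of_adj hA (bgraph_adj_of H hd) (bgraph_adj_of H hd') hne ?_
    obtain ⟨p, hp⟩ := hi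
    obtain ⟨q, hq⟩ := hi'
    refine ⟨p.append q.reverse, ?_⟩
    intro hm
    rw [Walk.mem_support_append_iff] at hm
    rcases hm with hm | hm
    · exact hp hm
    · rw [Walk.support_reverse, List.mem_reverse] at hm
      exact hq hm
  subst hcc
  exact H.uniq _ _ _ _ hd hd'

theorem el_mem_SF (H : NbOK nb) (y : ι) {d t : Dir} (h : Dir.perp d t = true) :
    (el nb y d t).1 ∈ SF nb y d := by
  cases h1 : nb y d with
  | none =>
    left
    refine ⟨h1, ?_⟩
    unfold el
    rw [h1]
  | some c =>
    right
    refine ⟨c, h1, el_isBF H y h, ?_⟩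
    have hyc : y ≠ c := (bgraph_adj_of H h1).ne
    have hc := H.symm _ _ _ h1
    cases h2 : nb c t with
    | none =>
      have e1 : el nb y d t = ((c, t), d.neg) := by
        unfold el; rw [h1]; simp only; rw [h2]
      rw [e1]
      exact self_mem_Br hyc
    | some g =>
      have e1 : el nb y d t = ((g, d.neg), t.neg) := by
        unfold el; rw [h1]; simp only; rw [h2]
      rw [e1]
      refine mem_Br_step H (self_mem_Br hyc) h2 ?_
      rintro rfl
      have := H.uniq _ _ _ _ hc h2
      exact (perp_ne _ _ h).2 this.symm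

/-- The faces behind different sides are different. -/
theorem SF_disjoint (H : NbOK nb) (hA : (bgraph nb).IsAcyclic) {y : ι} {d e : Dir} {A : BF ι}
    (hd : A ∈ SF nb y d) (he : A ∈ SF nb y e) : d = e := by
  rcases hd with ⟨h1, rfl⟩ | ⟨c, h1, h2, h3⟩
  · rcases he with ⟨g1, g2⟩ | ⟨c', g1, g2, g3⟩
    · exact congrArg Prod.snd g2
    · exact absurd g3 not_mem_Br_root
  · rcases he with ⟨g1, rfl⟩ | ⟨c', g1, g2, g3⟩
    · exact absurd h3 not_mem_Br_root
    · exact Br_disjoint H hA h1 g1 h3 g3

theorem SF_isBF {y : ι} {d : Dir} {A : BF ι} (h : A ∈ SF nb y d) : IsBF nb A := by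
  rcases h with ⟨h1, rfl⟩ | ⟨c, h1, h2, h3⟩
  · exact h1
  · exact h2

/-- Every brick different from `y` in the component of `y` lies in a branch at `y`. -/
theorem exists_branch (H : NbOK nb) {y i : ι} (p : (bgraph nb).Walk y i) (hne : i ≠ y)
    (hp : p.IsPath) : ∃ d c, nb y d = some c ∧ i ∈ Br (bgraph nb) y c ∧ c ∈ p.support := by
  cases p with
  | nil => exact absurd rfl hne
  | cons hadj q =>
    rename_i c
    obtain ⟨d, hd⟩ := exists_of_adj H hadj
    rw [Walk.cons_isPath_iff] at hp
    refine ⟨d, c, hd, ⟨q, hp.2⟩, ?_⟩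
    rw [Walk.support_cons]
    exact List.mem_cons_of_mem _ (Walk.start_mem_support q)

/-- The faces behind a side are the faces behind the other sides of the brick glued there. -/
theorem SF_child (H : NbOK nb) (hA : (bgraph nb).IsAcyclic) {b y : ι} {u : Dir}
    (hu : nb b u = some y) {A : BF ι} :
    A ∈ SF nb b u ↔ ∃ d, d ≠ u.neg ∧ A ∈ SF nb y d := by
  have hyb : nb y u.neg = some b := H.symm _ _ _ hu
  have hby : b ≠ y := (bgraph_adj_of H hu).ne
  constructor
  · rintro (⟨h1, -⟩ | ⟨c, h1, h2, h3⟩)
    · rw [hu] at h1
      exact absurd h1 (by simp)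
    · rw [hu] at h1
      have hc := Option.some.inj h1
      subst hc
      by_cases hy : A.1 = y
      · refine ⟨A.2, ?_, ?_⟩
        · intro he
          unfold IsBF at h2
          rw [hy, he, hyb] at h2
          exact absurd h2 (by simp)
        · left
          unfold IsBF at h2
          rw [hy] at h2
          exact ⟨h2, Prod.ext hy rfl⟩
      · obtain ⟨⟨p, hpath⟩, hp⟩ := exists_path_avoid h3
        obtain ⟨d, c, hd, hc, hcp⟩ := exists_branch H p hy hpath
        refine ⟨d, ?_, Or.inr ⟨c, hd, h2, hc⟩⟩
        rintro rfl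
        rw [hyb] at hd
        have := Option.some.inj hd
        subst this
        exact hp hcp
  · rintro ⟨d, hne, h | ⟨c, h1, h2, h3⟩⟩
    · obtain ⟨h1, rfl⟩ := h
      exact Or.inr ⟨y, hu, h1, self_mem_Br hby⟩
    · refine Or.inr ⟨y, hu, h2, ?_⟩
      have hcb : c ≠ b := by
        rintro rfl
        exact hne (H.uniq _ _ _ _ h1 hyb)
      have hyc := bgraph_adj_of H h1
      obtain ⟨p, hp⟩ := h3
      refine ⟨Walk.cons hyc p, ?_⟩
      intro hm
      rw [Walk.support_cons, List.mem_cons] at hm
      rcases hm with hm | hm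
      · exact hby hm
      · have hb : b ∈ Br (bgraph nb) y c := by
          classical
          refine ⟨p.takeUntil b hm, fun hh => hp ?_⟩
          exact Walk.support_takeUntil_subset_support p hm hh
        exact not_mem_Br_of_adj hA hyc (bgraph_adj_of H hyb) hcb hb

/-- The faces at the edges of a neck. -/
theorem el_child (H : NbOK nb) {b y : ι} {u t : Dir} (hu : nb b u = some y)
    (ht : Dir.perp u t = true) : el nb b u t = el nb y t u.neg := by
  have hyb : nb y u.neg = some b := H.symm _ _ _ hu
  cases h1 : nb y t with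
  | none =>
    unfold el
    rw [hu, h1]
    simp only
    rw [h1]
  | some g =>
    have h2 : nb g u.neg = none :=
      H.good _ _ _ _ _ (perp_symm' _ _ (perp_neg_left _ _ ht)) h1 hyb
    unfold el
    rw [hu, h1]
    simp only
    rw [h1, h2]

/-- Crossing a side out of the faces behind `d` happens at an edge of the brick. -/
theorem leaving (H : NbOK nb) (hA : (bgraph nb).IsAcyclic) {y : ι} {d : Dir} {A : BF ι} {t : Dir}
    (h : A ∈ SF nb y d) (ht : Dir.perp A.2 t = true) (hout : (bnbr nb A t).1 ∉ SF nb y d) :
    ∃ s, Dir.perp d s = true ∧ el nb y d s = (A, t) := by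
  rcases h with ⟨h1, rfl⟩ | ⟨c, h1, h2, h3⟩
  · refine ⟨t, ht, ?_⟩
    unfold el
    rw [h1]
  · have hbf := H.isBF_bnbr h2 ht
    have hnot : (bnbr nb A t).1.1 ∉ Br (bgraph nb) y c := fun hh =>
      hout (Or.inr ⟨c, h1, hbf, hh⟩)
    obtain ⟨i, a⟩ := A
    unfold IsBF at h2
    simp only at h2 h3 ht
    unfold bnbr at hnot
    simp only at hnot
    cases k1 : nb i t with
    | none =>
      rw [k1] at hnot
      exact absurd h3 hnot
    | some j =>
      rw [k1] at hnot
      simp only at hnot
      by_cases hj : j = y
      · subst hj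
        obtain ⟨rfl, rfl⟩ := mem_Br_neighbour H hA h1 h3 k1
        refine ⟨a, ?_, ?_⟩
        · have : ∀ a d : Dir, Dir.perp a d.neg = true → Dir.perp d a = true := by decide
          exact this _ _ ht
        · unfold el
          rw [h1]
          simp only
          rw [h2]
      · have hjB := mem_Br_step H h3 k1 hj
        cases k2 : nb j a with
        | none =>
          rw [k2] at hnot
          exact absurd hjB hnot
        | some k =>
          rw [k2] at hnot
          simp only at hnot
          by_cases hk : k = y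
          · subst hk
            obtain ⟨rfl, rfl⟩ := mem_Br_neighbour H hA h1 hjB k2
            refine ⟨t.neg, ?_, ?_⟩
            · have : ∀ d t : Dir, Dir.perp d.neg t = true → Dir.perp d t.neg = true := by decide
              exact this _ _ ht
            · unfold el
              rw [h1]
              simp only
              rw [H.symm _ _ _ k1]
              simp only [Dir.neg_neg]
          · exact absurd (mem_Br_step H hjB k2 hk) hnot

end Pool.Agent.Helper69.OT
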