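import Pool.Agent.Helper84.OT.Unit

/-!
# Frames of brick faces (project OT, MP_409f7f_co)
-/

namespace Pool.Agent.Helper84.OT

open Pool.Agent.Helper17.UF Pool.Agent.Helper84.LD Pool.Agent.Helper69.OT Relation

variable {ι : Type} {nb : ι → Dir → Option ι} {N : BF ι → Dir}
  {χ : ι → (Fin 3 → Bool) → Bool} {ρ : BF ι → ℕ}

/-- The three cases of the neighbour. -/
theorem bnbr_cases (nb : ι → Dir → Option ι) (i : ι) (d t : Dir) :
    (nb i t = none ∧ bnbr nb (i, d) t = ((i, t), d)) ∨
    (∃ j, nb i t = some j ∧ nb j d = none ∧ bnbr nb (i, d) t = ((j, d), t.neg)) ∨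
    (∃ j k, nb i t = some j ∧ nb j d = some k ∧ bnbr nb (i, d) t = ((k, t.neg), d.neg)) := by
  unfold bnbr
  cases h1 : nb i t with
  | none =>
    left
    exact ⟨rfl, by simp only⟩
  | some j =>
    right
    cases h2 : nb j d with
    | none =>
      left
      exact ⟨j, rfl, h2, by simp only; rw [h2]⟩
    | some k =>
      right
      exact ⟨j, k, rfl, h2, by simp only; rw [h2]⟩

/-- Crossing twice leads back. -/
theorem bnbr_bnbr (hs : ∀ i d j, nb i d = some j → nb j d.neg = some i) {F : BF ι} {t : Dir}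
    (hF : IsBF nb F) : bnbr nb (bnbr nb F t).1 (bnbr nb F t).2 = (F, t) := by
  obtain ⟨i, d⟩ := F
  unfold IsBF at hF
  simp only at hF
  rcases bnbr_cases nb i d t with ⟨h1, e⟩ | ⟨j, h1, h2, e⟩ | ⟨j, k, h1, h2, e⟩
  · rw [e]
    unfold bnbr
    simp only
    rw [hF]
  · rw [e]
    unfold bnbr
    simp only
    rw [hs _ _ _ h1]
    simp only
    rw [hF]
    simp only [Dir.neg_neg]
  · rw [e]
    unfold bnbr
    simp only
    rw [hs _ _ _ h2]
    simp only
    rw [hs _ _ _ h1]
    simp only [Dir.neg_neg]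

/-- The direction along the side. -/
theorem cross_bnbr (F : BF ι) {t : Dir} (ht : Dir.perp F.2 t = true) :
    Dir.cross (bnbr nb F t).2.neg (bnbr nb F t).1.2 = Dir.cross t F.2 ∧
    Dir.cross (bnbr nb F t).2 (bnbr nb F t).1.2 = (Dir.cross t F.2).neg ∧
    Dir.perp (bnbr nb F t).1.2 (bnbr nb F t).2 = true := by
  obtain ⟨i, d⟩ := F
  simp only at ht
  have key : ∀ d t : Dir, Dir.perp d t = true →
      (Dir.cross d.neg t = Dir.cross t d ∧ Dir.cross d t = (Dir.cross t d).neg ∧
        Dir.perp t d = true) ∧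
      (Dir.cross t.neg.neg d = Dir.cross t d ∧ Dir.cross t.neg d = (Dir.cross t d).neg ∧
        Dir.perp d t.neg = true) ∧
      (Dir.cross d.neg.neg t.neg = Dir.cross t d ∧
        Dir.cross d.neg t.neg = (Dir.cross t d).neg ∧ Dir.perp t.neg d.neg = true) := by decide
  obtain ⟨k1, k2, k3⟩ := key d t ht
  rcases bnbr_cases nb i d t with ⟨h1, e⟩ | ⟨j, h1, h2, e⟩ | ⟨j, k, h1, h2, e⟩
  · rw [e]; exact k1
  · rw [e]; exact k2
  · rw [e]; exact k3

/-- Directions perpendicular to the face and the side stay perpendicular. -/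
theorem perp_bnbr (F : BF ι) {t w : Dir} (h : Perp3 F.2 t w) :
    Perp3 (bnbr nb F t).1.2 (bnbr nb F t).2 w := by
  obtain ⟨i, d⟩ := F
  have key : ∀ d t w : Dir, Perp3 d t w → Perp3 t d w ∧ Perp3 d t.neg w ∧
      Perp3 t.neg d.neg w := by decide
  obtain ⟨k1, k2, k3⟩ := key d t w h
  rcases bnbr_cases nb i d t with ⟨h1, e⟩ | ⟨j, h1, h2, e⟩ | ⟨j, k, h1, h2, e⟩
  · rw [e]; exact k1
  · rw [e]; exact k2
  · rw [e]; exact k3

theorem cor_swap : ∀ d t l : Dir, Perp3 d t l → cor d t l = cor d l t := by decide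

theorem cor_swap' : ∀ d t l : Dir, Perp3 d t l → cor d t l = cor t d l := by decide

/-- The corners of a side have the same colours on both sides. -/
theorem chi_bnbr (hneck : ∀ i d j, nb i d = some j → ∀ t l, Perp3 d t l →
    χ i (cor d t l) = χ j (cor d.neg t l)) (F : BF ι) {t w : Dir} (h : Perp3 F.2 t w) :
    χ (bnbr nb F t).1.1 (cor (bnbr nb F t).1.2 (bnbr nb F t).2 w) = χ F.1 (cor F.2 t w) := by
  obtain ⟨i, d⟩ := F
  simp only at h
  have k0 : ∀ d t w : Dir, Perp3 d t w → Perp3 t d w ∧ Perp3 d t.neg w := by decide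
  rcases bnbr_cases nb i d t with ⟨h1, e⟩ | ⟨j, h1, h2, e⟩ | ⟨j, k, h1, h2, e⟩
  · rw [e]
    simp only
    rw [cor_swap' d t w h]
  · rw [e]
    simp only
    rw [cor_swap' d t w h, hneck _ _ _ h1 d w (k0 _ _ _ h).1, cor_swap' d t.neg w (k0 _ _ _ h).2]
  · rw [e]
    simp only
    have p3 : Perp3 t.neg d.neg w := by
      have : ∀ d t w : Dir, Perp3 d t w → Perp3 t.neg d.neg w := by decide
      exact this _ _ _ h
    rw [cor_swap' t.neg d.neg w p3, ← hneck _ _ _ h2 t.neg w (k0 _ _ _ h).2,
      cor_swap' d t w h, hneck _ _ _ h1 d w (k0 _ _ _ h).1, cor_swap' d t.neg w (k0 _ _ _ h).2]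

/-- The directions of a face in its frame. -/
theorem frame_cases : ∀ d n t : Dir, Dir.perp d n = true → Dir.perp d t = true →
    t = n ∨ t = n.neg ∨ t = Dir.cross n d ∨ t = (Dir.cross n d).neg := by decide

/-- A direction points south or west in the frame of the face. -/
def SW (N : BF ι → Dir) (F : BF ι) (w : Dir) : Prop :=
  w = (N F).neg ∨ w = (Dir.cross (N F) F.2).neg

/-- Across a bichromatic lateral side the direction of the columns does not change. -/
theorem bi_lateral (hs : ∀ i d j, nb i d = some j → nb j d.neg = some i)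
    (H : BField nb N χ ρ) {F : BF ι} {t : Dir} (hF : IsBF nb F)
    (hG : IsBF nb (bnbr nb F t).1) (h : Perp3 F.2 t (N F))
    (hne : χ F.1 (cor F.2 t (N F)) ≠ χ F.1 (cor F.2 t (N F).neg)) :
    N (bnbr nb F t).1 = N F := by
  have hpF := H.perp F hF
  have hpG := H.perp _ hG
  obtain ⟨c1, c2, c3⟩ := cross_bnbr (nb := nb) F h.1
  have hP3n : Perp3 F.2 t (N F).neg := by
    have : ∀ d t w : Dir, Perp3 d t w → Perp3 d t w.neg := by decide
    exact this _ _ _ h
  have x1 := chi_bnbr H.neck F h
  have x2 := chi_bnbr H.neck F hP3n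
  have hPG := perp_bnbr (nb := nb) F h
  have hPGn := perp_bnbr (nb := nb) F hP3n
  have hinv := bnbr_bnbr hs (t := t) hF
  set G := (bnbr nb F t).1 with hGdef
  set b := (bnbr nb F t).2 with hbdef
  have q1 : ∀ d t n : Dir, Perp3 d t n → n ≠ t.neg ∧ n ≠ t := by decide
  obtain ⟨q1, q2⟩ := q1 _ _ _ h
  have hb1 : b ≠ N G := by
    intro hb
    have hc : N (bnbr nb G (N G)).1 ≠ (bnbr nb G (N G)).2.neg := by
      rw [← hb, hinv]
      exact q1
    have y1 := H.top G hG hc (N F) (by rw [← hb]; exact hPG)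
    have y2 := H.top G hG hc (N F).neg (by rw [← hb]; exact hPGn)
    rw [← hb, x1] at y1
    rw [← hb, x2] at y2
    exact hne (y1.trans y2.symm)
  have hb2 : b ≠ (N G).neg := by
    intro hb
    have hc : N (bnbr nb G (N G).neg).1 ≠ (bnbr nb G (N G).neg).2 := by
      rw [← hb, hinv]
      exact q2
    have q : ∀ d n b w : Dir, b = n.neg → Perp3 d b w → Perp3 d n w := by decide
    have y1 := H.bot G hG hc (N F) (q _ _ _ _ hb hPG)
    have y2 := H.bot G hG hc (N F).neg (q _ _ _ _ hb hPGn)
    rw [← hb, x1] at y1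
    rw [← hb, x2] at y2
    exact hne (y1.trans y2.symm)
  have hpar : ∀ g n b w : Dir, Dir.perp g n = true → Perp3 g b w → b ≠ n → b ≠ n.neg →
      n = w ∨ n = w.neg := by decide
  rcases hpar _ _ _ _ hpG hPG hb1 hb2 with h1 | h1
  · exact h1
  · exfalso
    have q3 : ∀ d t n : Dir, Perp3 d t n → Perp3 d n t := by decide
    have q4 : ∀ d t n : Dir, Perp3 d t n → Perp3 d n.neg t := by decide
    have m1 := H.mono F hF t (q3 _ _ _ h)
    have m2 := H.mono G hG b (by rw [h1]; exact q4 _ _ _ hPG)
    rw [h1, Dir.neg_neg, ← cor_swap _ _ _ hPG, ← cor_swap _ _ _ hPGn, x1, x2] at m2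
    rw [← cor_swap _ _ _ h, ← cor_swap _ _ _ hP3n] at m1
    cases z1 : χ F.1 (cor F.2 t (N F)) with
    | true =>
      exact hne (z1.trans (m2 z1).symm)
    | false =>
      cases z2 : χ F.1 (cor F.2 t (N F).neg) with
      | true =>
        have := m1 z2
        rw [z1] at this
        exact absurd this (by decide)
      | false => exact hne (z1.trans z2.symm)

/-- Across a bichromatic side the frames agree. -/
theorem bi_frame (hs : ∀ i d j, nb i d = some j → nb j d.neg = some i)
    (H : BField nb N χ ρ) {F : BF ι} {t w : Dir} (hF : IsBF nb F)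
    (hG : IsBF nb (bnbr nb F t).1) (h : Perp3 F.2 t w)
    (hne : χ F.1 (cor F.2 t w) ≠ χ F.1 (cor F.2 t w.neg)) :
    (SW N F w ↔ SW N (bnbr nb F t).1 w) ∧
    (t = N F → N (bnbr nb F t).1 = (bnbr nb F t).2.neg) ∧
    (t = (N F).neg → N (bnbr nb F t).1 = (bnbr nb F t).2) ∧
    (t = Dir.cross (N F) F.2 → (bnbr nb F t).2 =
      (Dir.cross (N (bnbr nb F t).1) (bnbr nb F t).1.2).neg) ∧
    (t = (Dir.cross (N F) F.2).neg → (bnbr nb F t).2 =
      Dir.cross (N (bnbr nb F t).1) (bnbr nb F t).1.2) := by
  obtain ⟨h1, h2, h3⟩ := h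
  have hpF := H.perp F hF
  have hpG := H.perp _ hG
  obtain ⟨c1, c2, c3⟩ := cross_bnbr (nb := nb) F h1
  have hP3 : Perp3 F.2 t w := ⟨h1, h2, h3⟩
  have hP3n : Perp3 F.2 t w.neg := by
    have : ∀ d t w : Dir, Perp3 d t w → Perp3 d t w.neg := by decide
    exact this _ _ _ hP3
  have x1 := chi_bnbr H.neck F hP3
  have x2 := chi_bnbr H.neck F hP3n
  have hPG := perp_bnbr (nb := nb) F hP3
  have hPGn := perp_bnbr (nb := nb) F hP3n
  have hinv := bnbr_bnbr hs (t := t) hF
  set G := (bnbr nb F t).1 with hGdef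
  set b := (bnbr nb F t).2 with hbdef
  rcases frame_cases F.2 (N F) t hpF h1 with ht | ht | ht | ht
  · -- north
    have hcmp : N G = b.neg := by
      by_contra hc
      have hc' : N (bnbr nb F (N F)).1 ≠ (bnbr nb F (N F)).2.neg := by
        rw [← ht]; exact hc
      have y1 := H.top F hF hc' w (by rw [← ht]; exact hP3)
      have y2 := H.top F hF hc' w.neg (by rw [← ht]; exact hP3n)
      rw [← ht] at y1 y2
      exact hne (y1.trans y2.symm)
    have hE : Dir.cross (N G) G.2 = Dir.cross (N F) F.2 := by rw [hcmp, c1, ht]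
    have key : ∀ d n t w : Dir, Dir.perp d n = true → t = n → Perp3 d t w → w ≠ n.neg := by
      decide
    have key2 : ∀ d b w : Dir, Perp3 d b w → w ≠ b.neg.neg := by decide
    refine ⟨?_, fun _ => hcmp, ?_, ?_, ?_⟩
    · unfold SW
      rw [hE]
      constructor
      · rintro (h | h)
        · exact absurd h (key _ _ _ _ hpF ht hP3)
        · exact Or.inr h
      · rintro (h | h)
        · rw [hcmp] at h
          exact absurd h (key2 _ _ _ hPG)
        · exact Or.inr h
    · intro h
      exfalso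
      rw [ht] at h
      have : ∀ n : Dir, n ≠ n.neg := by decide
      exact this _ h
    · intro h
      exfalso
      rw [ht] at h
      have : ∀ d n : Dir, Dir.perp d n = true → n ≠ Dir.cross n d := by decide
      exact this _ _ hpF h
    · intro h
      exfalso
      rw [ht] at h
      have : ∀ d n : Dir, Dir.perp d n = true → n ≠ (Dir.cross n d).neg := by decide
      exact this _ _ hpF h
  · -- south
    have hcmp : N G = b := by
      by_contra hc
      have hc' : N (bnbr nb F (N F).neg).1 ≠ (bnbr nb F (N F).neg).2 := by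
        rw [← ht]; exact hc
      have q : ∀ d n t w : Dir, t = n.neg → Perp3 d t w → Perp3 d n w := by decide
      have y1 := H.bot F hF hc' w (q _ _ _ _ ht hP3)
      have y2 := H.bot F hF hc' w.neg (q _ _ _ _ ht hP3n)
      rw [← ht] at y1 y2
      exact hne (y1.trans y2.symm)
    have hE : Dir.cross (N G) G.2 = Dir.cross (N F) F.2 := by
      rw [hcmp, c2, ht]
      have : ∀ d n : Dir, Dir.perp d n = true → (Dir.cross n.neg d).neg = Dir.cross n d := by
        decide
      exact this _ _ hpF
    have key : ∀ d n t w : Dir, Dir.perp d n = true → t = n.neg → Perp3 d t w → w ≠ n.neg := by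
      decide
    have key2 : ∀ d b w : Dir, Perp3 d b w → w ≠ b.neg := by decide
    refine ⟨?_, ?_, fun _ => hcmp, ?_, ?_⟩
    · unfold SW
      rw [hE]
      constructor
      · rintro (h | h)
        · exact absurd h (key _ _ _ _ hpF ht hP3)
        · exact Or.inr h
      · rintro (h | h)
        · rw [hcmp] at h
          exact absurd h (key2 _ _ _ hPG)
        · exact Or.inr h
    · intro h
      exfalso
      rw [ht] at h
      have : ∀ n : Dir, n.neg ≠ n := by decide
      exact this _ h
    · intro h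
      exfalso
      rw [ht] at h
      have : ∀ d n : Dir, Dir.perp d n = true → n.neg ≠ Dir.cross n d := by decide
      exact this _ _ hpF h
    · intro h
      exfalso
      rw [ht] at h
      have : ∀ d n : Dir, Dir.perp d n = true → n.neg ≠ (Dir.cross n d).neg := by decide
      exact this _ _ hpF h
  · -- east
    have q : ∀ d n t w : Dir, Dir.perp d n = true → t = Dir.cross n d → Perp3 d t w →
        Perp3 d t n ∧ (w = n ∨ w = n.neg) ∧ Dir.cross t d = n.neg ∧ w ≠ t.neg := by decide
    obtain ⟨q1, q2, q3, q4⟩ := q _ _ _ _ hpF ht hP3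
    have hne' : χ F.1 (cor F.2 t (N F)) ≠ χ F.1 (cor F.2 t (N F).neg) := by
      rcases q2 with q2 | q2
      · rw [← q2]; exact hne
      · intro hh
        apply hne
        rw [q2, Dir.neg_neg]
        exact hh.symm
    have hN := bi_lateral hs H hF hG q1 hne'
    change N G = N F at hN
    have kk : ∀ b g n : Dir, Dir.perp g b = true → Dir.cross b.neg g = n.neg →
        b = (Dir.cross n g).neg := by decide
    have hb : b = (Dir.cross (N G) G.2).neg := by
      refine kk _ _ _ c3 ?_
      rw [c1, q3, hN]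
    refine ⟨?_, ?_, ?_, fun _ => hb, ?_⟩
    · unfold SW
      rw [hN] at hb ⊢
      rw [← hb, ← ht]
      constructor
      · rintro (h | h)
        · exact Or.inl h
        · exact absurd h q4
      · rintro (h | h)
        · exact Or.inl h
        · have : ∀ g b w : Dir, Perp3 g b w → w ≠ b := by decide
          exact absurd h (this _ _ _ hPG)
    · intro h
      exfalso
      rw [ht] at h
      have : ∀ d n : Dir, Dir.perp d n = true → Dir.cross n d ≠ n := by decide
      exact this _ _ hpF h
    · intro h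
      exfalso
      rw [ht] at h
      have : ∀ d n : Dir, Dir.perp d n = true → Dir.cross n d ≠ n.neg := by decide
      exact this _ _ hpF h
    · intro h
      exfalso
      rw [ht] at h
      have : ∀ d : Dir, d ≠ d.neg := by decide
      exact this _ h
  · -- west
    have q : ∀ d n t w : Dir, Dir.perp d n = true → t = (Dir.cross n d).neg → Perp3 d t w →
        Perp3 d t n ∧ (w = n ∨ w = n.neg) ∧ Dir.cross t d = n ∧ w ≠ t := by decide
    obtain ⟨q1, q2, q3, q4⟩ := q _ _ _ _ hpF ht hP3
    have hne' : χ F.1 (cor F.2 t (N F)) ≠ χ F.1 (cor F.2 t (N F).neg) := by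
      rcases q2 with q2 | q2
      · rw [← q2]; exact hne
      · intro hh
        apply hne
        rw [q2, Dir.neg_neg]
        exact hh.symm
    have hN := bi_lateral hs H hF hG q1 hne'
    change N G = N F at hN
    have kk : ∀ b g n : Dir, Dir.perp g b = true → Dir.cross b.neg g = n →
        b = Dir.cross n g := by decide
    have hb : b = Dir.cross (N G) G.2 := by
      refine kk _ _ _ c3 ?_
      rw [c1, q3, hN]
    refine ⟨?_, ?_, ?_, ?_, fun _ => hb⟩
    · unfold SW
      rw [hN] at hb ⊢
      rw [← hb, ← ht]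
      constructor
      · rintro (h | h)
        · exact Or.inl h
        · exact absurd h q4
      · rintro (h | h)
        · exact Or.inl h
        · have : ∀ g b w : Dir, Perp3 g b w → w ≠ b.neg := by decide
          exact absurd h (this _ _ _ hPG)
    · intro h
      exfalso
      rw [ht] at h
      have : ∀ d n : Dir, Dir.perp d n = true → (Dir.cross n d).neg ≠ n := by decide
      exact this _ _ hpF h
    · intro h
      exfalso
      rw [ht] at h
      have : ∀ d n : Dir, Dir.perp d n = true → (Dir.cross n d).neg ≠ n.neg := by decide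
      exact this _ _ hpF h
    · intro h
      exfalso
      rw [ht] at h
      have : ∀ d : Dir, d.neg ≠ d := by decide
      exact this _ h

end Pool.Agent.Helper84.OT
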