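import Pool.Agent.Helper84.LD.ColG
import Pool.Agent.Helper69.OT.Defs

/-!
# Geometry of systems of bricks (project OT, MP_409f7f_co)
-/

namespace Pool.Agent.Helper84.OT

open Pool.Agent.Helper17.UF Pool.Agent.Helper84.LD Pool.Agent.Helper69.OT Relation

/-- The largest coordinate of a box in the direction `t`. -/
def top (a b : Cube) (t : Dir) : ℤ := max (base t a) (base t b)

theorem mem_Icc_iff {a b v : Cube} : v ∈ Finset.Icc a b ↔
    (a.1 ≤ v.1 ∧ v.1 ≤ b.1) ∧ (a.2.1 ≤ v.2.1 ∧ v.2.1 ≤ b.2.1) ∧
    (a.2.2 ≤ v.2.2 ∧ v.2.2 ≤ b.2.2) := by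
  rw [Finset.mem_Icc]
  simp only [Prod.le_def]
  tauto

theorem base_le_top {a b v : Cube} (hv : v ∈ Finset.Icc a b) (t : Dir) :
    base t v ≤ top a b t := by
  rw [mem_Icc_iff] at hv
  unfold top
  cases t <;> simp only [base] <;> omega

theorem step_mem {a b v : Cube} (hv : v ∈ Finset.Icc a b) (t : Dir) :
    v + t.vec ∈ Finset.Icc a b ↔ base t v < top a b t := by
  rw [mem_Icc_iff] at hv ⊢
  obtain ⟨x, y, z⟩ := v
  unfold top
  cases t <;> simp only [base, Dir.vec, Prod.mk_add_mk] at hv ⊢ <;> omega

/-- Stepping in the direction `t` does not change whether a perpendicular step stays inside. -/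
theorem step_perp {a b v : Cube} (hv : v ∈ Finset.Icc a b) {t w : Dir}
    (hv' : v + t.vec ∈ Finset.Icc a b) (h : Dir.perp t w = true) :
    v + t.vec + w.vec ∈ Finset.Icc a b ↔ v + w.vec ∈ Finset.Icc a b := by
  rw [step_mem hv' w, step_mem hv w, base_perp v (by rw [perp_comm]; exact h)]

/-- Two extremal unit cubes of a box in three directions coincide. -/
theorem extremal_unique {a b v v' : Cube} {d t w : Dir} (hv : v ∈ Finset.Icc a b)
    (hv' : v' ∈ Finset.Icc a b) (hdt : Dir.perp d t = true) (hdw : Dir.perp d w = true)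
    (htw : Dir.perp t w = true) (h1 : v + d.vec ∉ Finset.Icc a b)
    (h2 : v + t.vec ∉ Finset.Icc a b) (h3 : v + w.vec ∉ Finset.Icc a b)
    (h1' : v' + d.vec ∉ Finset.Icc a b) (h2' : v' + t.vec ∉ Finset.Icc a b)
    (h3' : v' + w.vec ∉ Finset.Icc a b) : v = v' := by
  have key : ∀ t : Dir, v + t.vec ∉ Finset.Icc a b → v' + t.vec ∉ Finset.Icc a b →
      base t v = base t v' := by
    intro t p q
    rw [step_mem hv] at p
    rw [step_mem hv'] at q
    have c := base_le_top hv t
    have c' := base_le_top hv' t
    omega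
  have k1 := key d h1 h1'
  have k2 := key t h2 h2'
  have k3 := key w h3 h3'
  obtain ⟨x, y, z⟩ := v
  obtain ⟨x', y', z'⟩ := v'
  cases d <;> cases t <;> first
    | (exact absurd hdt (by decide))
    | (cases w <;> first
        | (exact absurd hdw (by decide))
        | (exact absurd htw (by decide))
        | (simp only [base] at k1 k2 k3
           simp only [Prod.mk.injEq]
           omega))

/-- Walking to the boundary in one direction. -/
theorem walk_bd {a b : Cube} (t : Dir) : ∀ (n : ℕ) (v : Cube), v ∈ Finset.Icc a b →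
    (top a b t - base t v).toNat = n → ∃ v' ∈ Finset.Icc a b, v' + t.vec ∉ Finset.Icc a b ∧
      ∀ w : Dir, Dir.perp t w = true → (v' + w.vec ∈ Finset.Icc a b ↔ v + w.vec ∈ Finset.Icc a b)
    := by
  intro n
  induction n with
  | zero =>
    intro v hv hn
    refine ⟨v, hv, ?_, fun w _ => Iff.rfl⟩
    rw [step_mem hv]
    have := base_le_top hv t
    omega
  | succ n ih =>
    intro v hv hn
    have h1 : v + t.vec ∈ Finset.Icc a b := by
      rw [step_mem hv]
      omega
    have h2 : base t (v + t.vec) = base t v + 1 := base_self t v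
    obtain ⟨v', p, q, c⟩ := ih (v + t.vec) h1 (by omega)
    exact ⟨v', p, q, fun w hw => (c w hw).trans (step_perp hv h1 hw)⟩

/-- Extremal unit cubes exist. -/
theorem extremal_exists {a b : Cube} (hB : a ≤ b) {d t w : Dir} (hdt : Dir.perp d t = true)
    (hdw : Dir.perp d w = true) (htw : Dir.perp t w = true) :
    ∃ v ∈ Finset.Icc a b, v + d.vec ∉ Finset.Icc a b ∧ v + t.vec ∉ Finset.Icc a b ∧
      v + w.vec ∉ Finset.Icc a b := by
  have h0 : a ∈ Finset.Icc a b := Finset.mem_Icc.2 ⟨le_refl _, hB⟩
  obtain ⟨v1, a1, b1, -⟩ := walk_bd d _ a h0 rfl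
  obtain ⟨v2, a2, b2, c2⟩ := walk_bd t _ v1 a1 rfl
  obtain ⟨v3, a3, b3, c3⟩ := walk_bd w _ v2 a2 rfl
  refine ⟨v3, a3, ?_, ?_, b3⟩
  · rw [c3 d (by rw [perp_comm]; exact hdw), c2 d (by rw [perp_comm]; exact hdt)]
    exact b1
  · rw [c3 t (by rw [perp_comm]; exact htw)]
    exact b2

variable {ι : Type} {lo hi : ι → Cube}

/-- Glued bricks share a whole side. -/
theorem whole (S : BrickSys lo hi) {i j : ι} {d : Dir} (hT : Glued lo hi i d j) (w : Cube) :
    (w ∈ brick lo hi i ∧ w + d.vec ∉ brick lo hi i) ↔
      (w + d.vec ∈ brick lo hi j ∧ w ∉ brick lo hi j) := by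
  have hf := S.full i j d hT
  have hli := S.le i
  have hlj := S.le j
  obtain ⟨hne, v, hv, hvd⟩ := hT
  have h1 : v + d.vec ∉ brick lo hi i := fun h =>
    Finset.disjoint_left.1 (S.disj i j hne) h hvd
  have h2 : v ∉ brick lo hi j := fun h =>
    Finset.disjoint_left.1 (S.disj i j hne) hv h
  have f0 := hf 0
  have f1 := hf 1
  have f2 := hf 2
  clear hf
  unfold brick at hv hvd h1 h2 ⊢
  simp only [mem_Icc_iff] at hv hvd h1 h2 ⊢
  obtain ⟨x, y, z⟩ := v
  obtain ⟨x', y', z'⟩ := w
  simp only [Prod.le_def] at hli hlj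
  have c0 : ∀ u : Cube, co u 0 = u.1 := fun _ => rfl
  have c1 : ∀ u : Cube, co u 1 = u.2.1 := fun _ => rfl
  have c2 : ∀ u : Cube, co u 2 = u.2.2 := fun _ => rfl
  simp only [c0] at f0
  simp only [c1] at f1
  simp only [c2] at f2
  cases d
  all_goals
    simp only [Dir.vec, Prod.mk_add_mk] at hv hvd h1 h2 ⊢
  · have f1' := f1 (by decide)
    have f2' := f2 (by decide)
    omega
  · have f1' := f1 (by decide)
    have f2' := f2 (by decide)
    omega
  · have f0' := f0 (by decide)
    have f2' := f2 (by decide)
    omega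
  · have f0' := f0 (by decide)
    have f2' := f2 (by decide)
    omega
  · have f0' := f0 (by decide)
    have f1' := f1 (by decide)
    omega
  · have f0' := f0 (by decide)
    have f1' := f1 (by decide)
    omega

theorem glued_step (S : BrickSys lo hi) {v : Cube} {i j : ι} {d : Dir}
    (h : Glued lo hi i d j) (hv : v ∈ brick lo hi i) (hd : v + d.vec ∉ brick lo hi i) :
    v + d.vec ∈ brick lo hi j ∧ v ∉ brick lo hi j := (whole S h v).1 ⟨hv, hd⟩

theorem index_unique (S : BrickSys lo hi) {v : Cube} {i j : ι} (hi' : v ∈ brick lo hi i)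
    (hj : v ∈ brick lo hi j) : i = j := by
  by_contra hne
  exact Finset.disjoint_left.1 (S.disj i j hne) hi' hj

/-- Every side of a brick has an extremal unit cube. -/
theorem exists_side (S : BrickSys lo hi) (i : ι) (d : Dir) :
    ∃ v ∈ brick lo hi i, v + d.vec ∉ brick lo hi i := by
  have key : ∀ d : Dir, ∃ t w : Dir, Dir.perp d t = true ∧ Dir.perp d w = true ∧
      Dir.perp t w = true := by decide
  obtain ⟨t, w, h1, h2, h3⟩ := key d
  obtain ⟨v, hv, hd, -, -⟩ := extremal_exists (S.le i) h1 h2 h3
  exact ⟨v, hv, hd⟩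

theorem bnb_eq_some (S : BrickSys lo hi) {i j : ι} {d : Dir} :
    bnb lo hi i d = some j ↔ Glued lo hi i d j := by
  unfold bnb
  constructor
  · intro h
    split_ifs at h with h1
    · have := h1.choose_spec
      rw [Option.some.inj h] at this
      exact this
  · intro h
    have h1 : ∃ j, Glued lo hi i d j := ⟨j, h⟩
    rw [dif_pos h1]
    congr 1
    obtain ⟨v, hv, hd⟩ := exists_side S i d
    exact index_unique S (glued_step S h1.choose_spec hv hd).1 (glued_step S h hv hd).1

theorem glued_symm {i j : ι} {d : Dir} (h : Glued lo hi i d j) : Glued lo hi j d.neg i := by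
  obtain ⟨hne, v, hv, hd⟩ := h
  refine ⟨hne.symm, v + d.vec, hd, ?_⟩
  rw [Dir.vec_neg, show v + d.vec + -d.vec = v by abel]
  exact hv

/-- Perpendicular steps on the two sides of a glued face. -/
theorem cross_step (S : BrickSys lo hi) {v : Cube} {i j : ι} {t w : Dir}
    (ha : Glued lo hi i t j) (h1 : v ∈ brick lo hi i) (hout : v + t.vec ∉ brick lo hi i)
    (hw : Dir.perp t w = true) :
    v + t.vec + w.vec ∈ brick lo hi j ↔ v + w.vec ∈ brick lo hi i := by
  obtain ⟨hj1, hj2⟩ := glued_step S ha h1 hout
  constructor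
  · intro h
    have h5 : v + w.vec + t.vec ∈ brick lo hi j := by
      rw [show v + w.vec + t.vec = v + t.vec + w.vec by abel]; exact h
    have h6 : v + w.vec ∉ brick lo hi j := by
      intro h7
      apply hj2
      have e0 : v + w.vec + w.neg.vec = v := by rw [Dir.vec_neg]; abel
      rw [← e0]
      unfold brick at *
      rw [step_mem h7 w.neg]
      have hb : base w.neg (v + t.vec) = base w.neg v :=
        base_perp v (by
          have : ∀ t w : Dir, Dir.perp t w = true → Dir.perp w.neg t = true := by decide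
          exact this t w hw)
      have hb2 : base w.neg (v + w.vec) + 1 = base w.neg v := by
        rw [base_neg, base_neg, base_self]; ring
      have := base_le_top hj1 w.neg
      omega
    exact ((whole S ha (v + w.vec)).2 ⟨h5, h6⟩).1
  · intro h
    have h5 : v + w.vec + t.vec ∉ brick lo hi i := by
      unfold brick at *
      rw [step_perp h1 h (by rw [perp_comm]; exact hw)]
      exact hout
    have h6 := (glued_step S ha h h5).1
    rw [show v + t.vec + w.vec = v + w.vec + t.vec by abel]
    exact h6

/-- A box that contains two of the neighbours of `v` in perpendicular directions contains `v`. -/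
theorem mem_of_two {a b v : Cube} {d t : Dir} (h : Dir.perp d t = true)
    (h1 : v + d.vec ∈ Finset.Icc a b) (h2 : v + t.vec ∈ Finset.Icc a b) :
    v ∈ Finset.Icc a b := by
  rw [mem_Icc_iff] at *
  obtain ⟨x, y, z⟩ := v
  cases d <;> cases t <;> first
    | (exact absurd h (by decide))
    | (simp only [Dir.vec, Prod.mk_add_mk] at h1 h2 ⊢; omega)

/-- A box that contains two diagonal unit cubes contains the ones in between. -/
theorem mem_between {a b v : Cube} {d t : Dir} (h : Dir.perp d t = true)
    (h1 : v ∈ Finset.Icc a b) (h2 : v + d.vec + t.vec ∈ Finset.Icc a b) :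
    v + d.vec ∈ Finset.Icc a b := by
  rw [mem_Icc_iff] at *
  obtain ⟨x, y, z⟩ := v
  cases d <;> cases t <;> first
    | (exact absurd h (by decide))
    | (simp only [Dir.vec, Prod.mk_add_mk] at h1 h2 ⊢; omega)

theorem bgraph_adj (S : BrickSys lo hi) {i j : ι} {d : Dir} (h : Glued lo hi i d j) :
    (bgraph (bnb lo hi)).Adj i j := ⟨h.1, Or.inl ⟨d, (bnb_eq_some S).2 h⟩⟩

/-- Two bricks are glued in one direction only. -/
theorem glued_uniq (S : BrickSys lo hi) {i j : ι} {d t : Dir} (h1 : Glued lo hi i d j)
    (h2 : Glued lo hi i t j) : d = t := by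
  by_contra hne
  by_cases hp : Dir.perp d t = true
  · have key : ∀ d t : Dir, Dir.perp d t = true → ∃ w : Dir, Dir.perp d w = true ∧
        Dir.perp t w = true := by decide
    obtain ⟨w, hw1, hw2⟩ := key d t hp
    obtain ⟨v, hv, hvd, hvt, -⟩ := extremal_exists (S.le i) hp hw1 hw2
    have a1 := glued_step S h1 hv hvd
    have a2 := glued_step S h2 hv hvt
    exact a1.2 (mem_of_two hp a1.1 a2.1)
  · have ht : t = d.neg := by
      have : ∀ d t : Dir, ¬ d = t → ¬ Dir.perp d t = true → t = d.neg := by decide
      exact this _ _ hne hp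
    subst ht
    have f := S.full i j d h1
    have f0 := f 0
    have f1 := f 1
    have f2 := f 2
    clear f
    obtain ⟨hij, v, hv, hvd⟩ := h1
    obtain ⟨-, w, hw, hwd⟩ := h2
    have hvj : v ∉ brick lo hi j := fun h => Finset.disjoint_left.1 (S.disj i j hij) hv h
    have hwj : w ∉ brick lo hi j := fun h => Finset.disjoint_left.1 (S.disj i j hij) hw h
    have hvi : v + d.vec ∉ brick lo hi i := fun h =>
      Finset.disjoint_left.1 (S.disj i j hij) h hvd
    have hwi : w + d.neg.vec ∉ brick lo hi i := fun h =>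
      Finset.disjoint_left.1 (S.disj i j hij) h hwd
    unfold brick at hv hvd hw hwd hvj hwj hvi hwi
    simp only [mem_Icc_iff] at hv hvd hw hwd hvj hwj hvi hwi
    obtain ⟨x, y, z⟩ := v
    obtain ⟨x', y', z'⟩ := w
    have c0 : ∀ u : Cube, co u 0 = u.1 := fun _ => rfl
    have c1 : ∀ u : Cube, co u 1 = u.2.1 := fun _ => rfl
    have c2 : ∀ u : Cube, co u 2 = u.2.2 := fun _ => rfl
    simp only [c0] at f0
    simp only [c1] at f1
    simp only [c2] at f2
    cases d
    all_goals
      simp only [Dir.neg, Dir.vec, Prod.mk_add_mk] at hv hvd hw hwd hvj hwj hvi hwi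
    · have f1' := f1 (by decide)
      have f2' := f2 (by decide)
      omega
    · have f1' := f1 (by decide)
      have f2' := f2 (by decide)
      omega
    · have f0' := f0 (by decide)
      have f2' := f2 (by decide)
      omega
    · have f0' := f0 (by decide)
      have f2' := f2 (by decide)
      omega
    · have f0' := f0 (by decide)
      have f1' := f1 (by decide)
      omega
    · have f0' := f0 (by decide)
      have f1' := f1 (by decide)
      omega

/-- The neighbour function of a tree-like system of bricks. -/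
theorem nbOK_bnb (S : BrickSys lo hi) (hA : (bgraph (bnb lo hi)).IsAcyclic) :
    NbOK (bnb lo hi) := by
  constructor
  · intro i d j h
    rw [bnb_eq_some S] at h ⊢
    exact glued_symm h
  · intro i d h
    rw [bnb_eq_some S] at h
    exact h.1 rfl
  · intro i d t j hd ht
    rw [bnb_eq_some S] at hd ht
    exact glued_uniq S hd ht
  · intro i d t j k hdt hj hk
    rw [bnb_eq_some S] at hj hk
    cases hl : bnb lo hi j t with
    | none => rfl
    | some l =>
      exfalso
      rw [bnb_eq_some S] at hl
      have key : ∀ d t : Dir, Dir.perp d t = true → ∃ w : Dir, Dir.perp d w = true ∧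
          Dir.perp t w = true := by decide
      obtain ⟨w, hw1, hw2⟩ := key d t hdt
      obtain ⟨v, hv, hvd, hvt, -⟩ := extremal_exists (S.le i) hdt hw1 hw2
      change v ∈ brick lo hi i at hv
      change v + d.vec ∉ brick lo hi i at hvd
      change v + t.vec ∉ brick lo hi i at hvt
      have htd : Dir.perp t d = true := by rw [perp_comm]; exact hdt
      obtain ⟨j1, j2⟩ := glued_step S hj hv hvd
      obtain ⟨k1, k2⟩ := glued_step S hk hv hvt
      have jt : v + d.vec + t.vec ∉ brick lo hi j := by
        rw [cross_step S hj hv hvd hdt]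
        exact hvt
      obtain ⟨l1, l2⟩ := glued_step S hl j1 jt
      have kd : v + t.vec + d.vec ∉ brick lo hi k := by
        rw [cross_step S hk hv hvt htd]
        exact hvd
      have l1' : v + t.vec + d.vec ∈ brick lo hi l := by
        rw [show v + t.vec + d.vec = v + d.vec + t.vec by abel]; exact l1
      have hkl : k ≠ l := by
        rintro rfl
        exact kd l1'
      have hkl' : Glued lo hi k d l := ⟨hkl, _, k1, l1'⟩
      have hjk : j ≠ k := by
        rintro rfl
        exact j2 (mem_of_two hdt j1 k1)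
      have hil : i ≠ l := by
        rintro rfl
        exact hvd (mem_between hdt hv l1)
      have a1 := bgraph_adj S hj
      have a2 := bgraph_adj S hl
      have a3 := bgraph_adj S hk
      have a4 := bgraph_adj S hkl'
      have p1 : (SimpleGraph.Walk.cons a1 (SimpleGraph.Walk.cons a2 SimpleGraph.Walk.nil)).IsPath
          := by
        rw [SimpleGraph.Walk.cons_isPath_iff, SimpleGraph.Walk.cons_isPath_iff]
        refine ⟨⟨SimpleGraph.Walk.IsPath.nil, by simpa using a2.ne⟩, ?_⟩
        simp only [SimpleGraph.Walk.support_cons, SimpleGraph.Walk.support_nil, List.mem_cons,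
          List.not_mem_nil, or_false, not_or]
        exact ⟨a1.ne, hil⟩
      have p2 : (SimpleGraph.Walk.cons a3 (SimpleGraph.Walk.cons a4 SimpleGraph.Walk.nil)).IsPath
          := by
        rw [SimpleGraph.Walk.cons_isPath_iff, SimpleGraph.Walk.cons_isPath_iff]
        refine ⟨⟨SimpleGraph.Walk.IsPath.nil, by simpa using a4.ne⟩, ?_⟩
        simp only [SimpleGraph.Walk.support_cons, SimpleGraph.Walk.support_nil, List.mem_cons,
          List.not_mem_nil, or_false, not_or]
        exact ⟨a3.ne, hil⟩
      have := (hA.subsingleton_path i l).elim ⟨_, p1⟩ ⟨_, p2⟩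
      have h2 := congrArg (fun p : (bgraph (bnb lo hi)).Path i l => p.1.support) this
      simp only [SimpleGraph.Walk.support_cons, SimpleGraph.Walk.support_nil] at h2
      have h3 := (List.cons.inj (List.cons.inj h2).2).1
      exact hjk h3

end Pool.Agent.Helper84.OT
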