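import Pool.Agent.Helper84.OT.Frame

/-!
# The colours of unit squares (project OT, MP_409f7f_co)
-/

namespace Pool.Agent.Helper84.OT

open Pool.Agent.Helper17.UF Pool.Agent.Helper84.LD Pool.Agent.Helper69.OT Relation

variable {ι : Type}

/-- The index of the brick that contains a unit cube. -/
noncomputable def bx (lo hi : ι → Cube) (i0 : ι) (v : Cube) : ι := by
  classical exact if h : ∃ i, v ∈ brick lo hi i then h.choose else i0

/-- The brick face of a unit square. -/
noncomputable def FF (lo hi : ι → Cube) (i0 : ι) (A : Face) : BF ι := (bx lo hi i0 A.1, A.2)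

/-- The corner of the brick face that a unit square looks at. -/
noncomputable def ad (lo hi : ι → Cube) (N : BF ι → Dir) (F : BF ι) (v : Cube) (w : Dir) : Dir := by
  classical exact if SW N F w ∧ v + w.vec ∈ brick lo hi F.1 then w.neg else w

/-- The colours of the corners of unit squares. -/
noncomputable def kap (lo hi : ι → Cube) (i0 : ι) (N : BF ι → Dir)
    (χ : ι → (Fin 3 → Bool) → Bool) (A : Face) (t w : Dir) : Bool :=
  if Perp3 A.2 t w then
    χ (FF lo hi i0 A).1 (cor A.2 (ad lo hi N (FF lo hi i0 A) A.1 t)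
      (ad lo hi N (FF lo hi i0 A) A.1 w))
  else false

/-- The east direction of a unit square. -/
noncomputable def eu (lo hi : ι → Cube) (i0 : ι) (N : BF ι → Dir) (A : Face) : Dir :=
  Dir.cross (N (FF lo hi i0 A)) A.2

variable {lo hi : ι → Cube} {i0 : ι} {N : BF ι → Dir} {χ : ι → (Fin 3 → Bool) → Bool}
  {ρ : BF ι → ℕ}

theorem bx_eq (S : BrickSys lo hi) {v : Cube} {i : ι} (hv : v ∈ brick lo hi i) :
    bx lo hi i0 v = i := by
  have h : ∃ i, v ∈ brick lo hi i := ⟨i, hv⟩
  unfold bx
  rw [dif_pos h]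
  exact index_unique S h.choose_spec hv

theorem FF_eq (S : BrickSys lo hi) {A : Face} {F : BF ι} (h : InF lo hi A F) :
    FF lo hi i0 A = F := by
  unfold FF
  rw [bx_eq S h.1, h.2.2]

theorem ad_out {F : BF ι} {v : Cube} {w : Dir} (h : v + w.vec ∉ brick lo hi F.1) :
    ad lo hi N F v w = w := by
  unfold ad
  rw [if_neg (fun h' => h h'.2)]

theorem ad_notSW {F : BF ι} {v : Cube} {w : Dir} (h : ¬ SW N F w) :
    ad lo hi N F v w = w := by
  unfold ad
  rw [if_neg (fun h' => h h'.1)]

theorem ad_in {F : BF ι} {v : Cube} {w : Dir} (h : SW N F w)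
    (h2 : v + w.vec ∈ brick lo hi F.1) : ad lo hi N F v w = w.neg := by
  unfold ad
  rw [if_pos ⟨h, h2⟩]

theorem ad_congr {F G : BF ι} {v v' : Cube} {w : Dir}
    (h : (SW N F w ∧ v + w.vec ∈ brick lo hi F.1) ↔ (SW N G w ∧ v' + w.vec ∈ brick lo hi G.1)) :
    ad lo hi N F v w = ad lo hi N G v' w := by
  by_cases h1 : SW N F w ∧ v + w.vec ∈ brick lo hi F.1
  · rw [ad_in h1.1 h1.2, ad_in (h.1 h1).1 (h.1 h1).2]
  · unfold ad
    rw [if_neg h1, if_neg (fun h' => h1 (h.2 h'))]

theorem ad_cases (lo hi : ι → Cube) (N : BF ι → Dir) (F : BF ι) (v : Cube) (w : Dir) :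
    ad lo hi N F v w = w ∨ ad lo hi N F v w = w.neg := by
  unfold ad
  split_ifs
  · exact Or.inr rfl
  · exact Or.inl rfl

theorem perp3_flip : ∀ d t w t' w' : Dir, Perp3 d t w → (t' = t ∨ t' = t.neg) →
    (w' = w ∨ w' = w.neg) → Perp3 d t' w' := by decide

theorem perp3_comm : ∀ d t w : Dir, Perp3 d t w → Perp3 d w t := by decide

theorem kap_eq {A : Face} {t w : Dir} (h : Perp3 A.2 t w) : kap lo hi i0 N χ A t w =
    χ (FF lo hi i0 A).1 (cor A.2 (ad lo hi N (FF lo hi i0 A) A.1 t)
      (ad lo hi N (FF lo hi i0 A) A.1 w)) := by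
  unfold kap
  rw [if_pos h]

theorem kap_comm (A : Face) (t w : Dir) :
    kap lo hi i0 N χ A t w = kap lo hi i0 N χ A w t := by
  by_cases h : Perp3 A.2 t w
  · rw [kap_eq h, kap_eq (perp3_comm _ _ _ h)]
    rw [cor_swap _ _ _ (perp3_flip _ _ _ _ _ h (ad_cases ..) (ad_cases ..))]
  · unfold kap
    rw [if_neg h, if_neg (fun h' => h (perp3_comm _ _ _ h'))]

/-- Of two opposite directions exactly one points south or west. -/
theorem SW_neg {F : BF ι} {w : Dir} (hp : Dir.perp F.2 (N F) = true)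
    (hw : Dir.perp F.2 w = true) : SW N F w.neg ↔ ¬ SW N F w := by
  unfold SW
  have key : ∀ d n w : Dir, Dir.perp d n = true → Dir.perp d w = true →
      ((w.neg = n.neg ∨ w.neg = (Dir.cross n d).neg) ↔
        ¬ (w = n.neg ∨ w = (Dir.cross n d).neg)) := by decide
  exact key _ _ _ hp hw

variable [Fintype ι]

/-- The colours of the ends of a side do not depend on the side from which one looks. -/
theorem kap_nbr (S : BrickSys lo hi) (hE : EdgeOK (cubes lo hi))
    (H : BField (bnb lo hi) N χ ρ) {A : Face} {t w : Dir} (hA : IsFace (cubes lo hi) A)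
    (h : Perp3 A.2 t w) :
    kap lo hi i0 N χ (nbr (cubes lo hi) A t).1 (nbr (cubes lo hi) A t).2 w =
      kap lo hi i0 N χ A t w := by
  have hs : ∀ i d j, bnb lo hi i d = some j → bnb lo hi j d.neg = some i := by
    intro i d j h
    rw [bnb_eq_some S] at h ⊢
    exact glued_symm h
  obtain ⟨F, hAF, hF⟩ := (isFace_iff S).1 hA
  have hd : A.2 = F.2 := hAF.2.2
  have hpt : Dir.perp F.2 t = true := by rw [← hd]; exact h.1
  have hpw : Dir.perp F.2 w = true := by rw [← hd]; exact h.2.1
  rw [kap_eq h, FF_eq S hAF]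
  by_cases hin : A.1 + t.vec ∈ brick lo hi F.1
  · obtain ⟨e1, e2⟩ := nbr_in S hAF hF hpt hin
    rw [e1]
    simp only
    have h' : Perp3 A.2 t.neg w :=
      perp3_flip _ _ _ _ _ h (Or.inr rfl) (Or.inl rfl)
    rw [kap_eq (A := (A.1 + t.vec, A.2)) h', FF_eq S e2]
    simp only
    have hw : ad lo hi N F (A.1 + t.vec) w = ad lo hi N F A.1 w := by
      have : (A.1 + t.vec + w.vec ∈ brick lo hi F.1) ↔ (A.1 + w.vec ∈ brick lo hi F.1) := by
        have h1 := hAF.1
        unfold brick at *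
        exact step_perp h1 hin h.2.2
      exact ad_congr (by rw [this])
    have ht : ad lo hi N F (A.1 + t.vec) t.neg = ad lo hi N F A.1 t := by
      have hback : A.1 + t.vec + t.neg.vec ∈ brick lo hi F.1 := by
        rw [Dir.vec_neg, show A.1 + t.vec + -t.vec = A.1 by abel]
        exact hAF.1
      by_cases hsw : SW N F t
      · rw [ad_in hsw hin]
        refine ad_notSW ?_
        rw [SW_neg (H.perp F hF) hpt]
        exact fun hh => hh hsw
      · rw [ad_notSW hsw]
        rw [ad_in ((SW_neg (H.perp F hF) hpt).2 hsw) hback, Dir.neg_neg]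
    rw [hw, ht]
  · obtain ⟨e1, e2, e3, e4, e5⟩ := nbr_out S hE hAF hF hpt hin
    have hP3F : Perp3 F.2 t w := by rw [← hd]; exact h
    have hPG := perp_bnbr (nb := bnb lo hi) F hP3F
    set G := (bnbr (bnb lo hi) F t).1 with hG
    set b := (bnbr (bnb lo hi) F t).2 with hb
    set C := (nbr (cubes lo hi) A t).1 with hC
    rw [e3]
    have hCG : C.2 = G.2 := e1.2.2
    rw [kap_eq (A := C) (by rw [hCG]; exact hPG), FF_eq S e1, ad_out hin, ad_out e4, hCG, hd]
    -- both directions are `w` or `-w`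
    have a1 := ad_cases lo hi N F A.1 w
    have a2 := ad_cases lo hi N G C.1 w
    have hP3G' : Perp3 F.2 t (ad lo hi N G C.1 w) :=
      perp3_flip _ _ _ _ _ hP3F (Or.inl rfl) a2
    have x := chi_bnbr H.neck F hP3G'
    change χ G.1 (cor G.2 b (ad lo hi N G C.1 w)) = _ at x
    rw [x]
    by_cases hne : χ F.1 (cor F.2 t w) ≠ χ F.1 (cor F.2 t w.neg)
    · have hfr := (bi_frame hs H hF e2 hP3F hne).1
      have : ad lo hi N G C.1 w = ad lo hi N F A.1 w := by
        have h5 := e5 w hpw h.2.2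
        exact ad_congr (by rw [h5, hfr])
      rw [this]
    · have heq : χ F.1 (cor F.2 t w) = χ F.1 (cor F.2 t w.neg) := not_not.1 hne
      rcases a1 with a1 | a1 <;> rcases a2 with a2 | a2 <;> rw [a1, a2]
      · exact heq.symm
      · exact heq

end Pool.Agent.Helper84.OT
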