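import Pool.Agent.Helper84.OT.Par
import Pool.Agent.Helper84.LD.UnfoldT

/-!
# Edge unfoldings that cut only edges of bricks (project OT, MP_409f7f_co)
-/

namespace Pool.Agent.Helper84.OT

open Pool.Agent.Helper17.UF Pool.Agent.Helper84.LD Relation
open Pool.Agent.Helper69.OT hiding co pos

variable {ι : Type} {lo hi : ι → Cube} {i0 : ι} {N : BF ι → Dir}
  {χ : ι → (Fin 3 → Bool) → Bool} {ρ : BF ι → ℕ} [Fintype ι]

/-- A unit edge on the boundary of a brick face lies on an edge of the brick. -/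
theorem side_brickEdge {v : Cube} {i : ι} {d t : Dir} (h : Dir.perp d t = true)
    (hv : v ∈ brick lo hi i) (hd : v + d.vec ∉ brick lo hi i) (ht : v + t.vec ∉ brick lo hi i) :
    sideOf (v, d) t ⊆ brickEdge lo hi i d t := by
  intro x hx
  have h1 : x ∈ unitCube v := hx.1.1
  have h2 := (mem_side h).1 hx
  obtain ⟨hxd, hxt, -⟩ := h2
  unfold brick at hv hd ht
  rw [mem_Icc_iff] at hv hd ht
  obtain ⟨p, q, r⟩ := v
  obtain ⟨⟨a1, a2⟩, ⟨a3, a4⟩, a5, a6⟩ := h1
  simp only at a1 a2 a3 a4 a5 a6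
  obtain ⟨⟨b1, b2⟩, ⟨b3, b4⟩, b5, b6⟩ := hv
  simp only at b1 b2 b3 b4 b5 b6
  have c0 : ∀ u : Cube, Pool.Agent.Helper69.OT.co u 0 = u.1 := fun _ => rfl
  have c1 : ∀ u : Cube, Pool.Agent.Helper69.OT.co u 1 = u.2.1 := fun _ => rfl
  have c2 : ∀ u : Cube, Pool.Agent.Helper69.OT.co u 2 = u.2.2 := fun _ => rfl
  have r1 : ((lo i).1 : ℝ) ≤ p := by exact_mod_cast b1
  have r2 : (p : ℝ) ≤ (hi i).1 := by exact_mod_cast b2
  have r3 : ((lo i).2.1 : ℝ) ≤ q := by exact_mod_cast b3
  have r4 : (q : ℝ) ≤ (hi i).2.1 := by exact_mod_cast b4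
  have r5 : ((lo i).2.2 : ℝ) ≤ r := by exact_mod_cast b5
  have r6 : (r : ℝ) ≤ (hi i).2.2 := by exact_mod_cast b6
  refine ⟨?_, ?_⟩
  · intro a
    fin_cases a
    · change ((Pool.Agent.Helper69.OT.co (lo i) 0 : ℤ) : ℝ) ≤ x 0 ∧
        x 0 ≤ (Pool.Agent.Helper69.OT.co (hi i) 0 : ℤ) + 1
      rw [c0, c0]
      exact ⟨by linarith, by linarith⟩
    · change ((Pool.Agent.Helper69.OT.co (lo i) 1 : ℤ) : ℝ) ≤ x 1 ∧
        x 1 ≤ (Pool.Agent.Helper69.OT.co (hi i) 1 : ℤ) + 1
      rw [c1, c1]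
      exact ⟨by linarith, by linarith⟩
    · change ((Pool.Agent.Helper69.OT.co (lo i) 2 : ℤ) : ℝ) ≤ x 2 ∧
        x 2 ≤ (Pool.Agent.Helper69.OT.co (hi i) 2 : ℤ) + 1
      rw [c2, c2]
      exact ⟨by linarith, by linarith⟩
  · have key : ∀ s : Dir, ¬ (((lo i).1 ≤ ((p, q, r) + s.vec).1 ∧
          ((p, q, r) + s.vec).1 ≤ (hi i).1) ∧
        ((lo i).2.1 ≤ ((p, q, r) + s.vec).2.1 ∧ ((p, q, r) + s.vec).2.1 ≤ (hi i).2.1) ∧
        (lo i).2.2 ≤ ((p, q, r) + s.vec).2.2 ∧ ((p, q, r) + s.vec).2.2 ≤ (hi i).2.2) →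
        co s x = base s (p, q, r) + 1 →
        x s.axis = if Pool.Agent.Helper69.OT.pos s then
          ((Pool.Agent.Helper69.OT.co (hi i) s.axis : ℤ) : ℝ) + 1 else
          ((Pool.Agent.Helper69.OT.co (lo i) s.axis : ℤ) : ℝ) := by
      intro s hs hx
      cases s
      · simp only [Dir.vec, Prod.mk_add_mk] at hs
        simp only [co, base] at hx
        have e : p = (hi i).1 := by omega
        simp only [Dir.axis, Pool.Agent.Helper69.OT.pos, if_true, c0]
        rw [hx, e]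
      · simp only [Dir.vec, Prod.mk_add_mk] at hs
        simp only [co, base] at hx
        have e : p = (lo i).1 := by omega
        simp only [Dir.axis, Pool.Agent.Helper69.OT.pos, c0]
        rw [if_neg (by decide), ← e]
        push_cast at hx
        linarith
      · simp only [Dir.vec, Prod.mk_add_mk] at hs
        simp only [co, base] at hx
        have e : q = (hi i).2.1 := by omega
        simp only [Dir.axis, Pool.Agent.Helper69.OT.pos, if_true, c1]
        rw [hx, e]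
      · simp only [Dir.vec, Prod.mk_add_mk] at hs
        simp only [co, base] at hx
        have e : q = (lo i).2.1 := by omega
        simp only [Dir.axis, Pool.Agent.Helper69.OT.pos, c1]
        rw [if_neg (by decide), ← e]
        push_cast at hx
        linarith
      · simp only [Dir.vec, Prod.mk_add_mk] at hs
        simp only [co, base] at hx
        have e : r = (hi i).2.2 := by omega
        simp only [Dir.axis, Pool.Agent.Helper69.OT.pos, if_true, c2]
        rw [hx, e]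
      · simp only [Dir.vec, Prod.mk_add_mk] at hs
        simp only [co, base] at hx
        have e : r = (lo i).2.2 := by omega
        simp only [Dir.axis, Pool.Agent.Helper69.OT.pos, c2]
        rw [if_neg (by decide), ← e]
        push_cast at hx
        linarith
    rintro s (rfl | rfl)
    · exact key _ hd hxd
    · exact key _ ht hxt

/-- The placement of a ladder develops the brick faces as rectangles. -/
theorem par_pos (S : BrickSys lo hi) (hE : EdgeOK (cubes lo hi)) (H : BField (bnb lo hi) N χ ρ)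
    (hL : IsLadder (cubes lo hi) true (eu lo hi i0 N)
      (UU (cubes lo hi) true (eu lo hi i0 N))
      (XC (cubes lo hi) true (eu lo hi i0 N) (kap lo hi i0 N χ))
      (fun A => -(hgt (cubes lo hi) true (eu lo hi i0 N) A : ℤ)))
    {B1 : Face} (hB1 : ¬ RR lo hi N B1) {ps : Face → ℤ × ℤ}
    (hU : ∀ A ∈ UU (cubes lo hi) true (eu lo hi i0 N),
      ps (nb (cubes lo hi) true (eu lo hi i0 N) A Hd.N) = ps A + (0, 1))
    (hX : ∀ A ∈ XC (cubes lo hi) true (eu lo hi i0 N) (kap lo hi i0 N χ), A ≠ B1 →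
      ps (nb (cubes lo hi) true (eu lo hi i0 N) A Hd.E) = ps A + (1, 0))
    {A : Face} (hA : RR lo hi N A) : ps (shE lo hi i0 N A) = ps A + (1, 0) := by
  have hface : IsFace (cubes lo hi) A := by
    obtain ⟨F, h1, h2, -⟩ := hA
    exact (isFace_iff S).2 ⟨F, h1, h2⟩
  obtain ⟨Z, hZ, hAZ⟩ := hL.out A hface
  have key : ∀ C D, EqvGen (Up (cubes lo hi) true (eu lo hi i0 N)
      (UU (cubes lo hi) true (eu lo hi i0 N))) C D →
      (RR lo hi N C ↔ RR lo hi N D) ∧
      (RR lo hi N C → (ps (shE lo hi i0 N C) = ps C + (1, 0) ↔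
        ps (shE lo hi i0 N D) = ps D + (1, 0))) := by
    intro C D h
    induction h with
    | rel C D h =>
      obtain ⟨h1, h2⟩ := par_up S hE H h
      refine ⟨h1, fun hR => ?_⟩
      have h3 := h2 hR
      have u1 := hU _ h.1
      have u2 := hU _ h3.1
      rw [h.2] at u1
      rw [h3.2] at u2
      rw [u1, u2]
      constructor
      · intro e; rw [e]; abel
      · intro e
        have : ps (shE lo hi i0 N C) + (0, 1) = ps C + (1, 0) + (0, 1) := by
          rw [e]; abel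
        exact add_right_cancel this
    | refl => exact ⟨Iff.rfl, fun _ => Iff.rfl⟩
    | symm _ _ _ ih => exact ⟨ih.1.symm, fun hR => (ih.2 (ih.1.2 hR)).symm⟩
    | trans _ _ _ _ _ ih1 ih2 =>
      exact ⟨ih1.1.trans ih2.1, fun hR => (ih1.2 hR).trans (ih2.2 (ih1.1.1 hR))⟩
  obtain ⟨k1, k2⟩ := key A Z hAZ
  have hRZ := k1.1 hA
  refine (k2 hA).2 ?_
  have hne : Z ≠ B1 := by
    rintro rfl
    exact hB1 hRZ
  have h1 := hX Z hZ hne
  obtain ⟨F, f1, f2, f3⟩ := hRZ
  obtain ⟨p1, p2, d1, d2, d3, d4⟩ := dirs (i0 := i0) S H f1 f2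
  obtain ⟨e1, e2⟩ := nbr_in S f1 f2 p1.2.1 f3
  have : nb (cubes lo hi) true (eu lo hi i0 N) Z Hd.E = shE lo hi i0 N Z := by
    unfold nb shE
    rw [d3, e1, FF_eq S f1]
  rw [← this]
  exact h1

/-- Some crossing lies on the boundary of a brick face. -/
theorem exists_start (S : BrickSys lo hi) (H : BField (bnb lo hi) N χ ρ) : ∀ n : ℕ, ∀ (A : Face)
    (F : BF ι), InF lo hi A F → IsBF (bnb lo hi) F →
    A ∈ XC (cubes lo hi) true (eu lo hi i0 N) (kap lo hi i0 N χ) →
    (top (lo F.1) (hi F.1) (EE N F) - base (EE N F) A.1).toNat = n →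
    ∃ B1 ∈ XC (cubes lo hi) true (eu lo hi i0 N) (kap lo hi i0 N χ), ¬ RR lo hi N B1 := by
  intro n
  induction n with
  | zero =>
    intro A F hAF hF hA hn
    refine ⟨A, hA, ?_⟩
    rintro ⟨G, g1, g2, g3⟩
    have := hAF.unique S g1
    subst this
    have h1 := hAF.1
    unfold brick at *
    rw [step_mem h1] at g3
    omega
  | succ n ih =>
    intro A F hAF hF hA hn
    have hin : A.1 + (EE N F).vec ∈ brick lo hi F.1 := by
      have h1 := hAF.1
      unfold brick at *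
      rw [step_mem h1]
      omega
    obtain ⟨p1, p2, d1, d2, d3, d4⟩ := dirs (i0 := i0) S H hAF hF
    obtain ⟨e1, e2⟩ := nbr_in S hAF hF p1.2.1 hin
    obtain ⟨-, -, d1', d2', d3', d4'⟩ := dirs (i0 := i0) S H e2 hF
    obtain ⟨c1, c2, c3, c4⟩ := corners (i0 := i0) S H hAF hF
    obtain ⟨c1', c2', c3', c4'⟩ := corners (i0 := i0) S H e2 hF
    have had : ad lo hi N F (A.1 + (EE N F).vec) (N F).neg = ad lo hi N F A.1 (N F).neg := by
      refine ad_congr ?_
      have h1 := hAF.1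
      have hpp : Dir.perp (EE N F) (N F).neg = true := by
        have : ∀ d n l : Dir, Perp3 d n l → Dir.perp l n.neg = true := by decide
        exact this _ _ _ p1
      have : (A.1 + (EE N F).vec + (N F).neg.vec ∈ brick lo hi F.1) ↔
          (A.1 + (N F).neg.vec ∈ brick lo hi F.1) := by
        unfold brick at *
        exact step_perp h1 hin hpp
      rw [this]
    refine ih (A.1 + (EE N F).vec, A.2) F e2 hF ?_ ?_
    · obtain ⟨x1, x2, x3⟩ := hA
      unfold crC at x2 x3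
      rw [d1, d3] at x3
      rw [d2, d3] at x2
      refine ⟨(isFace_iff S).2 ⟨F, e2, hF⟩, ?_, ?_⟩
      · unfold crC
        rw [d2', d3', c3']
        simp only
        rw [had, ← c3]
        exact x2
      · unfold crC
        rw [d1', d3', c1', ← c1]
        exact x3
    · have hb : base (EE N F) (A.1 + (EE N F).vec) = base (EE N F) A.1 + 1 := base_self _ _
      simp only
      omega

/-- A closed ladder on the faces of the bricks gives an edge unfolding that only cuts edges of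
bricks. -/
theorem _root_.Pool.Agent.Helper69.OT.BField.brickUnfolding (S : BrickSys lo hi)
    (hE : EdgeOK (cubes lo hi)) (H : BField (bnb lo hi) N χ ρ) : HasBrickUnfolding lo hi := by
  by_cases hne : ∃ A, IsFace (cubes lo hi) A
  swap
  · push Not at hne
    refine ⟨∅, fun _ _ => 0, fun e he => absurd he (Set.notMem_empty e), ?_, ?_, ?_, ?_⟩
    · exact fun A hA => absurd hA (hne A)
    · exact fun A B hA => absurd hA (hne A)
    · exact fun A B hA => absurd hA (hne A)
    · exact fun A B hA => absurd hA (hne A)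
  obtain ⟨A1, hA1⟩ := hne
  obtain ⟨i0, -⟩ := mem_cubes'.1 hA1.1
  have hfield := isFieldC (i0 := i0) S hE H
  have hL : IsLadder (cubes lo hi) true (eu lo hi i0 N)
      (UU (cubes lo hi) true (eu lo hi i0 N))
      (XC (cubes lo hi) true (eu lo hi i0 N) (kap lo hi i0 N χ))
      (fun A => -(hgt (cubes lo hi) true (eu lo hi i0 N) A : ℤ)) :=
    hfield.isLadder (unit_conn S hE H)
  obtain ⟨Z, hZ, -⟩ := hL.out A1 hA1
  obtain ⟨F0, z1, z2⟩ := (isFace_iff S).1 (hL.cr_face Z hZ)
  obtain ⟨B1, hB1, hB1R⟩ := exists_start S H _ Z F0 z1 z2 hZ rfl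
  obtain ⟨ps, hnet, hU, hX⟩ := hL.exists_net_at hB1
  set L : Set Pl := {p | ∃ A, IsFace (cubes lo hi) A ∧ p = ⟨A, ps A, eu lo hi i0 N A⟩} with hLdef
  have hpl : ∀ A, IsFace (cubes lo hi) A → (⟨A, ps A, eu lo hi i0 N A⟩ : Pl) ∈ L :=
    fun A hA => ⟨A, hA, rfl⟩
  obtain ⟨φ, g1, g2, g3, g4⟩ := net_unfolding_T hE hnet
  refine ⟨{e | IsEdge (cubes lo hi) e ∧ e ∉ Uset (cubes lo hi) true L}, φ, ?_, g1, g2, g3, g4⟩
  rintro e ⟨he, heU⟩
  refine ⟨he, ?_⟩
  obtain ⟨A, t, hA, ht, rfl⟩ := he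
  obtain ⟨F, hAF, hF⟩ := (isFace_iff S).1 hA
  have hd := hAF.2.2
  have htF : Dir.perp F.2 t = true := by rw [← hd]; exact ht
  by_cases hin : A.1 + t.vec ∈ brick lo hi F.1
  swap
  · refine ⟨F.1, A.2, t, ht, ?_⟩
    exact side_brickEdge ht hAF.1 hAF.2.1 hin
  exfalso
  apply heU
  obtain ⟨p1, p2, d1, d2, d3, d4⟩ := dirs (i0 := i0) S H hAF hF
  have hparE : ∀ C : Face, InF lo hi C F → C.1 + (EE N F).vec ∈ brick lo hi F.1 →
      sideOf C (EE N F) ∈ Uset (cubes lo hi) true L := by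
    intro C hCF hCin
    obtain ⟨-, -, -, -, d3, -⟩ := dirs (i0 := i0) S H hCF hF
    obtain ⟨e1, e2⟩ := nbr_in S hCF hF p1.2.1 hCin
    obtain ⟨-, -, -, -, -, d4'⟩ := dirs (i0 := i0) S H e2 hF
    have hps := par_pos S hE H hL hB1R hU hX (A := C) ⟨F, hCF, hF, hCin⟩
    have hsh : shE lo hi i0 N C = (C.1 + (EE N F).vec, C.2) := by
      unfold shE
      rw [FF_eq S hCF]
    rw [hsh] at hps
    refine ⟨_, hpl C ((isFace_iff S).2 ⟨F, hCF, hF⟩), _,
      hpl (C.1 + (EE N F).vec, C.2) ((isFace_iff S).2 ⟨F, e2, hF⟩), Hd.E, hps, ?_, ?_⟩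
    · change nbr (cubes lo hi) C (dA true (eu lo hi i0 N) C Hd.E) =
        ((C.1 + (EE N F).vec, C.2), dA true (eu lo hi i0 N) (C.1 + (EE N F).vec, C.2) Hd.W)
      rw [d3, e1, d4']
    · change sideOf C (EE N F) = sideOf C (dA true (eu lo hi i0 N) C Hd.E)
      rw [d3]
  have hparN : ∀ C : Face, InF lo hi C F → C.1 + (N F).vec ∈ brick lo hi F.1 →
      sideOf C (N F) ∈ Uset (cubes lo hi) true L := by
    intro C hCF hCin
    obtain ⟨-, -, d1, -, -, -⟩ := dirs (i0 := i0) S H hCF hF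
    obtain ⟨e1, e2⟩ := nbr_in S hCF hF p1.1 hCin
    obtain ⟨-, -, -, d2', -, -⟩ := dirs (i0 := i0) S H e2 hF
    have hC : IsFace (cubes lo hi) C := (isFace_iff S).2 ⟨F, hCF, hF⟩
    have hcU : C ∈ UU (cubes lo hi) true (eu lo hi i0 N) := by
      refine ⟨hC, ?_⟩
      by_contra hc
      exact (not_cmp_N S hE H hCF hF hc).1 hCin
    have hps := hU C hcU
    have hnb : nb (cubes lo hi) true (eu lo hi i0 N) C Hd.N = (C.1 + (N F).vec, C.2) := by
      unfold nb
      rw [d1, e1]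
    rw [hnb] at hps
    refine ⟨_, hpl C hC, _,
      hpl (C.1 + (N F).vec, C.2) ((isFace_iff S).2 ⟨F, e2, hF⟩), Hd.N, hps, ?_, ?_⟩
    · change nbr (cubes lo hi) C (dA true (eu lo hi i0 N) C Hd.N) =
        ((C.1 + (N F).vec, C.2), dA true (eu lo hi i0 N) (C.1 + (N F).vec, C.2) Hd.S)
      rw [d1, e1, d2']
    · change sideOf C (N F) = sideOf C (dA true (eu lo hi i0 N) C Hd.N)
      rw [d1]
  rcases frame_cases F.2 (N F) t p1.1 htF with rfl | rfl | h | h
  · exact hparN A hAF hin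
  · -- south
    obtain ⟨e1, e2⟩ := nbr_in S hAF hF htF hin
    have hside := side_nbr (P := cubes lo hi) (v := A.1) (d := A.2) ht
    have hAA : ((A.1, A.2) : Face) = A := rfl
    rw [hAA, e1, Dir.neg_neg] at hside
    rw [← hside]
    refine hparN _ e2 ?_
    simp only
    rw [Dir.vec_neg, show A.1 + -(N F).vec + (N F).vec = A.1 by abel]
    exact hAF.1
  · have h' : t = EE N F := h
    subst h'
    exact hparE A hAF hin
  · have h' : t = (EE N F).neg := h
    subst h'
    obtain ⟨e1, e2⟩ := nbr_in S hAF hF htF hin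
    have hside := side_nbr (P := cubes lo hi) (v := A.1) (d := A.2) ht
    have hAA : ((A.1, A.2) : Face) = A := rfl
    rw [hAA, e1, Dir.neg_neg] at hside
    rw [← hside]
    refine hparE _ e2 ?_
    simp only
    rw [Dir.vec_neg, show A.1 + -(EE N F).vec + (EE N F).vec = A.1 by abel]
    exact hAF.1

end Pool.Agent.Helper84.OT
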