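import Pool.Agent.Helper84.OT.Conn
import Pool.Agent.Helper84.LD.MainAt

/-!
# Parallel unit columns in a brick column (project OT, MP_409f7f_co)
-/

namespace Pool.Agent.Helper84.OT

open Pool.Agent.Helper17.UF Pool.Agent.Helper84.LD Pool.Agent.Helper69.OT Relation

variable {ι : Type} {lo hi : ι → Cube} {i0 : ι} {N : BF ι → Dir}
  {χ : ι → (Fin 3 → Bool) → Bool} {ρ : BF ι → ℕ} [Fintype ι]

/-- The three cases of crossing the boundary of a brick face. -/
theorem nbr_out_cases (S : BrickSys lo hi) (hE : EdgeOK (cubes lo hi)) {A : Face} {F : BF ι}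
    {t : Dir} (hA : InF lo hi A F) (hF : IsBF (bnb lo hi) F) (ht : Dir.perp F.2 t = true)
    (hout : A.1 + t.vec ∉ brick lo hi F.1) :
    (bnb lo hi F.1 t = none ∧ nbr (cubes lo hi) A t = ((A.1, t), A.2)) ∨
    (∃ j, bnb lo hi F.1 t = some j ∧ bnb lo hi j F.2 = none ∧
      nbr (cubes lo hi) A t = ((A.1 + t.vec, A.2), t.neg)) ∨
    (∃ j k, bnb lo hi F.1 t = some j ∧ bnb lo hi j F.2 = some k ∧
      nbr (cubes lo hi) A t = ((A.1 + t.vec + A.2.vec, t.neg), A.2.neg)) := by
  obtain ⟨v, d⟩ := A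
  obtain ⟨i, d'⟩ := F
  obtain ⟨h1, h2, h3⟩ := hA
  simp only at h1 h2 h3 ht hout
  subst h3
  unfold IsBF at hF
  simp only at hF
  have hvP : v ∈ cubes lo hi := mem_cubes'.2 ⟨i, h1⟩
  have hvd : v + d.vec ∉ cubes lo hi := none_step S hF h1 h2
  have htd : Dir.perp t d = true := by rw [perp_comm]; exact ht
  simp only
  cases ha : bnb lo hi i t with
  | none =>
    left
    have hvt : v + t.vec ∉ cubes lo hi := none_step S ha h1 hout
    have hvtd : v + t.vec + d.vec ∉ cubes lo hi := hE v hvP t d htd hvt hvd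
    refine ⟨rfl, ?_⟩
    unfold nbr
    simp only
    rw [if_neg hvtd, if_neg hvt]
  | some j =>
    right
    have ha' := (bnb_eq_some S).1 ha
    obtain ⟨hj1, hj2⟩ := glued_step S ha' h1 hout
    have hvt : v + t.vec ∈ cubes lo hi := mem_cubes'.2 ⟨j, hj1⟩
    have hjd : v + t.vec + d.vec ∉ brick lo hi j := by
      rw [cross_step S ha' h1 hout htd]
      exact h2
    cases hb : bnb lo hi j d with
    | none =>
      left
      have hvtd : v + t.vec + d.vec ∉ cubes lo hi := none_step S hb hj1 hjd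
      refine ⟨j, rfl, hb, ?_⟩
      unfold nbr
      simp only
      rw [if_neg hvtd, if_pos hvt]
    | some k =>
      right
      have hb' := (bnb_eq_some S).1 hb
      obtain ⟨hk1, hk2⟩ := glued_step S hb' hj1 hjd
      have hvtd : v + t.vec + d.vec ∈ cubes lo hi := mem_cubes'.2 ⟨k, hk1⟩
      refine ⟨j, k, rfl, hb, ?_⟩
      unfold nbr
      simp only
      rw [if_pos hvtd]

/-- Crossing the boundary of a brick face from two parallel unit squares. -/
theorem nbr_shift (S : BrickSys lo hi) (hE : EdgeOK (cubes lo hi)) {A : Face} {F : BF ι}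
    {t w : Dir} (hA : InF lo hi A F) (hA2 : InF lo hi (A.1 + w.vec, A.2) F)
    (hF : IsBF (bnb lo hi) F) (ht : Dir.perp F.2 t = true)
    (hout : A.1 + t.vec ∉ brick lo hi F.1) (hout2 : A.1 + w.vec + t.vec ∉ brick lo hi F.1) :
    nbr (cubes lo hi) (A.1 + w.vec, A.2) t =
      (((nbr (cubes lo hi) A t).1.1 + w.vec, (nbr (cubes lo hi) A t).1.2),
        (nbr (cubes lo hi) A t).2) := by
  rcases nbr_out_cases S hE hA hF ht hout with ⟨p1, e1⟩ | ⟨j, p1, p2, e1⟩ | ⟨j, k, p1, p2, e1⟩ <;>
  rcases nbr_out_cases S hE hA2 hF ht hout2 with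
    ⟨q1, e2⟩ | ⟨j', q1, q2, e2⟩ | ⟨j', k', q1, q2, e2⟩ <;>
  rw [e1, e2]
  · rw [p1] at q1; exact absurd q1 (by simp)
  · rw [p1] at q1; exact absurd q1 (by simp)
  · rw [p1] at q1; exact absurd q1 (by simp)
  · simp only [Prod.mk.injEq, and_true]
    abel
  · rw [p1] at q1
    rw [Option.some.inj q1] at p2
    rw [p2] at q2
    exact absurd q2 (by simp)
  · rw [p1] at q1; exact absurd q1 (by simp)
  · rw [p1] at q1
    rw [Option.some.inj q1] at p2
    rw [p2] at q2
    exact absurd q2 (by simp)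
  · simp only [Prod.mk.injEq, and_true]
    abel

/-- The east neighbour inside the same brick face exists. -/
def RR (lo hi : ι → Cube) (N : BF ι → Dir) (A : Face) : Prop :=
  ∃ F : BF ι, InF lo hi A F ∧ IsBF (bnb lo hi) F ∧ A.1 + (EE N F).vec ∈ brick lo hi F.1

/-- The east neighbour inside the brick face. -/
noncomputable def shE (lo hi : ι → Cube) (i0 : ι) (N : BF ι → Dir) (A : Face) : Face :=
  (A.1 + (EE N (FF lo hi i0 A)).vec, A.2)

/-- Two unit columns in a brick column run in parallel. -/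
theorem par_up (S : BrickSys lo hi) (hE : EdgeOK (cubes lo hi)) (H : BField (bnb lo hi) N χ ρ)
    {A B : Face} (h : Up (cubes lo hi) true (eu lo hi i0 N)
      (UU (cubes lo hi) true (eu lo hi i0 N)) A B) :
    (RR lo hi N A ↔ RR lo hi N B) ∧
    (RR lo hi N A → Up (cubes lo hi) true (eu lo hi i0 N)
      (UU (cubes lo hi) true (eu lo hi i0 N)) (shE lo hi i0 N A) (shE lo hi i0 N B)) := by
  obtain ⟨⟨hA, hc⟩, hB⟩ := h
  obtain ⟨F, hAF, hF⟩ := (isFace_iff S).1 hA
  obtain ⟨p1, p2, d1, d2, d3, d4⟩ := dirs (i0 := i0) S H hAF hF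
  have hp := H.perp F hF
  have hNE : Dir.perp (N F) (EE N F) = true := p1.2.2
  have hEN : Dir.perp (EE N F) (N F) = true := by rw [perp_comm]; exact hNE
  have hFE : Dir.perp F.2 (EE N F) = true := p1.2.1
  have hB' : B = (nbr (cubes lo hi) A (N F)).1 := by
    rw [← hB]
    unfold nb
    rw [d1]
  have hback : (nbr (cubes lo hi) A (N F)).2 = dA true (eu lo hi i0 N) B Hd.S := by
    unfold Cmp at hc
    rw [hB, d1] at hc
    exact hc
  by_cases hin : A.1 + (N F).vec ∈ brick lo hi F.1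
  · obtain ⟨e1, e2⟩ := nbr_in S hAF hF hp hin
    have hBe : B = (A.1 + (N F).vec, A.2) := by rw [hB', e1]
    have hstep : (A.1 + (N F).vec + (EE N F).vec ∈ brick lo hi F.1) ↔
        (A.1 + (EE N F).vec ∈ brick lo hi F.1) := by
      have h1 := hAF.1
      unfold brick at *
      exact step_perp h1 hin hNE
    have hiff : RR lo hi N A ↔ RR lo hi N B := by
      constructor
      · rintro ⟨G, hG1, hG2, hG3⟩
        have := hAF.unique S hG1
        subst this
        rw [hBe]
        exact ⟨F, e2, hF, hstep.2 hG3⟩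
      · rintro ⟨G, hG1, hG2, hG3⟩
        rw [hBe] at hG1 hG3
        have := e2.unique S hG1
        subst this
        exact ⟨F, hAF, hF, hstep.1 hG3⟩
    refine ⟨hiff, ?_⟩
    rintro ⟨G, hG1, hG2, hG3⟩
    have := hAF.unique S hG1
    subst this
    have hsA : shE lo hi i0 N A = (A.1 + (EE N F).vec, A.2) := by
      unfold shE
      rw [FF_eq S hAF]
    have hsB : shE lo hi i0 N B = (A.1 + (N F).vec + (EE N F).vec, A.2) := by
      unfold shE
      rw [hBe, FF_eq S e2]
    have hAE : InF lo hi (A.1 + (EE N F).vec, A.2) F := (nbr_in S hAF hF hFE hG3).2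
    have hinE : A.1 + (EE N F).vec + (N F).vec ∈ brick lo hi F.1 := by
      rw [show A.1 + (EE N F).vec + (N F).vec = A.1 + (N F).vec + (EE N F).vec by abel]
      exact hstep.2 hG3
    obtain ⟨f1, f2⟩ := nbr_in S hAE hF hp hinE
    simp only at f1 f2
    obtain ⟨-, -, d1', -, -, -⟩ := dirs (i0 := i0) S H hAE hF
    obtain ⟨-, -, -, d2', -, -⟩ := dirs (i0 := i0) S H f2 hF
    rw [hsA, hsB]
    refine ⟨⟨(isFace_iff S).2 ⟨F, hAE, hF⟩, ?_⟩, ?_⟩
    · unfold Cmp nb
      rw [d1', f1]
      exact d2'.symm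
    · unfold nb
      rw [d1', f1]
      simp only [Prod.mk.injEq, and_true]
      abel
  · obtain ⟨e1, e2, e3, e4, e5⟩ := nbr_out S hE hAF hF hp hin
    have hcr := (cross_bnbr (nb := bnb lo hi) F hp).1
    have hSB : dA true (eu lo hi i0 N) B Hd.S = (N (bnbr (bnb lo hi) F (N F)).1).neg := by
      have e1' := e1
      rw [← hB'] at e1'
      exact (dirs (i0 := i0) S H e1' e2).2.2.2.1
    have hNG : N (bnbr (bnb lo hi) F (N F)).1 = (bnbr (bnb lo hi) F (N F)).2.neg := by
      rw [hSB, e3] at hback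
      rw [hback, Dir.neg_neg]
    set G := (bnbr (bnb lo hi) F (N F)).1 with hG
    have hEE : EE N G = EE N F := by
      unfold EE
      rw [hNG]
      exact hcr
    rw [← hB'] at e1 e5
    have hiff : RR lo hi N A ↔ RR lo hi N B := by
      constructor
      · rintro ⟨G', hG1, hG2, hG3⟩
        have := hAF.unique S hG1
        subst this
        refine ⟨G, e1, e2, ?_⟩
        rw [hEE, e5 _ hFE hNE]
        exact hG3
      · rintro ⟨G', hG1, hG2, hG3⟩
        have := e1.unique S hG1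
        subst this
        refine ⟨F, hAF, hF, ?_⟩
        rw [hEE, e5 _ hFE hNE] at hG3
        exact hG3
    refine ⟨hiff, ?_⟩
    rintro ⟨G', hG1, hG2, hG3⟩
    have := hAF.unique S hG1
    subst this
    have hsA : shE lo hi i0 N A = (A.1 + (EE N F).vec, A.2) := by
      unfold shE
      rw [FF_eq S hAF]
    have hsB : shE lo hi i0 N B = (B.1 + (EE N F).vec, B.2) := by
      unfold shE
      rw [FF_eq S e1, hEE]
    have hAE : InF lo hi (A.1 + (EE N F).vec, A.2) F := (nbr_in S hAF hF hFE hG3).2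
    have houtE : A.1 + (EE N F).vec + (N F).vec ∉ brick lo hi F.1 := by
      have h1 := hAF.1
      unfold brick at *
      rw [step_perp h1 hG3 hEN]
      exact hin
    have hsh := nbr_shift S hE hAF hAE hF hp hin houtE
    rw [← hB', e3] at hsh
    obtain ⟨-, -, d1', -, -, -⟩ := dirs (i0 := i0) S H hAE hF
    have hBE : InF lo hi (B.1 + (EE N F).vec, B.2) G := by
      have h5 : B.1 + (EE N F).vec ∈ brick lo hi G.1 := (e5 _ hFE hNE).2 hG3
      have h6 : Dir.perp G.2 (EE N F) = true := by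
        have := perp_bnbr (nb := bnb lo hi) F p1
        exact this.2.1
      exact (nbr_in S e1 e2 h6 h5).2
    obtain ⟨-, -, -, d2', -, -⟩ := dirs (i0 := i0) S H hBE e2
    rw [hsA, hsB]
    refine ⟨⟨(isFace_iff S).2 ⟨F, hAE, hF⟩, ?_⟩, ?_⟩
    · unfold Cmp nb
      rw [d1', hsh]
      simp only
      change _ = dA true (eu lo hi i0 N) (B.1 + (EE N F).vec, B.2) Hd.S
      rw [d2', hNG, Dir.neg_neg]
    · unfold nb
      rw [d1', hsh]

end Pool.Agent.Helper84.OT
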