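import Pool.Agent.Helper84.OT.Kap

/-!
# The local rules for unit squares (project OT, MP_409f7f_co)
-/

namespace Pool.Agent.Helper84.OT

open Pool.Agent.Helper17.UF Pool.Agent.Helper84.LD Pool.Agent.Helper69.OT Relation

variable {ι : Type} {lo hi : ι → Cube} {i0 : ι} {N : BF ι → Dir}
  {χ : ι → (Fin 3 → Bool) → Bool} {ρ : BF ι → ℕ}

theorem frame_dirs : ∀ d n : Dir, Dir.perp d n = true →
    dirH true d (Dir.cross n d) Hd.N = n ∧ dirH true d (Dir.cross n d) Hd.S = n.neg ∧
    dirH true d (Dir.cross n d) Hd.E = Dir.cross n d ∧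
    dirH true d (Dir.cross n d) Hd.W = (Dir.cross n d).neg ∧
    Dir.perp d (Dir.cross n d) = true ∧ Dir.perp n (Dir.cross n d) = true := by decide

variable [Fintype ι]

theorem bnb_symm (S : BrickSys lo hi) :
    ∀ i d j, bnb lo hi i d = some j → bnb lo hi j d.neg = some i := by
  intro i d j h
  rw [bnb_eq_some S] at h ⊢
  exact glued_symm h

/-- Data of a unit square of the boundary. -/
theorem face_data (S : BrickSys lo hi) (H : BField (bnb lo hi) N χ ρ) {A : Face}
    (hA : IsFace (cubes lo hi) A) : ∃ F : BF ι, InF lo hi A F ∧ IsBF (bnb lo hi) F ∧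
      FF lo hi i0 A = F ∧ A.2 = F.2 ∧ Dir.perp F.2 (N F) = true ∧
      eu lo hi i0 N A = Dir.cross (N F) F.2 := by
  obtain ⟨F, hAF, hF⟩ := (isFace_iff S).1 hA
  refine ⟨F, hAF, hF, FF_eq S hAF, hAF.2.2, H.perp F hF, ?_⟩
  unfold eu
  rw [FF_eq S hAF, hAF.2.2]

/-- If the north side is not compatible, then it is a north side of the brick face, and the
neighbouring brick face does not continue the column. -/
theorem not_cmp_N (S : BrickSys lo hi) (hE : EdgeOK (cubes lo hi))
    (H : BField (bnb lo hi) N χ ρ) {A : Face} {F : BF ι} (hAF : InF lo hi A F)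
    (hF : IsBF (bnb lo hi) F)
    (hc : ¬ Cmp (cubes lo hi) true (eu lo hi i0 N) A Hd.N) :
    A.1 + (N F).vec ∉ brick lo hi F.1 ∧
    N (bnbr (bnb lo hi) F (N F)).1 ≠ (bnbr (bnb lo hi) F (N F)).2.neg := by
  have hp := H.perp F hF
  have hFF : FF lo hi i0 A = F := FF_eq S hAF
  have hd := hAF.2.2
  have hN : dA true (eu lo hi i0 N) A Hd.N = N F := by
    unfold dA eu
    rw [hFF, hd]
    exact (frame_dirs _ _ hp).1
  have key : ∀ B : Face, ∀ G : BF ι, InF lo hi B G → IsBF (bnb lo hi) G →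
      dA true (eu lo hi i0 N) B Hd.S = (N G).neg := by
    intro B G hB hG
    unfold dA eu
    rw [FF_eq S hB, hB.2.2]
    exact (frame_dirs _ _ (H.perp G hG)).2.1
  have h1 : A.1 + (N F).vec ∉ brick lo hi F.1 := by
    intro hin
    apply hc
    obtain ⟨e1, e2⟩ := nbr_in S hAF hF hp hin
    unfold Cmp nb
    rw [hN, e1]
    exact (key _ _ e2 hF).symm
  refine ⟨h1, fun h2 => hc ?_⟩
  obtain ⟨e1, e2, e3, -, -⟩ := nbr_out S hE hAF hF hp h1
  unfold Cmp nb
  rw [hN, e3]
  have := key _ _ e1 e2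
  change _ = dA true (eu lo hi i0 N) (nbr (cubes lo hi) A (N F)).1 Hd.S
  rw [this, h2, Dir.neg_neg]

/-- The same for the south side. -/
theorem not_cmp_S (S : BrickSys lo hi) (hE : EdgeOK (cubes lo hi))
    (H : BField (bnb lo hi) N χ ρ) {A : Face} {F : BF ι} (hAF : InF lo hi A F)
    (hF : IsBF (bnb lo hi) F)
    (hc : ¬ Cmp (cubes lo hi) true (eu lo hi i0 N) A Hd.S) :
    A.1 + (N F).neg.vec ∉ brick lo hi F.1 ∧
    N (bnbr (bnb lo hi) F (N F).neg).1 ≠ (bnbr (bnb lo hi) F (N F).neg).2 := by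
  have hp := H.perp F hF
  have hFF : FF lo hi i0 A = F := FF_eq S hAF
  have hd := hAF.2.2
  have hN : dA true (eu lo hi i0 N) A Hd.S = (N F).neg := by
    unfold dA eu
    rw [hFF, hd]
    exact (frame_dirs _ _ hp).2.1
  have hp' : Dir.perp F.2 (N F).neg = true := by
    have : ∀ d n : Dir, Dir.perp d n = true → Dir.perp d n.neg = true := by decide
    exact this _ _ hp
  have key : ∀ B : Face, ∀ G : BF ι, InF lo hi B G → IsBF (bnb lo hi) G →
      dA true (eu lo hi i0 N) B Hd.N = N G := by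
    intro B G hB hG
    unfold dA eu
    rw [FF_eq S hB, hB.2.2]
    exact (frame_dirs _ _ (H.perp G hG)).1
  have h1 : A.1 + (N F).neg.vec ∉ brick lo hi F.1 := by
    intro hin
    apply hc
    obtain ⟨e1, e2⟩ := nbr_in S hAF hF hp' hin
    unfold Cmp nb
    rw [hN, e1]
    change (N F).neg.neg = dA true (eu lo hi i0 N) (A.1 + (N F).neg.vec, A.2) Hd.N
    rw [key _ _ e2 hF, Dir.neg_neg]
  refine ⟨h1, fun h2 => hc ?_⟩
  obtain ⟨e1, e2, e3, -, -⟩ := nbr_out S hE hAF hF hp' h1
  unfold Cmp nb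
  rw [hN, e3]
  have := key _ _ e1 e2
  change _ = dA true (eu lo hi i0 N) (nbr (cubes lo hi) A (N F).neg).1 Hd.N
  rw [this, h2]

/-- Colours of the corners along a lateral direction. -/
theorem kap_N (H : BField (bnb lo hi) N χ ρ) {A : Face} {F : BF ι} (hFF : FF lo hi i0 A = F)
    (hF : IsBF (bnb lo hi) F) (hd : A.2 = F.2) {l : Dir} (hl : Perp3 F.2 (N F) l) :
    kap lo hi i0 N χ A (N F) l = χ F.1 (cor F.2 (N F) (ad lo hi N F A.1 l)) := by
  rw [kap_eq (by rw [hd]; exact hl), hFF, hd]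
  rw [ad_notSW (w := N F)]
  unfold SW
  have : ∀ d n : Dir, Dir.perp d n = true → ¬ (n = n.neg ∨ n = (Dir.cross n d).neg) := by decide
  exact this _ _ (H.perp F hF)

theorem kap_S {A : Face} {F : BF ι} (hFF : FF lo hi i0 A = F) (hd : A.2 = F.2) {l : Dir}
    (hl : Perp3 F.2 (N F) l) : kap lo hi i0 N χ A (N F).neg l =
      χ F.1 (cor F.2 (ad lo hi N F A.1 (N F).neg) (ad lo hi N F A.1 l)) := by
  rw [kap_eq (by rw [hd]; exact perp3_flip _ _ _ _ _ hl (Or.inr rfl) (Or.inl rfl)), hFF, hd]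

/-- The colours increase along lateral sides. -/
theorem kap_mono (H : BField (bnb lo hi) N χ ρ) {A : Face} {F : BF ι} (hFF : FF lo hi i0 A = F)
    (hF : IsBF (bnb lo hi) F) (hd : A.2 = F.2) {l : Dir} (hl : Perp3 F.2 (N F) l)
    (h : kap lo hi i0 N χ A (N F).neg l = true) : kap lo hi i0 N χ A (N F) l = true := by
  rw [kap_N H hFF hF hd hl]
  rw [kap_S hFF hd hl] at h
  have hl' : Perp3 F.2 (N F) (ad lo hi N F A.1 l) :=
    perp3_flip _ _ _ _ _ hl (Or.inl rfl) (ad_cases ..)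
  rcases ad_cases lo hi N F A.1 (N F).neg with h1 | h1
  · rw [h1] at h
    exact H.mono F hF _ hl' h
  · rw [h1, Dir.neg_neg] at h
    exact h

/-- The column measure of a unit square. -/
theorem no_ring (S : BrickSys lo hi) (hE : EdgeOK (cubes lo hi))
    (H : BField (bnb lo hi) N χ ρ) : ∀ r : ℕ, ∀ n : ℕ, ∀ (A : Face) (F : BF ι),
      InF lo hi A F → IsBF (bnb lo hi) F → ρ F = r →
      (top (lo F.1) (hi F.1) (N F) - base (N F) A.1).toNat = n →
      ∃ k : ℕ, ¬ Cmp (cubes lo hi) true (eu lo hi i0 N)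
        ((fun B => nb (cubes lo hi) true (eu lo hi i0 N) B Hd.N)^[k] A) Hd.N := by
  intro r
  induction r using Nat.strong_induction_on with
  | _ r ihr =>
    intro n
    induction n with
    | zero =>
      intro A F hAF hF hr hn
      by_cases hc : Cmp (cubes lo hi) true (eu lo hi i0 N) A Hd.N
      swap
      · exact ⟨0, hc⟩
      have hp := H.perp F hF
      have hFF : FF lo hi i0 A = F := FF_eq S hAF
      have hd := hAF.2.2
      have hN : dA true (eu lo hi i0 N) A Hd.N = N F := by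
        unfold dA eu
        rw [hFF, hd]
        exact (frame_dirs _ _ hp).1
      have hout : A.1 + (N F).vec ∉ brick lo hi F.1 := by
        intro hin
        have h1 := hAF.1
        unfold brick at *
        rw [step_mem h1] at hin
        omega
      obtain ⟨e1, e2, e3, -, -⟩ := nbr_out S hE hAF hF hp hout
      set G := (bnbr (bnb lo hi) F (N F)).1 with hG
      have hcmp : N G = (bnbr (bnb lo hi) F (N F)).2.neg := by
        unfold Cmp nb at hc
        rw [hN, e3] at hc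
        have : dA true (eu lo hi i0 N) (nbr (cubes lo hi) A (N F)).1 Hd.S = (N G).neg := by
          unfold dA eu
          rw [FF_eq S e1, e1.2.2]
          exact (frame_dirs _ _ (H.perp G e2)).2.1
        change _ = dA true (eu lo hi i0 N) (nbr (cubes lo hi) A (N F)).1 Hd.S at hc
        rw [this] at hc
        rw [hc, Dir.neg_neg]
      have hlt : ρ G < ρ F := H.rank F hF hcmp
      obtain ⟨k, hk⟩ := ihr (ρ G) (by omega) _ _ G e1 e2 rfl rfl
      refine ⟨k + 1, ?_⟩
      rw [Function.iterate_succ_apply]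
      have : nb (cubes lo hi) true (eu lo hi i0 N) A Hd.N = (nbr (cubes lo hi) A (N F)).1 := by
        unfold nb
        rw [hN]
      rw [this]
      exact hk
    | succ n ihn =>
      intro A F hAF hF hr hn
      by_cases hc : Cmp (cubes lo hi) true (eu lo hi i0 N) A Hd.N
      swap
      · exact ⟨0, hc⟩
      have hp := H.perp F hF
      have hFF : FF lo hi i0 A = F := FF_eq S hAF
      have hd := hAF.2.2
      have hN : dA true (eu lo hi i0 N) A Hd.N = N F := by
        unfold dA eu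
        rw [hFF, hd]
        exact (frame_dirs _ _ hp).1
      have hin : A.1 + (N F).vec ∈ brick lo hi F.1 := by
        have h1 := hAF.1
        unfold brick at *
        rw [step_mem h1]
        omega
      obtain ⟨e1, e2⟩ := nbr_in S hAF hF hp hin
      have hb : base (N F) (A.1 + (N F).vec) = base (N F) A.1 + 1 := base_self _ _
      obtain ⟨k, hk⟩ := ihn (A.1 + (N F).vec, A.2) F e2 hF hr (by simp only; omega)
      refine ⟨k + 1, ?_⟩
      rw [Function.iterate_succ_apply]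
      have : nb (cubes lo hi) true (eu lo hi i0 N) A Hd.N = (A.1 + (N F).vec, A.2) := by
        unfold nb
        rw [hN, e1]
      rw [this]
      exact hk

/-- The unit squares with the colours of the brick field form a coloured direction field. -/
theorem isFieldC (S : BrickSys lo hi) (hE : EdgeOK (cubes lo hi))
    (H : BField (bnb lo hi) N χ ρ) :
    IsFieldC (cubes lo hi) true (eu lo hi i0 N) (kap lo hi i0 N χ) := by
  have hdir : ∀ A, IsFace (cubes lo hi) A → ∃ F : BF ι, InF lo hi A F ∧ IsBF (bnb lo hi) F ∧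
      FF lo hi i0 A = F ∧ A.2 = F.2 ∧ Perp3 F.2 (N F) (Dir.cross (N F) F.2) ∧
      Perp3 F.2 (N F) (Dir.cross (N F) F.2).neg ∧
      dA true (eu lo hi i0 N) A Hd.N = N F ∧ dA true (eu lo hi i0 N) A Hd.S = (N F).neg ∧
      dA true (eu lo hi i0 N) A Hd.E = Dir.cross (N F) F.2 ∧
      dA true (eu lo hi i0 N) A Hd.W = (Dir.cross (N F) F.2).neg := by
    intro A hA
    obtain ⟨F, h1, h2, h3, h4, h5, h6⟩ := face_data (i0 := i0) S H hA
    obtain ⟨k1, k2, k3, k4, k5, k6⟩ := frame_dirs _ _ h5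
    refine ⟨F, h1, h2, h3, h4, ⟨h5, k5, k6⟩, ?_, ?_, ?_, ?_, ?_⟩
    · exact perp3_flip _ _ _ _ _ ⟨h5, k5, k6⟩ (Or.inl rfl) (Or.inr rfl)
    · unfold dA; rw [h6, h4]; exact k1
    · unfold dA; rw [h6, h4]; exact k2
    · unfold dA; rw [h6, h4]; exact k3
    · unfold dA; rw [h6, h4]; exact k4
  constructor
  · exact kap_comm
  · intro A t w hA h1 h2 h3
    exact kap_nbr S hE H hA ⟨h1, h2, h3⟩
  · intro A hA
    obtain ⟨F, -, -, -, h4, h5, h6⟩ := face_data (i0 := i0) S H hA
    rw [h6, h4]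
    exact (frame_dirs _ _ h5).2.2.2.2.1
  · intro A hA
    obtain ⟨F, h1, h2, h3, h4, h5, h6, h7, h8, h9, h10⟩ := hdir A hA
    unfold crC
    rw [h7, h8, h9]
    exact kap_mono H h3 h2 h4 h5
  · intro A hA
    obtain ⟨F, h1, h2, h3, h4, h5, h6, h7, h8, h9, h10⟩ := hdir A hA
    unfold crC
    rw [h7, h8, h10]
    exact kap_mono H h3 h2 h4 h6
  · intro A hA hc
    obtain ⟨F, h1, h2, h3, h4, h5, h6, h7, h8, h9, h10⟩ := hdir A hA
    obtain ⟨-, q⟩ := not_cmp_N S hE H h1 h2 hc
    unfold crC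
    rw [h7, h9, kap_N H h3 h2 h4 h5]
    exact H.top F h2 q _ (perp3_flip _ _ _ _ _ h5 (Or.inl rfl) (ad_cases ..))
  · intro A hA hc
    obtain ⟨F, h1, h2, h3, h4, h5, h6, h7, h8, h9, h10⟩ := hdir A hA
    obtain ⟨-, q⟩ := not_cmp_N S hE H h1 h2 hc
    unfold crC
    rw [h7, h10, kap_N H h3 h2 h4 h6]
    exact H.top F h2 q _ (perp3_flip _ _ _ _ _ h6 (Or.inl rfl) (ad_cases ..))
  · intro A hA hc
    obtain ⟨F, h1, h2, h3, h4, h5, h6, h7, h8, h9, h10⟩ := hdir A hA
    obtain ⟨q0, q⟩ := not_cmp_S S hE H h1 h2 hc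
    unfold crC
    rw [h8, h9, kap_S h3 h4 h5, ad_out q0]
    exact H.bot F h2 q _ (perp3_flip _ _ _ _ _ h5 (Or.inl rfl) (ad_cases ..))
  · intro A hA hc
    obtain ⟨F, h1, h2, h3, h4, h5, h6, h7, h8, h9, h10⟩ := hdir A hA
    obtain ⟨q0, q⟩ := not_cmp_S S hE H h1 h2 hc
    unfold crC
    rw [h8, h10, kap_S h3 h4 h6, ad_out q0]
    exact H.bot F h2 q _ (perp3_flip _ _ _ _ _ h6 (Or.inl rfl) (ad_cases ..))
  · intro A hA
    obtain ⟨F, h1, h2, -⟩ := face_data (i0 := i0) S H hA
    exact no_ring S hE H _ _ A F h1 h2 rfl rfl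

end Pool.Agent.Helper84.OT
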