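import Pool.Agent.Helper84.OT.Geo

/-!
# Unit squares and faces of bricks (project OT, MP_409f7f_co)
-/

namespace Pool.Agent.Helper84.OT

open Pool.Agent.Helper17.UF Pool.Agent.Helper84.LD Pool.Agent.Helper69.OT Relation

variable {ι : Type} {lo hi : ι → Cube}

/-- The unit square `A` lies in the face `F` of a brick. -/
def InF (lo hi : ι → Cube) (A : Face) (F : BF ι) : Prop :=
  A.1 ∈ brick lo hi F.1 ∧ A.1 + A.2.vec ∉ brick lo hi F.1 ∧ A.2 = F.2

theorem InF.unique (S : BrickSys lo hi) {A : Face} {F G : BF ι} (hF : InF lo hi A F)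
    (hG : InF lo hi A G) : F = G :=
  Prod.ext (index_unique S hF.1 hG.1) (hF.2.2.symm.trans hG.2.2)

variable [Fintype ι]

theorem mem_cubes' {v : Cube} : v ∈ cubes lo hi ↔ ∃ i, v ∈ brick lo hi i := by
  unfold cubes
  simp

/-- Outside its own brick, a step leads into the glued brick, or out of the body. -/
theorem none_step (S : BrickSys lo hi) {v : Cube} {i : ι} {d : Dir} (h : bnb lo hi i d = none)
    (hv : v ∈ brick lo hi i) (hd : v + d.vec ∉ brick lo hi i) : v + d.vec ∉ cubes lo hi := by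
  intro hP
  obtain ⟨j, hj⟩ := mem_cubes'.1 hP
  have hT : Glued lo hi i d j := ⟨fun h => hd (by rw [h]; exact hj), v, hv, hj⟩
  rw [(bnb_eq_some S).2 hT] at h
  exact absurd h (by simp)

/-- A boundary square lies in a free face of a brick. -/
theorem isFace_iff (S : BrickSys lo hi) {A : Face} :
    IsFace (cubes lo hi) A ↔ ∃ F, InF lo hi A F ∧ IsBF (bnb lo hi) F := by
  constructor
  · rintro ⟨h1, h2⟩
    obtain ⟨i, hi'⟩ := mem_cubes'.1 h1
    have h3 : A.1 + A.2.vec ∉ brick lo hi i := fun h => h2 (mem_cubes'.2 ⟨i, h⟩)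
    refine ⟨(i, A.2), ⟨hi', h3, rfl⟩, ?_⟩
    unfold IsBF
    cases h4 : bnb lo hi i A.2 with
    | none => rfl
    | some j =>
      rw [bnb_eq_some S] at h4
      exact absurd (mem_cubes'.2 ⟨j, (glued_step S h4 hi' h3).1⟩) h2
  · rintro ⟨F, ⟨h1, h2, h3⟩, h4⟩
    refine ⟨mem_cubes'.2 ⟨_, h1⟩, ?_⟩
    unfold IsBF at h4
    rw [h3] at h2 ⊢
    exact none_step S h4 h1 h2

/-- Crossing a side inside a face of a brick. -/
theorem nbr_in (S : BrickSys lo hi) {A : Face} {F : BF ι} {t : Dir} (hA : InF lo hi A F)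
    (hF : IsBF (bnb lo hi) F) (ht : Dir.perp F.2 t = true)
    (hin : A.1 + t.vec ∈ brick lo hi F.1) :
    nbr (cubes lo hi) A t = ((A.1 + t.vec, A.2), t.neg) ∧ InF lo hi (A.1 + t.vec, A.2) F := by
  obtain ⟨h1, h2, h3⟩ := hA
  have h4 : A.1 + t.vec + A.2.vec ∉ brick lo hi F.1 := by
    unfold brick at *
    rw [step_perp h1 hin (by rw [h3, perp_comm]; exact ht)]
    exact h2
  have h5 : A.1 + t.vec + A.2.vec ∉ cubes lo hi := by
    rw [h3] at h4 ⊢
    exact none_step S hF hin h4
  have h6 : A.1 + t.vec ∈ cubes lo hi := mem_cubes'.2 ⟨_, hin⟩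
  refine ⟨?_, hin, h4, h3⟩
  unfold nbr
  rw [if_neg h5, if_pos h6]

/-- Crossing the boundary of a face of a brick. -/
theorem nbr_out (S : BrickSys lo hi) (hE : EdgeOK (cubes lo hi)) {A : Face} {F : BF ι} {t : Dir}
    (hA : InF lo hi A F) (hF : IsBF (bnb lo hi) F) (ht : Dir.perp F.2 t = true)
    (hout : A.1 + t.vec ∉ brick lo hi F.1) :
    InF lo hi (nbr (cubes lo hi) A t).1 (bnbr (bnb lo hi) F t).1 ∧
    IsBF (bnb lo hi) (bnbr (bnb lo hi) F t).1 ∧
    (nbr (cubes lo hi) A t).2 = (bnbr (bnb lo hi) F t).2 ∧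
    (nbr (cubes lo hi) A t).1.1 + (bnbr (bnb lo hi) F t).2.vec ∉
      brick lo hi (bnbr (bnb lo hi) F t).1.1 ∧
    ∀ w, Dir.perp F.2 w = true → Dir.perp t w = true →
      ((nbr (cubes lo hi) A t).1.1 + w.vec ∈ brick lo hi (bnbr (bnb lo hi) F t).1.1 ↔
        A.1 + w.vec ∈ brick lo hi F.1) := by
  obtain ⟨v, d⟩ := A
  obtain ⟨i, d'⟩ := F
  obtain ⟨h1, h2, h3⟩ := hA
  simp only at h1 h2 h3 ht hout
  subst h3
  unfold IsBF at hF
  simp only at hF
  have hvP : v ∈ cubes lo hi := mem_cubes'.2 ⟨i, h1⟩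
  have hvd : v + d.vec ∉ cubes lo hi := none_step S hF h1 h2
  have htd : Dir.perp t d = true := by rw [perp_comm]; exact ht
  cases ha : bnb lo hi i t with
  | none =>
    have hvt : v + t.vec ∉ cubes lo hi := none_step S ha h1 hout
    have hvtd : v + t.vec + d.vec ∉ cubes lo hi := hE v hvP t d htd hvt hvd
    have e1 : nbr (cubes lo hi) (v, d) t = ((v, t), d) := by
      unfold nbr
      simp only
      rw [if_neg hvtd, if_neg hvt]
    have e2 : bnbr (bnb lo hi) (i, d) t = ((i, t), d) := by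
      unfold bnbr
      simp only
      rw [ha]
    rw [e1, e2]
    exact ⟨⟨h1, hout, rfl⟩, ha, rfl, h2, fun w _ _ => Iff.rfl⟩
  | some j =>
    have ha' := (bnb_eq_some S).1 ha
    obtain ⟨hj1, hj2⟩ := glued_step S ha' h1 hout
    have hvt : v + t.vec ∈ cubes lo hi := mem_cubes'.2 ⟨j, hj1⟩
    have hperp : ∀ w, Dir.perp t w = true →
        (v + t.vec + w.vec ∈ brick lo hi j ↔ v + w.vec ∈ brick lo hi i) :=
      fun w hw => cross_step S ha' h1 hout hw
    have hjd : v + t.vec + d.vec ∉ brick lo hi j := by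
      rw [hperp d htd]
      exact h2
    cases hb : bnb lo hi j d with
    | none =>
      have hvtd : v + t.vec + d.vec ∉ cubes lo hi := none_step S hb hj1 hjd
      have e1 : nbr (cubes lo hi) (v, d) t = ((v + t.vec, d), t.neg) := by
        unfold nbr
        simp only
        rw [if_neg hvtd, if_pos hvt]
      have e2 : bnbr (bnb lo hi) (i, d) t = ((j, d), t.neg) := by
        unfold bnbr
        simp only
        rw [ha]
        simp only
        rw [hb]
      rw [e1, e2]
      refine ⟨⟨hj1, hjd, rfl⟩, hb, rfl, ?_, fun w hw1 hw2 => hperp w hw2⟩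
      simp only
      rw [Dir.vec_neg, show v + t.vec + -t.vec = v by abel]
      exact hj2
    | some k =>
      have hb' := (bnb_eq_some S).1 hb
      obtain ⟨hk1, hk2⟩ := glued_step S hb' hj1 hjd
      have hvtd : v + t.vec + d.vec ∈ cubes lo hi := mem_cubes'.2 ⟨k, hk1⟩
      have e1 : nbr (cubes lo hi) (v, d) t = ((v + t.vec + d.vec, t.neg), d.neg) := by
        unfold nbr
        simp only
        rw [if_pos hvtd]
      have e2 : bnbr (bnb lo hi) (i, d) t = ((k, t.neg), d.neg) := by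
        unfold bnbr
        simp only
        rw [ha]
        simp only
        rw [hb]
      have hkt : v + t.vec + d.vec + t.neg.vec ∉ brick lo hi k := by
        rw [Dir.vec_neg, show v + t.vec + d.vec + -t.vec = v + d.vec by abel]
        exact fun h => hvd (mem_cubes'.2 ⟨k, h⟩)
      rw [e1, e2]
      refine ⟨⟨hk1, hkt, rfl⟩, ?_, rfl, ?_, fun w hw1 hw2 => ?_⟩
      · change bnb lo hi k t.neg = none
        cases hc : bnb lo hi k t.neg with
        | none => rfl
        | some l =>
          exfalso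
          have := (glued_step S ((bnb_eq_some S).1 hc) hk1 hkt).1
          rw [Dir.vec_neg, show v + t.vec + d.vec + -t.vec = v + d.vec by abel] at this
          exact hvd (mem_cubes'.2 ⟨l, this⟩)
      · simp only
        rw [Dir.vec_neg, show v + t.vec + d.vec + -d.vec = v + t.vec by abel]
        exact hk2
      · simp only
        rw [cross_step S hb' hj1 hjd hw1]
        exact hperp w hw2

end Pool.Agent.Helper84.OT
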